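import Mathlib

/-!
# A residue class in which finitely many given linear forms are composite
-/

set_option autoImplicit false

namespace Pool.Agent.Run7.h166.TS

open Filter Finset

/-- the linear form `f.1 x + f.2` has a prime value at `n` -/
def Pr (f : ℤ × ℤ) (n : ℕ) : Prop := (f.1 * n + f.2).toNat.Prime

/-- linear forms, fewer than `p`, which do not vanish identically modulo `p` avoid zero at some place -/
theorem avoid {ι : Type} [Fintype ι] (H : ι → ℤ × ℤ) {p : ℕ} (hp : p.Prime) (hcard : Fintype.card ι < p)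
    (hH : ∀ u, ¬ ((p : ℤ) ∣ (H u).1 ∧ (p : ℤ) ∣ (H u).2)) :
    ∃ r : ℤ, ∀ u, ¬ (p : ℤ) ∣ (H u).1 * r + (H u).2 := by
  classical
  have : Fact p.Prime := ⟨hp⟩
  let z : ι → ZMod p := fun u => - ((H u).2 : ZMod p) / ((H u).1 : ZMod p)
  have hc : (univ.image z).card < (univ : Finset (ZMod p)).card := by
    rw [card_univ, ZMod.card]
    exact (card_image_le.trans (by rw [card_univ])).trans_lt hcard
  obtain ⟨w, -, hw⟩ := Finset.exists_mem_notMem_of_card_lt_card hc
  refine ⟨(w.val : ℤ), fun u hd => ?_⟩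
  have h1 : ((H u).1 : ZMod p) * w + ((H u).2 : ZMod p) = 0 := by
    rw [← ZMod.intCast_zmod_eq_zero_iff_dvd] at hd
    push_cast at hd
    rwa [ZMod.natCast_zmod_val] at hd
  by_cases ha : ((H u).1 : ZMod p) = 0
  · rw [ha, zero_mul, zero_add] at h1
    exact hH u ⟨(ZMod.intCast_zmod_eq_zero_iff_dvd _ _).1 ha,
      (ZMod.intCast_zmod_eq_zero_iff_dvd _ _).1 h1⟩
  · apply hw
    refine mem_image.2 ⟨u, mem_univ _, ?_⟩
    show - ((H u).2 : ZMod p) / ((H u).1 : ZMod p) = w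
    rw [div_eq_iff ha]
    linear_combination -h1

theorem class_sel {ι : Type} [Fintype ι] (H : ι → ℤ × ℤ) (h1 : ∀ u, 1 ≤ (H u).1)
    (hcop : ∀ u, IsCoprime (H u).1 (H u).2)
    (hloc : ∀ p : ℕ, p.Prime → p ≤ Fintype.card ι → ∃ r : ℤ, ∀ u, ¬ (p : ℤ) ∣ (H u).1 * r + (H u).2)
    (Z : Finset (ℤ × ℤ)) (hZ : ∀ z ∈ Z, 1 ≤ z.1 ∧ ∀ u, z ≠ H u) :
    ∃ Q ρ m₀ : ℕ, 1 ≤ Q ∧ (∀ p : ℕ, p.Prime →
      ∃ n : ℤ, ∀ u, ¬ (p : ℤ) ∣ (H u).1 * Q * n + ((H u).1 * ρ + (H u).2)) ∧
      ∀ m : ℕ, m₀ ≤ m → ∀ z ∈ Z, ¬ Pr z (Q * m + ρ) := by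
  classical
  -- the forms which are not proportional to one of the `H u`
  set Z' : Finset (ℤ × ℤ) := Z.filter (fun z => ∀ u, (H u).2 * z.1 - (H u).1 * z.2 ≠ 0) with hZ'
  set L : ℕ := ∑ z ∈ Z', (z.1.natAbs + ∑ u, ((H u).2 * z.1 - (H u).1 * z.2).natAbs) with hL
  have hL1 : ∀ z ∈ Z', z.1.natAbs ≤ L := by
    intro z hz
    refine le_trans ?_ (Finset.single_le_sum (f := fun z : ℤ × ℤ =>
      z.1.natAbs + ∑ u, ((H u).2 * z.1 - (H u).1 * z.2).natAbs) (fun _ _ => Nat.zero_le _) hz)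
    simp
  have hL2 : ∀ z ∈ Z', ∀ u, ((H u).2 * z.1 - (H u).1 * z.2).natAbs ≤ L := by
    intro z hz u
    refine le_trans ?_ (Finset.single_le_sum (f := fun z : ℤ × ℤ =>
      z.1.natAbs + ∑ u, ((H u).2 * z.1 - (H u).1 * z.2).natAbs) (fun _ _ => Nat.zero_le _) hz)
    refine le_trans ?_ (Nat.le_add_left _ _)
    exact Finset.single_le_sum (f := fun u => ((H u).2 * z.1 - (H u).1 * z.2).natAbs)
      (fun _ _ => Nat.zero_le _) (mem_univ u)
  obtain ⟨idx, hidx⟩ : ∃ idx : ℤ × ℤ → ℕ, Function.Injective idx := ⟨Encodable.encode, Encodable.encode_injective⟩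
  set q : ℤ × ℤ → ℕ := fun z => Nat.nth Nat.Prime (L + 1 + idx z) with hq
  have hqp : ∀ z, (q z).Prime := fun z => Nat.prime_nth_prime _
  have hqL : ∀ z, L < q z := fun z => by
    have := Nat.add_two_le_nth_prime (L + 1 + idx z)
    show L < Nat.nth Nat.Prime (L + 1 + idx z)
    omega
  have hqinj : ∀ y z, q y = q z → y = z := by
    intro y z h
    have h2 := Nat.nth_injective Nat.infinite_setOfPred_prime h
    exact hidx (by omega)
  have hres : ∀ z ∈ Z', ∃ x : ℕ, ((q z : ℕ) : ℤ) ∣ z.1 * x + z.2 := by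
    intro z hz
    have : Fact (q z).Prime := ⟨hqp z⟩
    have hz1 : ((z.1 : ℤ) : ZMod (q z)) ≠ 0 := by
      intro h
      rw [ZMod.intCast_zmod_eq_zero_iff_dvd] at h
      have h2 := Int.natAbs_dvd_natAbs.2 h
      rw [Int.natAbs_natCast] at h2
      have h3 := Nat.le_of_dvd (by
        have := (hZ z (mem_filter.1 hz).1).1
        omega) h2
      have := hL1 z hz
      have := hqL z
      omega
    refine ⟨(- (z.2 : ZMod (q z)) / (z.1 : ZMod (q z))).val, ?_⟩
    rw [← ZMod.intCast_zmod_eq_zero_iff_dvd]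
    push_cast
    rw [ZMod.natCast_zmod_val, mul_div_cancel₀ _ hz1]
    ring
  choose! x hx using hres
  have hpair : Set.Pairwise (Z' : Set (ℤ × ℤ)) (Function.onFun Nat.Coprime q) := fun y _ z _ hyz =>
    (Nat.coprime_primes (hqp y) (hqp z)).mpr fun e => hyz (hqinj y z e)
  obtain ⟨ρ, hρ⟩ := Nat.chineseRemainderOfFinset x q Z' (fun i _ => (hqp i).ne_zero) hpair
  set Q : ℕ := ∏ z ∈ Z', q z with hQ
  have hQ0 : 0 < Q := Finset.prod_pos fun y _ => (hqp y).pos
  have hρz : ∀ z ∈ Z', ((q z : ℕ) : ℤ) ∣ z.1 * ρ + z.2 := by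
    intro z hz
    have h2 : (ρ : ℤ) ≡ x z [ZMOD q z] := Int.natCast_modEq_iff.2 (hρ z hz)
    have h3 : (q z : ℤ) ∣ z.1 * (ρ - x z) := Dvd.dvd.mul_left h2.symm.dvd _
    have h4 := dvd_add h3 (hx z hz)
    rwa [show z.1 * ((ρ : ℤ) - x z) + (z.1 * x z + z.2) = z.1 * ρ + z.2 by ring] at h4
  refine ⟨Q, ρ, ∑ z ∈ Z, (q z + z.2.natAbs) + ∑ u, (H u).2.natAbs + 2, hQ0, ?_, ?_⟩
  · intro p hp
    by_cases hpQ : p ∣ Q
    · refine ⟨0, fun u hd => ?_⟩
      obtain ⟨z, hz, hpz⟩ := (Prime.dvd_finsetProd_iff hp.prime _).1 (hQ ▸ hpQ)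
      have h2 : p = q z := (Nat.prime_dvd_prime_iff_eq hp (hqp z)).1 hpz
      rw [mul_zero, zero_add, h2] at hd
      have h3 := dvd_sub (Dvd.dvd.mul_left hd z.1) (Dvd.dvd.mul_left (hρz z hz) (H u).1)
      rw [show z.1 * ((H u).1 * ρ + (H u).2) - (H u).1 * (z.1 * ρ + z.2) =
        (H u).2 * z.1 - (H u).1 * z.2 by ring] at h3
      have h4 := Int.natAbs_dvd_natAbs.2 h3
      rw [Int.natAbs_natCast] at h4
      have h5 := Nat.le_of_dvd (Int.natAbs_pos.2 ((mem_filter.1 hz).2 u)) h4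
      have := hL2 z hz u
      have := hqL z
      omega
    · have hprim : ∀ u, ¬ ((p : ℤ) ∣ (H u).1 ∧ (p : ℤ) ∣ (H u).2) := by
        rintro u ⟨ha, hb⟩
        have h5 := (hcop u).isUnit_of_dvd' ha hb
        rw [Int.isUnit_iff] at h5
        have h6 := hp.two_le
        omega
      obtain ⟨r, hr⟩ : ∃ r : ℤ, ∀ u, ¬ (p : ℤ) ∣ (H u).1 * r + (H u).2 := by
        by_cases hpc : p ≤ Fintype.card ι
        · exact hloc p hp hpc
        · exact avoid H hp (by omega) hprim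
      have hcopQ : IsCoprime (Q : ℤ) (p : ℤ) := by
        rw [Nat.isCoprime_iff_coprime, Nat.coprime_comm, hp.coprime_iff_not_dvd]
        exact hpQ
      obtain ⟨α, β, hαβ⟩ := hcopQ
      refine ⟨α * (r - ρ), fun u hd => hr u ?_⟩
      have h2 : (H u).1 * r + (H u).2 =
          ((H u).1 * Q * (α * (r - ρ)) + ((H u).1 * ρ + (H u).2)) +
            (p : ℤ) * ((H u).1 * β * (r - ρ)) := by
        linear_combination (-(H u).1 * (r - ρ)) * hαβ
      rw [h2]
      exact dvd_add hd (dvd_mul_right _ _)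
  · intro m hm z hz hprime
    have hzZ := hZ z hz
    have hmz : q z + z.2.natAbs + 2 ≤ m := by
      have h2 := Finset.single_le_sum (f := fun z : ℤ × ℤ => q z + z.2.natAbs)
        (fun _ _ => Nat.zero_le _) hz
      omega
    have hQm : m ≤ Q * m + ρ := by
      have := Nat.le_mul_of_pos_left m hQ0
      omega
    have hval : (q z : ℤ) + 2 ≤ z.1 * ((Q * m + ρ : ℕ) : ℤ) + z.2 := by
      have h2 : ((q z : ℤ) + z.2.natAbs + 2) ≤ ((Q * m + ρ : ℕ) : ℤ) := by
        have : (m : ℤ) ≤ ((Q * m + ρ : ℕ) : ℤ) := by exact_mod_cast hQm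
        have h3 : ((q z + z.2.natAbs + 2 : ℕ) : ℤ) ≤ m := by exact_mod_cast hmz
        push_cast at h3 ⊢
        push_cast at this
        linarith
      have h3 : 1 * ((Q * m + ρ : ℕ) : ℤ) ≤ z.1 * ((Q * m + ρ : ℕ) : ℤ) :=
        mul_le_mul_of_nonneg_right hzZ.1 (by positivity)
      have h4 : -(z.2.natAbs : ℤ) ≤ z.2 := by omega
      linarith
    unfold Pr at hprime
    set w : ℤ := z.1 * ((Q * m + ρ : ℕ) : ℤ) + z.2 with hw
    have hw0 : (w.toNat : ℤ) = w := Int.toNat_of_nonneg (by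
      have : (0 : ℤ) ≤ q z := Nat.cast_nonneg _
      linarith)
    by_cases hzZ' : z ∈ Z'
    · have h2 : ((q z : ℕ) : ℤ) ∣ w := by
        have h3 : w = (z.1 * ρ + z.2) + (Q : ℤ) * (z.1 * m) := by
          rw [hw]; push_cast; ring
        rw [h3]
        refine dvd_add (hρz z hzZ') (Dvd.dvd.mul_right ?_ _)
        exact_mod_cast Finset.dvd_prod_of_mem q hzZ'
      rw [← hw0] at h2
      have h3 : q z ∣ w.toNat := by exact_mod_cast h2
      have h4 : q z = w.toNat := (Nat.prime_dvd_prime_iff_eq (hqp z) hprime).1 h3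
      have h5 : (q z : ℤ) = w := by rw [h4]; exact hw0
      linarith
    · -- proportional to one of the forms
      rw [hZ', mem_filter, not_and] at hzZ'
      have h2 := hzZ' hz
      push Not at h2
      obtain ⟨u, hu⟩ := h2
      have h3 : (H u).1 ∣ z.1 := by
        have h4 : (H u).1 ∣ (H u).2 * z.1 := ⟨z.2, by linarith⟩
        exact (hcop u).dvd_of_dvd_mul_left h4
      obtain ⟨l, hl⟩ := h3
      have hH0 : (H u).1 ≠ 0 := by have := h1 u; omega
      have h4 : z.2 = (H u).2 * l := by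
        have h5 : (H u).1 * z.2 = (H u).1 * ((H u).2 * l) := by
          rw [hl] at hu
          linarith
        exact mul_left_cancel₀ hH0 h5
      have hl0 : 0 < l := by
        by_contra hcon
        have h5 : (H u).1 * l ≤ 0 := by
          have := h1 u
          nlinarith
        have := hzZ.1
        omega
      have hl2 : 2 ≤ l := by
        by_contra hcon
        have h5 : l = 1 := by omega
        apply hzZ.2 u
        rw [h5, mul_one] at hl h4
        exact Prod.ext hl h4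
      have hv : w = l * ((H u).1 * ((Q * m + ρ : ℕ) : ℤ) + (H u).2) := by
        rw [hw, hl, h4]; ring
      set y : ℤ := (H u).1 * ((Q * m + ρ : ℕ) : ℤ) + (H u).2 with hy
      have hy2 : 2 ≤ y := by
        have h5 : ∑ u, (H u).2.natAbs + 2 ≤ m := by omega
        have h6 := Finset.single_le_sum (f := fun u => (H u).2.natAbs)
          (fun _ _ => Nat.zero_le _) (mem_univ u)
        have h7 : ((H u).2.natAbs : ℤ) + 2 ≤ ((Q * m + ρ : ℕ) : ℤ) := by
          have : (H u).2.natAbs + 2 ≤ Q * m + ρ := by omega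
          exact_mod_cast this
        have h8 : 1 * ((Q * m + ρ : ℕ) : ℤ) ≤ (H u).1 * ((Q * m + ρ : ℕ) : ℤ) :=
          mul_le_mul_of_nonneg_right (h1 u) (by positivity)
        have h9 : -((H u).2.natAbs : ℤ) ≤ (H u).2 := by omega
        rw [hy]
        linarith
      have h5 : w.toNat = l.toNat * y.toNat := by
        rw [hv, Int.toNat_mul (by omega) (by omega)]
      rw [h5] at hprime
      have h6 := Nat.not_prime_mul (a := l.toNat) (b := y.toNat) (by omega) (by omega)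
      exact h6 hprime

end Pool.Agent.Run7.h166.TS
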