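import Mathlib

/-!
# Arranging a finite set in `r` lists with good windows

`good` is a hereditary property of finite sets. Suppose that among `r + 1` groups of `S` blocks of `K`
different elements of `V` there is always a good set which meets more than `S + r k` of the blocks, and that
every subset of `V` of at least `R` elements contains a good set of `2 (k + S K)` elements. Then `V` with
fewer than `R` exceptions can be arranged in `r` lists whose windows of length at most `k` are good. The
lists end in long good sets; if there are `r + 1` of them, two of them can be joined.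
-/

set_option autoImplicit false

namespace Pool.Agent.Run7.h166.TS

open Finset

variable {α : Type} [DecidableEq α] {good : Finset α → Prop}

/-- all windows of length at most `k` are good -/
def Win (good : Finset α → Prop) (k : ℕ) (l : List α) : Prop :=
  ∀ w : List α, w <:+: l → w.length ≤ k → good w.toFinset

theorem Win.of_good (hh : ∀ s t : Finset α, s ⊆ t → good t → good s) {k : ℕ} {l : List α}
    (h : good l.toFinset) : Win good k l := by
  intro w hw _
  refine hh _ _ ?_ h
  intro x hx
  rw [List.mem_toFinset] at *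
  exact hw.subset hx

theorem Win.reverse {k : ℕ} {l : List α} (h : Win good k l) : Win good k l.reverse := by
  intro w hw hk
  have h1 := h w.reverse (by
    have := List.reverse_infix.2 hw
    rwa [List.reverse_reverse] at this) (by rwa [List.length_reverse])
  rwa [List.toFinset_reverse] at h1

theorem Win.glue {k : ℕ} {x c y : List α} (h1 : Win good k (x ++ c)) (h2 : Win good k (c ++ y))
    (hk : k ≤ c.length) : Win good k (x ++ c ++ y) := by
  rintro w ⟨s, t, hst⟩ hw
  by_cases hs : x.length ≤ s.length
  · have hx : x <+: s := by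
      refine List.prefix_of_prefix_length_le (l₃ := x ++ c ++ y) ?_ ?_ hs
      · rw [List.append_assoc]; exact List.prefix_append _ _
      · rw [← hst, List.append_assoc]; exact List.prefix_append _ _
    obtain ⟨s', rfl⟩ := hx
    refine h2 w ⟨s', t, ?_⟩ hw
    have h3 : x ++ (s' ++ w ++ t) = x ++ (c ++ y) := by
      simpa [List.append_assoc] using hst
    exact List.append_cancel_left h3
  · have hx : s ++ w <+: x ++ c := by
      refine List.prefix_of_prefix_length_le (l₃ := x ++ c ++ y) ?_ ?_ ?_
      · rw [← hst]; exact List.prefix_append _ _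
      · exact List.prefix_append _ _
      · rw [List.length_append, List.length_append]; omega
    obtain ⟨t', ht'⟩ := hx
    exact h1 w ⟨s, t', ht'⟩ hw

/-- moving a set to the end of a good block -/
theorem half (hh : ∀ s t : Finset α, s ⊆ t → good t → good s) {k : ℕ} {X Q : List α} {A : Finset α}
    (hnd : Q.Nodup) (hW : Win good k (X ++ Q)) (hQ : good Q.toFinset) (hk : k ≤ Q.length)
    (hA : A ⊆ (Q.drop k).toFinset) :
    ∃ D : List α, List.Perm (D ++ A.toList) Q ∧ Win good k (X ++ (D ++ A.toList)) := by
  have hp : List.Perm ((Q.drop k).filter (fun x => x ∉ A) ++ A.toList) (Q.drop k) := by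
    rw [List.perm_ext_iff_of_nodup]
    · intro x
      rw [List.mem_append, List.mem_filter, Finset.mem_toList]
      constructor
      · rintro (h | h)
        · exact h.1
        · exact List.mem_toFinset.1 (hA h)
      · intro h
        by_cases hx : x ∈ A
        · exact Or.inr hx
        · exact Or.inl ⟨h, by simpa using hx⟩
    · rw [List.nodup_append]
      refine ⟨(hnd.sublist (List.drop_sublist _ _)).filter _, Finset.nodup_toList _, ?_⟩
      intro a ha b hb hab
      subst hab
      rw [List.mem_filter] at ha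
      rw [Finset.mem_toList] at hb
      simpa [hb] using ha.2
    · exact hnd.sublist (List.drop_sublist _ _)
  refine ⟨Q.take k ++ (Q.drop k).filter (fun x => x ∉ A), ?_, ?_⟩
  · rw [List.append_assoc]
    refine (hp.append_left _).trans ?_
    rw [List.take_append_drop]
  · have h1 : X ++ (Q.take k ++ (Q.drop k).filter (fun x => x ∉ A) ++ A.toList) =
        X ++ Q.take k ++ ((Q.drop k).filter (fun x => x ∉ A) ++ A.toList) := by
      simp [List.append_assoc]
    rw [h1]
    refine Win.glue ?_ ?_ ?_
    · intro w hw hwk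
      refine hW w (hw.trans ?_) hwk
      refine List.IsPrefix.isInfix ?_
      refine ⟨Q.drop k, ?_⟩
      rw [List.append_assoc, List.take_append_drop]
    · refine Win.of_good hh ?_
      refine hh _ _ ?_ hQ
      intro x hx
      rw [List.mem_toFinset] at *
      have h2 : List.Perm (Q.take k ++ ((Q.drop k).filter (fun x => x ∉ A) ++ A.toList)) Q := by
        refine (hp.append_left _).trans ?_
        rw [List.take_append_drop]
      exact h2.subset hx
    · rw [List.length_take]; omega

/-- a list with good windows and long good ends -/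
def Rob (good : Finset α → Prop) (k m : ℕ) (l : List α) : Prop :=
  l.Nodup ∧ Win good k l ∧ ∃ P L Q : List α, l = P ++ L ++ Q ∧ good P.toFinset ∧ good Q.toFinset ∧
    m ≤ P.length ∧ m ≤ Q.length

theorem merge (hh : ∀ s t : Finset α, s ⊆ t → good t → good s) {k m : ℕ} (hm : k ≤ m)
    {P₁ L₁ Q₁ P₂ L₂ Q₂ : List α} {A B : Finset α}
    (h1 : (P₁ ++ L₁ ++ Q₁).Nodup) (h2 : (P₂ ++ L₂ ++ Q₂).Nodup)
    (hd : List.Disjoint (P₁ ++ L₁ ++ Q₁) (P₂ ++ L₂ ++ Q₂))
    (hW1 : Win good k (P₁ ++ L₁ ++ Q₁)) (hW2 : Win good k (P₂ ++ L₂ ++ Q₂))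
    (hP1 : good P₁.toFinset) (hP2 : good P₂.toFinset) (hQ1 : good Q₁.toFinset)
    (hQ2 : good Q₂.toFinset) (hp1 : m ≤ P₁.length) (hp2 : m ≤ P₂.length) (hq1 : m ≤ Q₁.length)
    (hq2 : m ≤ Q₂.length) (hA : A ⊆ (Q₁.drop k).toFinset) (hB : B ⊆ (Q₂.drop k).toFinset)
    (hAc : A.card = k) (hBc : B.card = k) (hAB : good (A ∪ B)) :
    ∃ l : List α, Rob good k m l ∧ List.Perm l ((P₁ ++ L₁ ++ Q₁) ++ (P₂ ++ L₂ ++ Q₂)) := by
  obtain ⟨D₁, hD1, hD1'⟩ := half hh (X := P₁ ++ L₁) (h1.sublist (List.sublist_append_right _ _)) hW1 hQ1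
    (hm.trans hq1) hA
  obtain ⟨D₂, hD2, hD2'⟩ := half hh (X := P₂ ++ L₂) (h2.sublist (List.sublist_append_right _ _)) hW2 hQ2
    (hm.trans hq2) hB
  have hlA : A.toList.length = k := by rw [Finset.length_toList, hAc]
  have hlB : B.toList.reverse.length = k := by rw [List.length_reverse, Finset.length_toList, hBc]
  set l : List α := (P₁ ++ L₁ ++ D₁) ++ A.toList ++ B.toList.reverse ++ (P₂ ++ L₂ ++ D₂).reverse with hl
  have hperm : List.Perm l ((P₁ ++ L₁ ++ Q₁) ++ (P₂ ++ L₂ ++ Q₂)) := by
    have e1 : l = (P₁ ++ L₁ ++ (D₁ ++ A.toList)) ++ (P₂ ++ L₂ ++ (D₂ ++ B.toList)).reverse := by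
      rw [hl]
      simp [List.append_assoc]
    rw [e1]
    refine List.Perm.append (hD1.append_left _) ?_
    refine (List.reverse_perm _).trans (hD2.append_left _)
  refine ⟨l, ⟨?_, ?_, P₁, L₁ ++ D₁ ++ A.toList ++ B.toList.reverse ++ D₂.reverse ++ L₂.reverse,
    P₂.reverse, ?_, hP1, ?_, hp1, ?_⟩, hperm⟩
  · rw [hperm.nodup_iff, List.nodup_append]
    refine ⟨h1, h2, ?_⟩
    intro a ha b hb hab
    subst hab
    exact hd ha hb
  · have hAB' : Win good k (A.toList ++ B.toList.reverse) := by
      refine Win.of_good hh (hh _ _ ?_ hAB)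
      intro x hx
      rw [List.mem_toFinset, List.mem_append, List.mem_reverse, Finset.mem_toList,
        Finset.mem_toList] at hx
      exact mem_union.2 hx
    have e1 : Win good k ((P₁ ++ L₁ ++ D₁) ++ A.toList) := by
      have : (P₁ ++ L₁ ++ D₁) ++ A.toList = P₁ ++ L₁ ++ (D₁ ++ A.toList) := by
        simp [List.append_assoc]
      rwa [this]
    have e2 : Win good k (B.toList.reverse ++ (P₂ ++ L₂ ++ D₂).reverse) := by
      have : B.toList.reverse ++ (P₂ ++ L₂ ++ D₂).reverse =
          (P₂ ++ L₂ ++ (D₂ ++ B.toList)).reverse := by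
        simp [List.append_assoc]
      rw [this]
      exact hD2'.reverse
    have e3 := Win.glue e1 hAB' (le_of_eq hlA.symm)
    exact Win.glue e3 e2 (le_of_eq hlB.symm)
  · rw [hl]
    simp [List.append_assoc]
  · rwa [List.toFinset_reverse]
  · rwa [List.length_reverse]

/-- **The finite form of the Maynard-Tao theorem used here.** -/
def FMT (good : Finset α → Prop) (V : Finset α) (r k S K : ℕ) : Prop :=
  ∀ X : Fin (r + 1) × Fin S × Fin K → α, Function.Injective X → (∀ u, X u ∈ V) →
    ∃ s : Finset α, good s ∧ ∃ B : Finset (Fin (r + 1) × Fin S), S + r * k < B.card ∧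
      ∀ b ∈ B, ∃ i, X (b.1, b.2, i) ∈ s

/-- two groups with `k` hits -/
theorem two_groups {r k S : ℕ} (B : Finset (Fin (r + 1) × Fin S)) (hB : S + r * k < B.card) :
    ∃ g g' : Fin (r + 1), g ≠ g' ∧ k ≤ (univ.filter (fun j => (g, j) ∈ B)).card ∧
      k ≤ (univ.filter (fun j => (g', j) ∈ B)).card := by
  by_contra hcon
  push Not at hcon
  set J : Fin (r + 1) → Finset (Fin S) := fun g => univ.filter (fun j => (g, j) ∈ B) with hJ
  have h1 : ∃ g₀ : Fin (r + 1), ∀ g, g ≠ g₀ → (J g).card ≤ k := by
    by_cases h : ∃ g₀, k ≤ (J g₀).card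
    · obtain ⟨g₀, hg⟩ := h
      exact ⟨g₀, fun g hgg => (hcon g₀ g hgg.symm hg).le⟩
    · push Not at h
      exact ⟨0, fun g _ => (h g).le⟩
  obtain ⟨g₀, hg₀⟩ := h1
  have h2 : B.card = ∑ g, (J g).card := by
    rw [Finset.card_eq_sum_card_fiberwise (f := Prod.fst) (t := univ) (fun _ _ => mem_univ _)]
    refine Finset.sum_congr rfl fun g _ => ?_
    refine Finset.card_bij' (fun b _ => b.2) (fun j _ => (g, j)) ?_ ?_ ?_ ?_
    · intro b hb
      obtain ⟨hb1, hb2⟩ := mem_filter.1 hb
      refine mem_filter.2 ⟨mem_univ _, ?_⟩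
      rw [← hb2]
      exact hb1
    · intro j hj
      exact mem_filter.2 ⟨(mem_filter.1 hj).2, rfl⟩
    · intro b hb
      exact Prod.ext (mem_filter.1 hb).2.symm rfl
    · intro j _
      rfl
  have h3 : ∑ g, (J g).card ≤ S + r * k := by
    rw [← Finset.add_sum_erase univ _ (mem_univ g₀)]
    have h4 : (J g₀).card ≤ S := (card_le_univ _).trans (by rw [Fintype.card_fin])
    have h5 : ∑ g ∈ univ.erase g₀, (J g).card ≤ ∑ g ∈ univ.erase g₀, k :=
      Finset.sum_le_sum fun g hg => hg₀ g (ne_of_mem_erase hg)
    rw [Finset.sum_const, card_erase_of_mem (mem_univ _), card_univ, Fintype.card_fin, smul_eq_mul,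
      Nat.add_sub_cancel] at h5
    omega
  omega

/-- the elements of the lists -/
def Un {r : ℕ} (E : Fin (r + 1) → List α) : Finset α := univ.biUnion fun i => (E i).toFinset

theorem mem_Un {r : ℕ} (E : Fin (r + 1) → List α) (x : α) : x ∈ Un E ↔ ∃ i, x ∈ E i := by
  unfold Un
  rw [mem_biUnion]
  constructor
  · rintro ⟨i, -, hi⟩
    exact ⟨i, List.mem_toFinset.1 hi⟩
  · rintro ⟨i, hi⟩
    exact ⟨i, mem_univ _, List.mem_toFinset.2 hi⟩

/-- **Two of `r + 1` lists can be joined.** -/
theorem join (hh : ∀ s t : Finset α, s ⊆ t → good t → good s) {r k S K : ℕ} {V : Finset α}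
    (hMT : FMT good V r k S K) (E : Fin (r + 1) → List α) (hR : ∀ i, Rob good k (k + S * K) (E i))
    (hd : ∀ i j, i ≠ j → List.Disjoint (E i) (E j)) (hV : ∀ i, ∀ x ∈ E i, x ∈ V) :
    ∃ E' : Fin (r + 1) → List α, (∃ j, E' j = []) ∧
      (∀ i, E' i = [] ∨ Rob good k (k + S * K) (E' i)) ∧
      (∀ i j, i ≠ j → List.Disjoint (E' i) (E' j)) ∧ ∀ x, (∃ i, x ∈ E' i) ↔ ∃ i, x ∈ E i := by
  have hR' := fun i => (hR i).2.2
  choose P L Q hE hP hQ hPl hQl using hR'
  have hlen : ∀ g, S * K ≤ ((Q g).drop k).length := by
    intro g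
    have := hQl g
    rw [List.length_drop]
    omega
  have hidx : ∀ u : Fin (r + 1) × Fin S × Fin K,
      ((finProdFinEquiv (u.2.1, u.2.2) : Fin (S * K)) : ℕ) < ((Q u.1).drop k).length := fun u =>
    lt_of_lt_of_le (Fin.is_lt _) (hlen _)
  set X : Fin (r + 1) × Fin S × Fin K → α := fun u => ((Q u.1).drop k)[((finProdFinEquiv (u.2.1, u.2.2) : Fin (S * K)) : ℕ)]'(hidx u) with hX
  have hXm : ∀ u, X u ∈ (Q u.1).drop k := fun u => List.getElem_mem _
  have hQE : ∀ g, ∀ x ∈ (Q g).drop k, x ∈ E g := by
    intro g x hx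
    rw [hE g]
    exact List.mem_append_right _ (List.mem_of_mem_drop hx)
  have hQn : ∀ g, ((Q g).drop k).Nodup := by
    intro g
    have h1 := (hR g).1
    rw [hE g] at h1
    exact (h1.sublist (List.sublist_append_right _ _)).sublist (List.drop_sublist _ _)
  have hXinj : Function.Injective X := by
    rintro ⟨g, j, i⟩ ⟨g', j', i'⟩ h
    have hg : g = g' := by
      by_contra hne
      have h1 := hQE _ _ (hXm (g, j, i))
      have h2 := hQE _ _ (hXm (g', j', i'))
      rw [← h] at h2
      exact hd g g' hne h1 h2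
    subst hg
    have h1 := ((hQn g).getElem_inj_iff).1 h
    have h2 := finProdFinEquiv.injective (Fin.ext h1)
    simp only [Prod.mk.injEq] at h2
    rw [h2.1, h2.2]
  obtain ⟨s, hs, B, hB, hBs⟩ := hMT X hXinj (fun u => hV _ _ (hQE _ _ (hXm u)))
  obtain ⟨g, g', hne, hg, hg'⟩ := two_groups B hB
  have hsub : ∀ g : Fin (r + 1), k ≤ (univ.filter (fun j => (g, j) ∈ B)).card →
      ∃ A : Finset α, A ⊆ s ∧ A ⊆ ((Q g).drop k).toFinset ∧ A.card = k := by
    intro g hg
    haveI : Nonempty (Fin K) := by
      obtain ⟨b, hb⟩ := card_pos.1 (lt_of_le_of_lt (Nat.zero_le _) hB)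
      obtain ⟨i, -⟩ := hBs b hb
      exact ⟨i⟩
    choose! c hc using hBs
    have h1 : (univ.filter (fun j => (g, j) ∈ B)).card ≤
        ((univ.filter (fun j => (g, j) ∈ B)).image (fun j => X (g, j, c (g, j)))).card := by
      rw [Finset.card_image_of_injective]
      intro j j' h
      have := hXinj h
      simp only [Prod.mk.injEq, true_and] at this
      exact this.1
    obtain ⟨A, hA, hAc⟩ := exists_subset_card_eq (hg.trans h1)
    refine ⟨A, hA.trans ?_, hA.trans ?_, hAc⟩
    · intro x hx
      obtain ⟨j, hj, rfl⟩ := mem_image.1 hx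
      exact hc _ (mem_filter.1 hj).2
    · intro x hx
      obtain ⟨j, hj, rfl⟩ := mem_image.1 hx
      exact List.mem_toFinset.2 (hXm _)
  obtain ⟨A, hAs, hAQ, hAc⟩ := hsub g hg
  obtain ⟨A', hAs', hAQ', hAc'⟩ := hsub g' hg'
  obtain ⟨l, hl, hlp⟩ := merge hh (Nat.le_add_right k (S * K)) (by rw [← hE g]; exact (hR g).1)
    (by rw [← hE g']; exact (hR g').1) (by rw [← hE g, ← hE g']; exact hd g g' hne)
    (by rw [← hE g]; exact (hR g).2.1) (by rw [← hE g']; exact (hR g').2.1) (hP g) (hP g') (hQ g) (hQ g')
    (hPl g) (hPl g') (hQl g) (hQl g') hAQ hAQ' hAc hAc' (hh _ _ (union_subset hAs hAs') hs)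
  rw [← hE g, ← hE g'] at hlp
  have hlm : ∀ x, x ∈ l ↔ x ∈ E g ∨ x ∈ E g' := fun x => by rw [hlp.mem_iff, List.mem_append]
  refine ⟨Function.update (Function.update E g l) g' [], ⟨g', Function.update_self _ _ _⟩, ?_, ?_, ?_⟩
  · intro i
    by_cases h1 : i = g'
    · subst h1
      left
      exact Function.update_self _ _ _
    · rw [Function.update_of_ne h1]
      by_cases h2 : i = g
      · subst h2
        rw [Function.update_self]
        exact Or.inr hl
      · rw [Function.update_of_ne h2]
        exact Or.inr (hR i)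
  · intro i j hij
    by_cases hi' : i = g'
    · subst hi'
      rw [Function.update_self]
      intro x hx
      simp at hx
    by_cases hj' : j = g'
    · subst hj'
      rw [Function.update_self]
      intro x _ hx
      simp at hx
    rw [Function.update_of_ne hi', Function.update_of_ne hj']
    by_cases hi : i = g
    · subst hi
      rw [Function.update_self, Function.update_of_ne (Ne.symm hij)]
      intro x hx hx'
      rcases (hlm x).1 hx with h | h
      · exact hd _ _ hij h hx'
      · exact hd _ _ (Ne.symm hj') h hx'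
    · rw [Function.update_of_ne hi]
      by_cases hj : j = g
      · subst hj
        rw [Function.update_self]
        intro x hx hx'
        rcases (hlm x).1 hx' with h | h
        · exact hd _ _ hij hx h
        · exact hd _ _ hi' hx h
      · rw [Function.update_of_ne hj]
        exact hd i j hij
  · intro x
    constructor
    · rintro ⟨i, hi⟩
      by_cases h1 : i = g'
      · subst h1
        rw [Function.update_self] at hi
        simp at hi
      · rw [Function.update_of_ne h1] at hi
        by_cases h2 : i = g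
        · subst h2
          rw [Function.update_self] at hi
          rcases (hlm x).1 hi with h | h
          · exact ⟨_, h⟩
          · exact ⟨_, h⟩
        · rw [Function.update_of_ne h2] at hi
          exact ⟨i, hi⟩
    · rintro ⟨i, hi⟩
      by_cases h1 : i = g ∨ i = g'
      · refine ⟨g, ?_⟩
        rw [Function.update_of_ne hne, Function.update_self]
        refine (hlm x).2 ?_
        rcases h1 with rfl | rfl
        · exact Or.inl hi
        · exact Or.inr hi
      · push Not at h1
        refine ⟨i, ?_⟩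
        rw [Function.update_of_ne h1.2, Function.update_of_ne h1.1]
        exact hi

/-- every large subset of `V` contains a good set of `m` elements -/
def FCl (good : Finset α → Prop) (V : Finset α) (R m : ℕ) : Prop :=
  ∀ Y ⊆ V, R ≤ Y.card → ∃ Q ⊆ Y, Q.card = m ∧ good Q

/-- **The arrangement of a finite set in `r` lists.** -/
theorem finite_arrange (hh : ∀ s t : Finset α, s ⊆ t → good t → good s) (h0 : good ∅) {r k S K R : ℕ}
    {V : Finset α} (hk : 1 ≤ k) (hMT : FMT good V r k S K)
    (hCl : FCl good V R (2 * (k + S * K))) :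
    ∃ e : Fin r → List α, (∀ i, (e i).Nodup) ∧ (∀ i j, i ≠ j → List.Disjoint (e i) (e j)) ∧
      (∀ i, ∀ x ∈ e i, x ∈ V) ∧ (V.filter (fun x => ∀ i, x ∉ e i)).card < R ∧
      ∀ i, Win good k (e i) := by
  set m := k + S * K with hm
  have main : ∀ n : ℕ, ∀ E : Fin (r + 1) → List α, (∃ j, E j = []) → (∀ i, E i = [] ∨ Rob good k m (E i)) →
      (∀ i j, i ≠ j → List.Disjoint (E i) (E j)) → (∀ i, ∀ x ∈ E i, x ∈ V) →
      (V.filter (fun x => ∀ i, x ∉ E i)).card ≤ n →
      ∃ E : Fin (r + 1) → List α, (∃ j, E j = []) ∧ (∀ i, E i = [] ∨ Rob good k m (E i)) ∧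
      (∀ i j, i ≠ j → List.Disjoint (E i) (E j)) ∧ (∀ i, ∀ x ∈ E i, x ∈ V) ∧
      (V.filter (fun x => ∀ i, x ∉ E i)).card < R ∨ R = 0 := by
    intro n
    induction n using Nat.strong_induction_on with
    | _ n ih =>
      rintro E ⟨j, hj⟩ hE hd hV hn
      by_cases hR : (V.filter (fun x => ∀ i, x ∉ E i)).card < R
      · exact ⟨E, Or.inl ⟨⟨j, hj⟩, hE, hd, hV, hR⟩⟩
      push Not at hR
      obtain ⟨Q, hQY, hQc, hQg⟩ := hCl _ (filter_subset _ _) hR
      have hQV : ∀ x ∈ Q, x ∈ V := fun x hx => (mem_filter.1 (hQY hx)).1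
      have hQE : ∀ x ∈ Q, ∀ i, x ∉ E i := fun x hx => (mem_filter.1 (hQY hx)).2
      have hQl : Q.toList.length = 2 * m := by rw [Finset.length_toList, hQc]
      have hRob : Rob good k m Q.toList := by
        refine ⟨Finset.nodup_toList _, Win.of_good hh (by rwa [Finset.toList_toFinset]),
          Q.toList.take m, [], Q.toList.drop m, by simp, ?_, ?_, ?_, ?_⟩
        · refine hh _ _ ?_ hQg
          intro x hx
          rw [List.mem_toFinset] at hx
          exact Finset.mem_toList.1 (List.mem_of_mem_take hx)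
        · refine hh _ _ ?_ hQg
          intro x hx
          rw [List.mem_toFinset] at hx
          exact Finset.mem_toList.1 (List.mem_of_mem_drop hx)
        · rw [List.length_take, hQl]; omega
        · rw [List.length_drop, hQl]; omega
      set E₁ : Fin (r + 1) → List α := Function.update E j Q.toList with hE₁
      have hE₁j : E₁ j = Q.toList := Function.update_self _ _ _
      have hE₁n : ∀ i, i ≠ j → E₁ i = E i := fun i hi => Function.update_of_ne hi _ _
      have hmem : ∀ x, (∃ i, x ∈ E₁ i) ↔ x ∈ Q ∨ ∃ i, x ∈ E i := by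
        intro x
        constructor
        · rintro ⟨i, hi⟩
          by_cases h : i = j
          · subst h
            rw [hE₁j] at hi
            exact Or.inl (Finset.mem_toList.1 hi)
          · rw [hE₁n i h] at hi
            exact Or.inr ⟨i, hi⟩
        · rintro (h | ⟨i, hi⟩)
          · exact ⟨j, by rw [hE₁j]; exact Finset.mem_toList.2 h⟩
          · have h : i ≠ j := by
              rintro rfl
              rw [hj] at hi
              simp at hi
            exact ⟨i, by rw [hE₁n i h]; exact hi⟩
      have hE' : ∀ i, E₁ i = [] ∨ Rob good k m (E₁ i) := by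
        intro i
        by_cases h : i = j
        · subst h
          rw [hE₁j]
          exact Or.inr hRob
        · rw [hE₁n i h]
          exact hE i
      have hd' : ∀ i i', i ≠ i' → List.Disjoint (E₁ i) (E₁ i') := by
        intro i i' hii
        by_cases h : i = j
        · subst h
          rw [hE₁j, hE₁n i' (Ne.symm hii)]
          intro x hx hx'
          exact hQE x (Finset.mem_toList.1 hx) i' hx'
        · rw [hE₁n i h]
          by_cases h' : i' = j
          · subst h'
            rw [hE₁j]
            intro x hx hx'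
            exact hQE x (Finset.mem_toList.1 hx') i hx
          · rw [hE₁n i' h']
            exact hd i i' hii
      have hV' : ∀ i, ∀ x ∈ E₁ i, x ∈ V := by
        intro i x hx
        rcases (hmem x).1 ⟨i, hx⟩ with h | ⟨i', h⟩
        · exact hQV x h
        · exact hV i' x h
      have hcard : (V.filter (fun x => ∀ i, x ∉ E₁ i)).card < n := by
        refine lt_of_lt_of_le (card_lt_card ?_) hn
        rw [Finset.ssubset_iff_of_subset]
        · have hQne : Q.Nonempty := by
            rw [← card_pos, hQc]
            omega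
          obtain ⟨q, hq⟩ := hQne
          refine ⟨q, mem_filter.2 ⟨hQV q hq, hQE q hq⟩, ?_⟩
          intro h
          have h2 := (mem_filter.1 h).2 j
          rw [hE₁j] at h2
          exact h2 (Finset.mem_toList.2 hq)
        · intro x hx
          obtain ⟨h1, h2⟩ := mem_filter.1 hx
          refine mem_filter.2 ⟨h1, fun i hi => ?_⟩
          obtain ⟨i', hi'⟩ := (hmem x).2 (Or.inr ⟨i, hi⟩)
          exact h2 i' hi'
      by_cases hemp : ∃ j', E₁ j' = []
      · exact ih _ hcard E₁ hemp hE' hd' hV' le_rfl
      · push Not at hemp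
        obtain ⟨E₂, h1, h2, h3, h4⟩ := join hh hMT E₁ (fun i => (hE' i).resolve_left (hemp i)) hd' hV'
        refine ih _ hcard E₂ h1 h2 h3 ?_ ?_
        · intro i x hx
          obtain ⟨i', hi'⟩ := (h4 x).1 ⟨i, hx⟩
          exact hV' i' x hi'
        · refine card_le_card ?_
          intro x hx
          obtain ⟨hx1, hx2⟩ := mem_filter.1 hx
          refine mem_filter.2 ⟨hx1, fun i hi => ?_⟩
          obtain ⟨i', hi'⟩ := (h4 x).2 ⟨i, hi⟩
          exact hx2 i' hi'
  have hR0 : R ≠ 0 := by
    rintro rfl
    obtain ⟨Q, hQ, hQc, -⟩ := hCl ∅ (empty_subset _) (Nat.zero_le _)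
    rw [subset_empty.1 hQ, card_empty] at hQc
    omega
  obtain ⟨E, h⟩ := main V.card (fun _ => []) ⟨0, rfl⟩ (fun _ => Or.inl rfl)
    (fun i j _ x hx => by simp at hx) (fun i x hx => by simp at hx) (card_le_card (filter_subset _ _))
  rcases h with ⟨⟨j, hj⟩, hE, hd, hV, hR⟩ | h
  · refine ⟨fun i => E (j.succAbove i), ?_, ?_, ?_, ?_, ?_⟩
    · intro i
      show (E (j.succAbove i)).Nodup
      rcases hE (j.succAbove i) with h | h
      · rw [h]; exact List.nodup_nil
      · exact h.1
    · intro i i' hii
      exact hd _ _ (fun h => hii (Fin.succAbove_right_injective h))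
    · intro i x hx
      exact hV _ x hx
    · refine lt_of_le_of_lt (card_le_card ?_) hR
      intro x hx
      obtain ⟨h1, h2⟩ := mem_filter.1 hx
      refine mem_filter.2 ⟨h1, fun i hi => ?_⟩
      by_cases hij : i = j
      · subst hij
        rw [hj] at hi
        simp at hi
      · obtain ⟨i', rfl⟩ := Fin.exists_succAbove_eq hij
        exact h2 i' hi
    · intro i
      rcases hE (j.succAbove i) with h | h
      · show Win good k (E (j.succAbove i))
        rw [h]
        refine Win.of_good hh ?_
        rwa [List.toFinset_nil]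
      · exact h.2.1
  · exact absurd h hR0

end Pool.Agent.Run7.h166.TS
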