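import Mathlib
import Pool.Agent.TH899.UG.ExU
import Pool.Agent.Run7.h166.TS.ClassSel
import Pool.Agent.Run7.h166.TS.Lists

/-!
# Every locally admissible family of linear forms of size `N`, with a bounded number of exceptions, in three
# lists with prime windows
-/

set_option autoImplicit false

namespace Pool.Agent.Run7.h166.TS

open Filter Finset

/-- the choice of the number of blocks -/
theorem blocks_choice' (c : ℝ) (hc : 0 < c) (hc1 : c < 1) (k : ℕ) :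
    ∃ S : ℕ, 1 ≤ S ∧ (4 - c) * ((S + 3 * k : ℕ) : ℝ) < ((3 + 1) * S : ℕ) := by
  obtain ⟨S, hS⟩ := exists_nat_gt (12 * k / c)
  refine ⟨S + 1, by omega, ?_⟩
  rw [div_lt_iff₀ hc] at hS
  push_cast
  have hk : (0 : ℝ) ≤ k := Nat.cast_nonneg _
  nlinarith [mul_nonneg hc.le hk]

/-- a form of slope at most `A` which is of size `N` on `[N / 16, N / 2]` -/
def Size (A N : ℕ) (f : ℤ × ℤ) : Prop :=
  f.1 ≠ 0 ∧ |f.1| ≤ A ∧ IsCoprime f.1 f.2 ∧ 5 * |f.2| ≤ 6 * (N : ℤ) ∧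
    ∀ y : ℝ, (N : ℝ) / 16 ≤ y → y ≤ N / 2 → (N : ℝ) / 30 ≤ f.1 * y + f.2

open Classical in
/-- there are many `n ≤ N` at which all forms of `s` are prime -/
def Many (N : ℕ) (η : ℝ) (s : Finset (ℤ × ℤ)) : Prop :=
  (N : ℝ) ^ (1 - η) ≤ (((Icc 1 N).filter (fun n : ℕ => ∀ f ∈ s, Pr f n)).card : ℝ)

theorem many_anti {N : ℕ} {η : ℝ} : ∀ s t : Finset (ℤ × ℤ), s ⊆ t → Many N η t → Many N η s := by
  classical
  intro s t hst h
  unfold Many at *
  refine h.trans ?_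
  rw [Nat.cast_le]
  refine card_le_card (monotone_filter_right _ ?_)
  intro n _ hn f hf
  exact hn f (hst hf)

theorem many_empty {N : ℕ} {η : ℝ} (hη : 0 < η) (hN : 1 ≤ N) : Many N η ∅ := by
  classical
  unfold Many
  have h1 : (Icc 1 N).filter (fun n : ℕ => ∀ f ∈ (∅ : Finset (ℤ × ℤ)), Pr f n) = Icc 1 N := by
    refine filter_true_of_mem ?_
    intro n _ f hf
    simp at hf
  rw [h1, Nat.card_Icc, Nat.add_sub_cancel]
  calc (N : ℝ) ^ (1 - η) ≤ (N : ℝ) ^ (1 : ℝ) :=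
        Real.rpow_le_rpow_of_exponent_le (by exact_mod_cast hN) (by linarith)
    _ = N := Real.rpow_one _

/-- the coloured theorem for injective families of forms in a set -/
theorem mtN : ∃ c : ℝ, 0 < c ∧ c < 1 ∧ ∀ T M : ℕ, 1 ≤ T → (4 - c) * M < T →
    ∃ K : ℕ, 1 ≤ K ∧ ∀ A : ℕ, ∀ η : ℝ, 0 < η → ∀ᶠ N : ℕ in atTop, ∀ V : Finset (ℤ × ℤ),
    (∀ f ∈ V, Size A N f) →
    (∀ p : ℕ, p.Prime → p ≤ T * K → ∃ r : ℤ, ∀ f ∈ V, ¬ (p : ℤ) ∣ f.1 * r + f.2) →
    ∀ X : Fin T × Fin K → ℤ × ℤ, Function.Injective X → (∀ u, X u ∈ V) →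
    ∃ (S : Finset (Fin T)) (σ : Fin T → Fin K), M + 1 ≤ S.card ∧
      Many N η (S.image (fun g => X (g, σ g))) := by
  classical
  obtain ⟨c, hc, hc1, hU⟩ := Pool.Agent.TH899.UG.Uni.exactU
  refine ⟨c, hc, hc1, fun T M hT hTM => ?_⟩
  obtain ⟨K, hK, hU⟩ := hU T M hT hTM
  refine ⟨K, hK, fun A η hη => ?_⟩
  filter_upwards [hU A η hη] with N hN V hV hloc X hX hXV
  obtain ⟨S, σ, hS, hc⟩ := hN (fun g i => (X (g, i)).1) (fun g i => (X (g, i)).2)
    (fun g i => (hV _ (hXV _)).1) (fun g i => (hV _ (hXV _)).2.1) (fun g i => (hV _ (hXV _)).2.2.2.1)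
    (fun g i => (hV _ (hXV _)).2.2.2.2) (by
      rintro ⟨g, i⟩ ⟨g', i'⟩ h
      simp only [Prod.mk.injEq] at h
      exact hX (Prod.ext h.1 h.2)) (by
      intro p hp
      by_cases hpK : p ≤ T * K
      · obtain ⟨r, hr⟩ := hloc p hp hpK
        exact ⟨r, fun g i => hr _ (hXV _)⟩
      · obtain ⟨r, hr⟩ := avoid X hp (by
          rw [Fintype.card_prod, Fintype.card_fin, Fintype.card_fin]; omega) (fun u h => by
          have h1 := (hV _ (hXV u)).2.2.1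
          have h2 := h1.isUnit_of_dvd' h.1 h.2
          exact (Nat.prime_iff_prime_int.1 hp).not_isUnit h2)
        exact ⟨r, fun g i => hr _⟩)
  refine ⟨S, σ, hS, ?_⟩
  unfold Many
  refine hc.trans ?_
  rw [Nat.cast_le]
  refine card_le_card (monotone_filter_right _ ?_)
  intro n _ hn f hf
  obtain ⟨g, hg, rfl⟩ := mem_image.1 hf
  exact hn g hg

theorem fin3 (k : ℕ) : ∃ C B : ℕ, ∀ (A : ℕ) (η : ℝ), 0 < η → ∀ᶠ N : ℕ in atTop,
    ∀ V : Finset (ℤ × ℤ), (∀ f ∈ V, Size A N f) →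
    (∀ p : ℕ, p.Prime → p ≤ B → ∃ r : ℤ, ∀ f ∈ V, ¬ (p : ℤ) ∣ f.1 * r + f.2) →
    ∃ e : Fin 3 → List (ℤ × ℤ), (∀ i, (e i).Nodup) ∧ (∀ i j, i ≠ j → List.Disjoint (e i) (e j)) ∧
      (∀ i, ∀ f ∈ e i, f ∈ V) ∧ (V.filter (fun f => ∀ i, f ∉ e i)).card ≤ C ∧
      ∀ i, ∀ w : List (ℤ × ℤ), w <:+: e i → w.length ≤ k → Many N η w.toFinset := by
  classical
  obtain ⟨c, hc, hc1, hU⟩ := mtN
  set k' := k + 1 with hk'
  obtain ⟨S, hS1, hS⟩ := blocks_choice' c hc hc1 k'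
  obtain ⟨K, hK, hU1⟩ := hU ((3 + 1) * S) (S + 3 * k') (by omega) hS
  set m : ℕ := 2 * (k' + S * K) with hm
  obtain ⟨K', hK', hU2⟩ := hU (4 * m) m (by omega) (by
    push_cast
    have : (0 : ℝ) < m := by
      have : 0 < m := by omega
      exact_mod_cast this
    nlinarith)
  refine ⟨4 * m * K', (3 + 1) * S * K + 4 * m * K', fun A η hη => ?_⟩
  filter_upwards [hU1 A η hη, hU2 A η hη, eventually_ge_atTop 1] with N hN1 hN2 hN V hV hloc
  have hMT : FMT (Many N η) V 3 k' S K := by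
    intro X hX hXV
    set e : Fin ((3 + 1) * S) ≃ Fin (3 + 1) × Fin S := finProdFinEquiv.symm with he
    obtain ⟨S', σ, hS', hgood⟩ := hN1 V hV (fun p hp hpB => hloc p hp (by omega))
      (fun u => X ((e u.1).1, (e u.1).2, u.2)) (by
        rintro ⟨g, i⟩ ⟨g', i'⟩ h
        have h1 := hX h
        simp only [Prod.mk.injEq] at h1
        have h2 : g = g' := e.injective (Prod.ext h1.1 h1.2.1)
        rw [h2, h1.2.2]) (fun u => hXV _)
    refine ⟨_, hgood, S'.image e, ?_, ?_⟩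
    · rw [card_image_of_injective _ e.injective]
      omega
    · intro b hb
      obtain ⟨g, hg, rfl⟩ := mem_image.1 hb
      exact ⟨σ g, mem_image_of_mem _ hg⟩
  have hCl : FCl (Many N η) V (4 * m * K' + 1) m := by
    intro Y hYV hY
    obtain ⟨Y', hY', hY'c⟩ := exists_subset_card_eq (le_trans (Nat.le_succ _) hY)
    set ψ : Fin (4 * m) × Fin K' ≃ Y' :=
      (finProdFinEquiv.trans (Y'.equivFinOfCardEq hY'c).symm) with hψ
    obtain ⟨S', σ, hS', hgood⟩ := hN2 V hV (fun p hp hpB => hloc p hp (by omega))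
      (fun u => (ψ u : ℤ × ℤ)) (fun u u' h => ψ.injective (Subtype.ext h))
      (fun u => hYV (hY' (ψ u).2))
    have hcard : m ≤ (S'.image (fun g => ((ψ (g, σ g) : Y') : ℤ × ℤ))).card := by
      rw [card_image_of_injective]
      · omega
      · intro g g' h
        have h1 := ψ.injective (Subtype.ext h)
        simp only [Prod.mk.injEq] at h1
        exact h1.1
    obtain ⟨Q, hQ, hQc⟩ := exists_subset_card_eq hcard
    refine ⟨Q, hQ.trans ?_, hQc, many_anti _ _ hQ hgood⟩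
    intro x hx
    obtain ⟨g, -, rfl⟩ := mem_image.1 hx
    exact hY' (ψ _).2
  obtain ⟨e, h1, h2, h3, h4, h5⟩ := finite_arrange many_anti (many_empty hη hN) (k := k') (by omega) hMT hCl
  refine ⟨e, h1, h2, h3, ?_, fun i w hw hwk => h5 i w hw (by omega)⟩
  have h6 := Nat.lt_succ_iff.1 h4
  convert h6

end Pool.Agent.Run7.h166.TS
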