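import Mathlib

/-!
# Arranging a countable set in few sequences all of whose windows are good

`good` is a property of the finite sets of natural numbers which passes to intervals of the set. It is
supposed that of any sufficiently many blocks of numbers, divided into `r + 1` groups of `S` blocks, more
than `S + r k` blocks are met by a good set (for every `k`, with blocks and groups of a suitable size). Then
all but finitely many numbers can be arranged in `r` sequences such that, for every `k`, all but finitely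
many windows of `k` successive terms are good sets. The proof uses nonprincipal ultrafilters.
-/

set_option autoImplicit false

namespace Pool.Agent.Run7.h166.TS

open Filter Finset

/-- for `U`-almost all `x 1`, for `U`-almost all `x 2`, …, the set `s ∪ {x 1, …, x k}` is good -/
def Ab (good : Finset ℕ → Prop) (U : Ultrafilter ℕ) : ℕ → Finset ℕ → Prop
  | 0, s => good s
  | k + 1, s => ∀ᶠ x in (U : Filter ℕ), Ab good U k (insert x s)

/-- good sets pass to intervals -/
def Conv (good : Finset ℕ → Prop) : Prop :=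
  ∀ s : Finset ℕ, good s → ∀ a b : ℕ, good (s.filter (fun x => a ≤ x ∧ x ≤ b))

variable {good : Finset ℕ → Prop} {U : Ultrafilter ℕ}

theorem ab_zero (s : Finset ℕ) : Ab good U 0 s ↔ good s := Iff.rfl

theorem ab_succ (k : ℕ) (s : Finset ℕ) :
    Ab good U (k + 1) s ↔ ∀ᶠ x in (U : Filter ℕ), Ab good U k (insert x s) := Iff.rfl

theorem ab_anti (hc : Conv good) (hU : (U : Filter ℕ) ≤ atTop) (k : ℕ) :
    ∀ s, Ab good U (k + 1) s → Ab good U k s := by
  induction k with
  | zero =>
    intro s h
    rw [ab_succ] at h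
    obtain ⟨x, hx1, hx2⟩ := (h.and (hU (eventually_gt_atTop (s.sup id)))).exists
    rw [ab_zero] at hx1 ⊢
    have h1 := hc _ hx1 0 (s.sup id)
    have h2 : (insert x s).filter (fun y => 0 ≤ y ∧ y ≤ s.sup id) = s := by
      ext y
      simp only [mem_filter, mem_insert]
      constructor
      · rintro ⟨h3 | h3, h4⟩
        · omega
        · exact h3
      · intro h3
        exact ⟨Or.inr h3, Nat.zero_le _, Finset.le_sup (f := id) h3⟩
    rwa [h2] at h1
  | succ k ih =>
    intro s h
    rw [ab_succ] at h ⊢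
    exact h.mono fun x hx => ih _ hx

theorem ab_le (hc : Conv good) (hU : (U : Filter ℕ) ≤ atTop) {j k : ℕ} (hjk : j ≤ k) (s : Finset ℕ)
    (h : Ab good U k s) : Ab good U j s := by
  induction hjk with
  | refl => exact h
  | step _ ih => exact ih (ab_anti hc hU _ s h)

/-- `x` is generic over the numbers up to `M`, for the first `B` iterates -/
def Gen (good : Finset ℕ → Prop) (U : Ultrafilter ℕ) (B M x : ℕ) : Prop :=
  ∀ s ∈ (range (M + 1)).powerset, ∀ j ∈ range B, (Ab good U (j + 1) s ↔ Ab good U j (insert x s))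

theorem gen_ev (B M : ℕ) : ∀ᶠ x in (U : Filter ℕ), Gen good U B M x := by
  unfold Gen
  rw [Filter.eventually_all_finset]
  intro s _
  rw [Filter.eventually_all_finset]
  intro j _
  by_cases h : Ab good U (j + 1) s
  · have h1 := (ab_succ j s).1 h
    filter_upwards [h1] with x hx
    exact ⟨fun _ => hx, fun _ => h⟩
  · have h1 : ¬ ∀ᶠ x in (U : Filter ℕ), Ab good U j (insert x s) := h
    rw [← Ultrafilter.eventually_not] at h1
    filter_upwards [h1] with x hx
    exact ⟨fun h2 => absurd h2 h, fun h2 => absurd h2 hx⟩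

theorem Gen.mono {B B' M M' x : ℕ} (h : Gen good U B M x) (hB : B' ≤ B) (hM : M' ≤ M) :
    Gen good U B' M' x := by
  intro s hs j hj
  refine h s ?_ j ?_
  · rw [mem_powerset] at hs ⊢
    exact hs.trans (range_subset_range.2 (by omega))
  · rw [mem_range] at hj ⊢
    omega

theorem ab_union {B : ℕ} (s : Finset ℕ) (P : Finset ℕ)
    (hP : ∀ p ∈ P, ∃ M, (∀ y ∈ s, y ≤ M) ∧ (∀ q ∈ P, q < p → q ≤ M) ∧ Gen good U B M p) :
    ∀ j, j + P.card ≤ B → (Ab good U (j + P.card) s ↔ Ab good U j (s ∪ P)) := by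
  classical
  induction P using Finset.induction_on_max with
  | empty => intro j _; simp
  | insert a P ha ih =>
    intro j hj
    have haP : a ∉ P := fun h => lt_irrefl _ (ha a h)
    rw [card_insert_of_notMem haP] at hj ⊢
    have h1 := ih (fun p hp => by
      obtain ⟨M, h1, h2, h3⟩ := hP p (mem_insert_of_mem hp)
      exact ⟨M, h1, fun q hq => h2 q (mem_insert_of_mem hq), h3⟩) (j + 1) (by omega)
    obtain ⟨M, h2, h3, h4⟩ := hP a (mem_insert_self _ _)
    have h5 := h4 (s ∪ P) (by
      rw [mem_powerset]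
      intro y hy
      rw [mem_range]
      rcases mem_union.1 hy with hy | hy
      · have := h2 y hy; omega
      · have := h3 y (mem_insert_of_mem hy) (ha y hy); omega) j (by rw [mem_range]; omega)
    have e1 : j + (P.card + 1) = j + 1 + P.card := by ring
    have e2 : s ∪ insert a P = insert a (s ∪ P) := by
      rw [union_insert]
    rw [e1, e2, h1, h5]

/-- choosing a sequence in sets of ultrafilters -/
theorem pick (V : ℕ → Ultrafilter ℕ) (hV : ∀ t, (V t : Filter ℕ) ≤ atTop) (Φ : ℕ → ℕ → Set ℕ)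
    (hΦ : ∀ t M, ∀ᶠ x in (V t : Filter ℕ), x ∈ Φ t M) :
    ∃ x : ℕ → ℕ, StrictMono x ∧ x 0 ∈ Φ 0 0 ∧ ∀ t, x (t + 1) ∈ Φ (t + 1) (x t) := by
  have step : ∀ t M, ∃ x, x ∈ Φ t M ∧ M < x := fun t M =>
    ((hΦ t M).and (hV t (eventually_gt_atTop M))).exists
  choose g hg1 hg2 using step
  let x : ℕ → ℕ := fun t => Nat.rec (g 0 0) (fun t y => g (t + 1) y) t
  have hx : ∀ t, x (t + 1) = g (t + 1) (x t) := fun t => rfl
  refine ⟨x, strictMono_nat_of_lt_succ fun t => ?_, hg1 0 0, fun t => ?_⟩
  · rw [hx]; exact hg2 _ _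
  · rw [hx]; exact hg1 _ _

/-- a sequence of generic elements -/
theorem pick_gen (V : ℕ → Ultrafilter ℕ) (hV : ∀ t, (V t : Filter ℕ) ≤ atTop) (B : ℕ → ℕ)
    (Φ : ℕ → Set ℕ) (hΦ : ∀ t, ∀ᶠ x in (V t : Filter ℕ), x ∈ Φ t) :
    ∃ x : ℕ → ℕ, StrictMono x ∧ (∀ t, x t ∈ Φ t) ∧
      ∀ t t' : ℕ, t' < t → Gen good (V t) (B t) (x t') (x t) := by
  obtain ⟨x, h1, h2, h3⟩ := pick V hV (fun t M => {x | x ∈ Φ t ∧ Gen good (V t) (B t) M x})
    (fun t M => (hΦ t).and (gen_ev (B t) M))
  refine ⟨x, h1, fun t => ?_, fun t t' ht => ?_⟩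
  · cases t with
    | zero => exact h2.1
    | succ t => exact (h3 t).1
  · cases t with
    | zero => omega
    | succ t =>
      exact (h3 t).2.mono le_rfl (h1.monotone (by omega))

/-- the property of the good sets: for suitable `S`, `K`, in every family of `r + 1`
groups of `S` blocks of `K` numbers `≥ n₀` a good set meets more than `S + r k` blocks -/
def MT (good : Finset ℕ → Prop) (r k : ℕ) : Prop :=
  ∃ S K n₀ : ℕ, ∀ X : Fin (r + 1) × Fin S × Fin K → ℕ, Function.Injective X →
    (∀ u, n₀ ≤ X u) → ∃ (W : Finset ℕ) (H : Finset (Fin (r + 1) × Fin S)), good W ∧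
      W ⊆ univ.image X ∧ S + r * k < H.card ∧ ∀ h ∈ H, ∃ i, X (h.1, h.2, i) ∈ W

end Pool.Agent.Run7.h166.TS
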