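import Mathlib
import Pool.Agent.Run7.h166.TS.Ultra

/-!
# Finitely many ultrafilters which absorb all but finitely many numbers
-/

set_option autoImplicit false

namespace Pool.Agent.Run7.h166.TS

open Filter Finset

variable {good : Finset ℕ → Prop} {U : Ultrafilter ℕ}

/-- the index of a place -/
def tix (r S K : ℕ) (u : Fin (r + 1) × Fin S × Fin K) : ℕ :=
  (finProdFinEquiv (u.1, finProdFinEquiv (u.2.1, u.2.2)) : Fin ((r + 1) * (S * K)))

theorem tix_inj (r S K : ℕ) : Function.Injective (tix r S K) := by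
  intro u v h
  have h1 := finProdFinEquiv.injective (Fin.ext h)
  have h2 := finProdFinEquiv.injective (Prod.ext_iff.1 h1).2
  have h3 := (Prod.ext_iff.1 h1).1
  obtain ⟨u1, u2, u3⟩ := u
  obtain ⟨v1, v2, v3⟩ := v
  have h4 : u1 = v1 := h3
  have h5 : u2 = v2 := (Prod.ext_iff.1 h2).1
  have h6 : u3 = v3 := (Prod.ext_iff.1 h2).2
  rw [h4, h5, h6]

theorem tix_lt (r S K : ℕ) (u : Fin (r + 1) × Fin S × Fin K) : tix r S K u < (r + 1) * (S * K) :=
  Fin.is_lt _

theorem tix_div (r S K : ℕ) (u : Fin (r + 1) × Fin S × Fin K) : tix r S K u / (S * K) = u.1 := by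
  have h1 : tix r S K u = ((finProdFinEquiv (u.2.1, u.2.2) : Fin (S * K)) : ℕ) + (S * K) * u.1 := rfl
  have h2 : ((finProdFinEquiv (u.2.1, u.2.2) : Fin (S * K)) : ℕ) < S * K := Fin.is_lt _
  have h3 : 0 < S * K := by omega
  rw [h1, Nat.add_mul_div_left _ _ h3, Nat.div_eq_of_lt h2, zero_add]

/-- blocks which are met have different elements in the set -/
theorem card_hits {r S K : ℕ} (X : Fin (r + 1) × Fin S × Fin K → ℕ) (hX : Function.Injective X)
    (Q : Finset ℕ) (H : Finset (Fin (r + 1) × Fin S)) (hH : ∀ h ∈ H, ∃ i, X (h.1, h.2, i) ∈ Q)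
    (p : Fin (r + 1) → Prop) (Q' : Finset ℕ)
    (hQ' : ∀ u, X u ∈ Q → p u.1 → X u ∈ Q') [DecidablePred p] :
    (H.filter (fun h => p h.1)).card ≤ Q'.card := by
  classical
  rcases isEmpty_or_nonempty (Fin K) with hK | hK
  · have h1 : H.filter (fun h => p h.1) = ∅ := by
      rw [filter_eq_empty_iff]
      intro h hh
      obtain ⟨i, -⟩ := hH h hh
      exact (hK.false i).elim
    rw [h1]
    simp
  choose! i hi using hH
  refine Finset.card_le_card_of_injOn (fun h => X (h.1, h.2, i h)) ?_ ?_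
  · intro h hh
    rw [Finset.mem_coe, mem_filter] at hh
    rw [Finset.mem_coe]
    exact hQ' _ (hi h hh.1) hh.2
  · intro h _ h' _ hhh
    have := hX hhh
    simp only [Prod.mk.injEq] at this
    exact Prod.ext this.1 this.2.1

theorem no_chain {r k : ℕ} (hc : Conv good) (hMT : MT good r k) (W : ℕ → Ultrafilter ℕ)
    (hW : ∀ g, (W g : Filter ℕ) ≤ atTop)
    (hk : ∀ g g', g < g' → g' ≤ r → ∀ᶠ v in (W g : Filter ℕ), ¬ Ab good (W g') k {v}) : False := by
  classical
  obtain ⟨S, K, n₀, hX⟩ := hMT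
  set D : ℕ := S * K with hD
  obtain ⟨x, hx1, hx2, hx3⟩ := pick_gen (good := good) (fun t => W (t / D)) (fun t => hW _)
    (fun _ => (r + 1) * D)
    (fun t => {x | n₀ ≤ x ∧ ∀ g' ∈ range (r + 1), t / D < g' → ¬ Ab good (W g') k {x}}) (fun t => by
      have h1 : ∀ᶠ x in (W (t / D) : Filter ℕ), n₀ ≤ x := hW _ (eventually_ge_atTop n₀)
      refine h1.and ?_
      rw [Filter.eventually_all_finset]
      intro g' hg'
      rw [mem_range] at hg'
      by_cases h : t / D < g'
      · filter_upwards [hk (t / D) g' h (by omega)] with v hv _ using hv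
      · exact Filter.Eventually.of_forall fun v h' => absurd h' h)
  obtain ⟨Q, H, hQ1, hQ2, hH1, hH2⟩ := hX (fun u => x (tix r S K u))
    (hx1.injective.comp (tix_inj r S K)) (fun u => (hx2 _).1)
  have hQt : ∀ y ∈ Q, ∃ t, x t = y ∧ t < (r + 1) * D := by
    intro y hy
    obtain ⟨u, -, hu⟩ := mem_image.1 (hQ2 hy)
    exact ⟨_, hu, tix_lt r S K u⟩
  set Qg : ℕ → Finset ℕ := fun g => Q.filter (fun y => ∃ t, x t = y ∧ t / D = g) with hQg
  have hQcard : Q.card ≤ (r + 1) * D := by
    have h1 : Q ⊆ (range ((r + 1) * D)).image x := by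
      intro y hy
      obtain ⟨t, ht1, ht2⟩ := hQt y hy
      exact mem_image.2 ⟨t, mem_range.2 ht2, ht1⟩
    exact (card_le_card h1).trans (card_image_le.trans (card_range _).le)
  have hlt : ∀ t t', t / D < t' / D → t < t' := by
    intro t t' h
    by_contra hcon
    exact absurd (Nat.div_le_div_right (c := D) (not_lt.1 hcon)) (by omega)
  have claim1 : ∀ g g', g < g' → g' ≤ r → (Qg g).Nonempty → k ≤ (Qg g').card → False := by
    intro g g' hgg hg'r hne hcard
    set Lo := Q.filter (fun y => ∃ t, x t = y ∧ t / D < g') with hLo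
    have hLone : Lo.Nonempty := by
      obtain ⟨y, hy⟩ := hne
      obtain ⟨hy1, t, hy2, hy3⟩ := mem_filter.1 hy
      exact ⟨y, mem_filter.2 ⟨hy1, t, hy2, by omega⟩⟩
    set v := Lo.max' hLone with hv
    obtain ⟨hvQ, tv, htv, htvD⟩ := mem_filter.1 (Lo.max'_mem hLone)
    set P := Qg g' with hP
    have hPt : ∀ p ∈ P, ∃ t, x t = p ∧ t / D = g' := fun p hp => (mem_filter.1 hp).2
    have hnot : ¬ Ab good (W g') k {v} := by
      have := (hx2 tv).2 g' (mem_range.2 (by omega)) htvD
      rwa [htv] at this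
    have hun := ab_union (good := good) (U := W g') (B := (r + 1) * D) {v} P (fun p hp => by
      obtain ⟨tp, htp, htpD⟩ := hPt p hp
      have h1 : tv < tp := hlt _ _ (by omega)
      refine ⟨x (tp - 1), ?_, ?_, ?_⟩
      · intro y hy
        rw [mem_singleton] at hy
        rw [hy, hv, ← htv]
        exact hx1.monotone (by omega)
      · intro q hq hqp
        obtain ⟨tq, htq, _⟩ := hPt q hq
        rw [← htq, ← htp] at hqp
        have := hx1.lt_iff_lt.1 hqp
        rw [← htq]
        exact hx1.monotone (by omega)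
      · have := hx3 tp (tp - 1) (by omega)
        simp only [htpD] at this
        rwa [htp] at this) 0 (by
      rw [zero_add]
      exact (card_le_card (filter_subset _ _)).trans hQcard)
    rw [zero_add, ab_zero] at hun
    have hgood : good ({v} ∪ P) := by
      have h1 := hc Q hQ1 v (max v (P.sup id))
      have h2 : Q.filter (fun y => v ≤ y ∧ y ≤ max v (P.sup id)) = {v} ∪ P := by
        ext y
        simp only [mem_filter, mem_union, mem_singleton]
        constructor
        · rintro ⟨hy1, hy2, hy3⟩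
          obtain ⟨ty, hty, -⟩ := hQt y hy1
          rcases lt_trichotomy (ty / D) g' with h | h | h
          · left
            exact le_antisymm (Lo.le_max' y (mem_filter.2 ⟨hy1, ty, hty, h⟩)) hy2
          · right
            exact mem_filter.2 ⟨hy1, ty, hty, h⟩
          · exfalso
            have h3 : v < y := by
              rw [hv, ← htv, ← hty]
              exact hx1 (hlt _ _ (by omega))
            have h4 : P.sup id < y := by
              rw [Finset.sup_lt_iff (by simpa using (Nat.zero_le v).trans_lt h3)]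
              intro p hp
              obtain ⟨tp, htp, htpD⟩ := hPt p hp
              rw [id, ← htp, ← hty]
              exact hx1 (hlt _ _ (by omega))
            exact absurd hy3 (not_le.2 (max_lt h3 h4))
        · rintro (rfl | hy)
          · exact ⟨hvQ, le_rfl, le_max_left _ _⟩
          · obtain ⟨tp, htp, htpD⟩ := hPt y hy
            refine ⟨(mem_filter.1 hy).1, ?_, le_max_of_le_right (Finset.le_sup (f := id) hy)⟩
            rw [hv, ← htv, ← htp]
            exact (hx1 (hlt _ _ (by omega))).le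
      rwa [h2] at h1
    exact hnot (ab_le hc (hW _) hcard _ (hun.2 hgood))
  -- counting
  have hHg : ∀ g : Fin (r + 1), (H.filter (fun h => h.1 = g)).card ≤ (Qg g).card := by
    intro g
    refine card_hits _ (hx1.injective.comp (tix_inj r S K)) Q H hH2 (fun a => a = g) (Qg g) ?_
    intro u hu hug
    exact mem_filter.2 ⟨hu, _, rfl, by rw [hD, tix_div, hug]⟩
  have hHS : ∀ g : Fin (r + 1), (H.filter (fun h => h.1 = g)).card ≤ S := by
    intro g
    have h1 : (H.filter (fun h => h.1 = g)).card ≤ (univ : Finset (Fin S)).card := by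
      refine Finset.card_le_card_of_injOn (fun h => h.2) (fun _ _ => mem_coe.2 (mem_univ _)) ?_
      intro h hh h' hh' e
      rw [mem_coe, mem_filter] at hh hh'
      exact Prod.ext (hh.2.trans hh'.2.symm) e
    rwa [card_univ, Fintype.card_fin] at h1
  have hHne : H.Nonempty := by
    rw [← card_pos]
    omega
  obtain ⟨h₀, hh₀⟩ := hHne
  have hex : ∃ g, (Qg g).Nonempty := by
    refine ⟨h₀.1, ?_⟩
    rw [← card_pos]
    refine lt_of_lt_of_le ?_ (hHg h₀.1)
    rw [card_pos]
    exact ⟨h₀, mem_filter.2 ⟨hh₀, rfl⟩⟩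
  obtain ⟨g₀, hg₀, hmin⟩ : ∃ g, (Qg g).Nonempty ∧ ∀ g' < g, ¬ (Qg g').Nonempty :=
    ⟨Nat.find hex, Nat.find_spec hex, fun g' h => Nat.find_min hex h⟩
  have hb : ∀ g : Fin (r + 1), (H.filter (fun h => h.1 = g)).card ≤
      (if (g : ℕ) = g₀ then S else k) := by
    intro g
    split_ifs with h
    · exact hHS g
    · rcases lt_or_gt_of_ne h with h1 | h1
      · have h2 := hmin _ h1
        rw [not_nonempty_iff_eq_empty] at h2
        have h3 := hHg g
        rw [h2, card_empty] at h3
        omega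
      · have h2 : (Qg g).card < k := by
          by_contra hcon
          exact claim1 g₀ g h1 (by omega) hg₀ (by omega)
        exact (hHg g).trans h2.le
  have hsum : H.card ≤ S + r * k := by
    rw [Finset.card_eq_sum_card_fiberwise (f := Prod.fst) (t := univ)
      (fun _ _ => mem_coe.2 (mem_univ _))]
    refine (Finset.sum_le_sum fun g _ => hb g).trans ?_
    by_cases hg : ∃ g : Fin (r + 1), (g : ℕ) = g₀
    · obtain ⟨g, hg⟩ := hg
      rw [← Finset.add_sum_erase _ _ (mem_univ g), if_pos hg]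
      refine Nat.add_le_add_left ?_ _
      refine (Finset.sum_le_card_nsmul _ _ k ?_).trans ?_
      · intro g' hg'
        rw [if_neg]
        intro h
        exact (mem_erase.1 hg').1 (Fin.ext (h.trans hg.symm))
      · rw [card_erase_of_mem (mem_univ _), card_univ, Fintype.card_fin, smul_eq_mul]
        simp
    · exfalso
      obtain ⟨y, hy⟩ := hg₀
      obtain ⟨hy1, t, ht1, ht2⟩ := mem_filter.1 hy
      obtain ⟨u, -, hu⟩ := mem_image.1 (hQ2 hy1)
      have h1 : tix r S K u = t := hx1.injective (hu.trans ht1.symm)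
      apply hg
      refine ⟨u.1, ?_⟩
      rw [← ht2, ← h1, hD, tix_div]
  omega

theorem ab_empty {r k : ℕ} (hr : 1 ≤ r) (hc : Conv good) (hMT : MT good r k)
    (hU : (U : Filter ℕ) ≤ atTop) : Ab good U k ∅ := by
  classical
  obtain ⟨S, K, n₀, hX⟩ := hMT
  obtain ⟨x, hx1, hx2, hx3⟩ := pick_gen (good := good) (fun _ => U) (fun t => hU)
    (fun _ => (r + 1) * (S * K)) (fun t => {x | n₀ ≤ x}) (fun t => hU (eventually_ge_atTop n₀))
  have hinj : Function.Injective (fun u => x (tix r S K u + 1)) := by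
    intro u v h
    have h1 := hx1.injective h
    exact tix_inj r S K (by omega)
  obtain ⟨Q, H, hQ1, hQ2, hH1, hH2⟩ := hX (fun u => x (tix r S K u + 1)) hinj (fun u => hx2 _)
  have hQt : ∀ y ∈ Q, ∃ t, x (t + 1) = y ∧ t < (r + 1) * (S * K) := by
    intro y hy
    obtain ⟨u, -, hu⟩ := mem_image.1 (hQ2 hy)
    exact ⟨_, hu, tix_lt r S K u⟩
  have hQcard : Q.card ≤ (r + 1) * (S * K) := by
    have h1 : Q ⊆ (range ((r + 1) * (S * K))).image (fun t => x (t + 1)) := by
      intro y hy
      obtain ⟨t, ht1, ht2⟩ := hQt y hy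
      exact mem_image.2 ⟨t, mem_range.2 ht2, ht1⟩
    exact (card_le_card h1).trans (card_image_le.trans (card_range _).le)
  have hun := ab_union (good := good) (U := U) (B := (r + 1) * (S * K)) ∅ Q (fun p hp => by
    obtain ⟨tp, htp, -⟩ := hQt p hp
    refine ⟨x tp, by simp, ?_, ?_⟩
    · intro q hq hqp
      obtain ⟨tq, htq, _⟩ := hQt q hq
      rw [← htq, ← htp] at hqp
      have := hx1.lt_iff_lt.1 hqp
      rw [← htq]
      exact hx1.monotone (by omega)
    · have := hx3 (tp + 1) tp (by omega)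
      rwa [htp] at this) 0 (by
    rw [zero_add]
    exact hQcard)
  rw [zero_add, ab_zero, empty_union] at hun
  have h1 := hun.2 hQ1
  refine ab_le hc hU ?_ _ h1
  have h2 := card_hits _ hinj Q H hH2 (fun _ => True) Q (fun u hu _ => hu)
  simp only [filter_true] at h2
  have h3 : k ≤ r * k := Nat.le_mul_of_pos_left k hr
  omega

/-- the limit of a set -/
theorem exists_np (E : Set ℕ) (hE : E.Infinite) :
    ∃ V : Ultrafilter ℕ, (V : Filter ℕ) ≤ atTop ∧ E ∈ V := by
  have h1 : (atTop ⊓ 𝓟 E : Filter ℕ).NeBot := by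
    rw [← Filter.frequently_mem_iff_neBot]
    exact Nat.frequently_atTop_iff_infinite.2 hE
  refine ⟨Ultrafilter.of (atTop ⊓ 𝓟 E), (Ultrafilter.of_le _).trans inf_le_left, ?_⟩
  exact (Ultrafilter.of_le (atTop ⊓ 𝓟 E)) (mem_inf_of_right (mem_principal_self E))

/-- **`r` ultrafilters absorb all but finitely many numbers, on all levels** -/
theorem cover {r : ℕ} (hr : 1 ≤ r) (hc : Conv good) (𝒦 : Set ℕ) (hMT : ∀ k ∈ 𝒦, MT good r k) :
    ∃ U : ℕ → Ultrafilter ℕ, (∀ i, (U i : Filter ℕ) ≤ atTop) ∧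
      ∀ k ∈ 𝒦, {v | ∀ i < r, ¬ Ab good (U i) k {v}}.Finite := by
  classical
  by_contra hcon
  have hcon' : ∀ U : ℕ → Ultrafilter ℕ, (∀ i, (U i : Filter ℕ) ≤ atTop) →
      ∃ k ∈ 𝒦, {v | ∀ i < r, ¬ Ab good (U i) k {v}}.Infinite := by
    intro U hU
    by_contra h
    exact hcon ⟨U, hU, fun k hk => Set.not_infinite.1 fun h2 => h ⟨k, hk, h2⟩⟩
  have key : ∀ m, m ≤ r + 1 → ∃ U : ℕ → Ultrafilter ℕ, (∀ i, (U i : Filter ℕ) ≤ atTop) ∧
      ∀ i j, i < j → j < m → ∃ k ∈ 𝒦, ∀ᶠ v in (U j : Filter ℕ), ¬ Ab good (U i) k {v} := by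
    intro m
    induction m with
    | zero =>
      intro _
      obtain ⟨V, hV, -⟩ := exists_np Set.univ Set.infinite_univ
      exact ⟨fun _ => V, fun _ => hV, fun i j _ h => absurd h (by omega)⟩
    | succ m ih =>
      intro hm
      obtain ⟨U, hU1, hU2⟩ := ih (by omega)
      obtain ⟨k, hk𝒦, hk⟩ := hcon' (fun i => if i < m then U i else U 0) (fun i => by
        split_ifs
        · exact hU1 _
        · exact hU1 _)
      have hk2 : {v | ∀ i < m, ¬ Ab good (U i) k {v}}.Infinite := by
        refine hk.mono ?_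
        intro v hv i hi
        have := hv i (by omega)
        rwa [if_pos hi] at this
      obtain ⟨V, hV1, hV2⟩ := exists_np _ hk2
      refine ⟨fun i => if i < m then U i else V, fun i => ?_, fun i j hij hj => ?_⟩
      · dsimp only
        split_ifs
        · exact hU1 _
        · exact hV1
      · dsimp only
        have him : i < m := by omega
        rw [if_pos him]
        by_cases hjm : j < m
        · rw [if_pos hjm]
          exact hU2 i j hij hjm
        · rw [if_neg hjm]
          refine ⟨k, hk𝒦, ?_⟩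
          filter_upwards [hV2] with v hv
          exact hv i him
  obtain ⟨U, hU1, hU2⟩ := key (r + 1) le_rfl
  choose! κ hκ𝒦 hκ using hU2
  set Pr : Finset (ℕ × ℕ) := ((range (r + 1)) ×ˢ (range (r + 1))).filter (fun p => p.1 < p.2) with hPr
  have hne : Pr.Nonempty := ⟨(0, 1), mem_filter.2 ⟨mem_product.2 ⟨mem_range.2 (by omega),
    mem_range.2 (by omega)⟩, by norm_num⟩⟩
  obtain ⟨p, hp, hmax⟩ := Finset.exists_max_image Pr (fun p => κ p.1 p.2) hne
  obtain ⟨hp1, hp2⟩ := mem_filter.1 hp
  refine no_chain hc (hMT _ (hκ𝒦 p.1 p.2 hp2 (mem_range.1 (mem_product.1 hp1).2)))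
    (fun g => U (r - g)) (fun g => hU1 _) ?_
  intro g g' hgg hg'
  have h1 := hκ (r - g') (r - g) (by omega) (by omega)
  have h3 := hmax (r - g', r - g) (mem_filter.2 ⟨mem_product.2 ⟨mem_range.2 (by omega),
    mem_range.2 (by omega)⟩, by show r - g' < r - g; omega⟩)
  filter_upwards [h1] with v hv h2
  exact hv (ab_le hc (hU1 _) h3 _ h2)

end Pool.Agent.Run7.h166.TS
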