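import Mathlib
import Pool.Agent.Run7.h166.TS.Cover

/-!
# The arrangement of all but finitely many numbers in `r` sequences with good windows
-/

set_option autoImplicit false

namespace Pool.Agent.Run7.h166.TS

open Filter Finset

variable {good : Finset ℕ → Prop}

theorem hub {r : ℕ} {U : ℕ → Ultrafilter ℕ} {x : ℕ → ℕ} (hx : StrictMono x)
    (hg : ∀ t t' : ℕ, t' < t → Gen good (U (t % r)) t (x t') (x t)) (i t₀ : ℕ) (s P : Finset ℕ)
    (hs : ∀ y ∈ s, y ≤ t₀) (hP : ∀ p ∈ P, ∃ t, t₀ < t ∧ t % r = i ∧ x t = p) (hcard : P.card ≤ t₀) :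
    Ab good (U i) P.card s ↔ good (s ∪ P) := by
  have h := ab_union (good := good) (U := U i) (B := t₀) s P (fun p hp => by
    obtain ⟨t, ht, hti, htp⟩ := hP p hp
    refine ⟨x (t - 1), ?_, ?_, ?_⟩
    · intro y hy
      have h1 := hs y hy
      have h2 := hx.id_le (t - 1)
      simp only [id] at h2
      omega
    · intro q hq hqp
      obtain ⟨tq, _, _, htq⟩ := hP q hq
      rw [← htq, ← htp] at hqp
      have := hx.lt_iff_lt.1 hqp
      rw [← htq]
      exact hx.monotone (by omega)
    · have h1 := hg t (t - 1) (by omega)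
      rw [hti, htp] at h1
      exact h1.mono ht.le le_rfl) 0 (by omega)
  rwa [zero_add, ab_zero] at h

open Classical in
/-- the keys of the `i`-th list -/
def Keys (A : Set ℕ) (ι : ℕ → ℕ) (i u : ℕ) : Prop :=
  u % 2 = 0 ∨ ∃ v, u = 2 * (v + 2) ^ 2 + 1 ∧ v ∈ A ∧ ι v = i

/-- the number with a given key -/
def dec (r : ℕ) (x : ℕ → ℕ) (i u : ℕ) : ℕ :=
  if u % 2 = 0 then x (r * (u / 2) + i) else Nat.sqrt (u / 2) - 2

theorem dec_even (r : ℕ) (x : ℕ → ℕ) (i j : ℕ) : dec r x i (2 * j) = x (r * j + i) := by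
  unfold dec
  rw [if_pos (by omega)]
  congr 3
  omega

theorem dec_odd (r : ℕ) (x : ℕ → ℕ) (i v : ℕ) : dec r x i (2 * (v + 2) ^ 2 + 1) = v := by
  unfold dec
  rw [if_neg (by omega)]
  have h1 : (2 * (v + 2) ^ 2 + 1) / 2 = (v + 2) * (v + 2) := by
    rw [pow_two]; omega
  rw [h1, Nat.sqrt_eq]
  omega

theorem keys_infinite (A : Set ℕ) (ι : ℕ → ℕ) (i : ℕ) : (Set.ofPred (Keys A ι i)).Infinite := by
  refine Set.infinite_of_injective_forall_mem (f := fun j : ℕ => 2 * j) ?_ ?_
  · intro a b h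
    simp only at h
    omega
  · intro j
    left
    omega

open Classical in
theorem nth_step (A : Set ℕ) (ι : ℕ → ℕ) (i n : ℕ) :
    Nat.nth (Keys A ι i) (n + 1) ≤ Nat.nth (Keys A ι i) n + 2 := by
  have hinf := keys_infinite A ι i
  set a := Nat.nth (Keys A ι i) n with ha
  have h1 : Keys A ι i a := Nat.nth_mem_of_infinite hinf n
  have h2 : Nat.count (Keys A ι i) a = n := Nat.count_nth_of_infinite hinf n
  have h3 : n + 1 < Nat.count (Keys A ι i) (a + 3) := by
    rw [Nat.count_succ, Nat.count_succ, Nat.count_succ, h2, if_pos h1]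
    by_cases he : a % 2 = 0
    · have : Keys A ι i (a + 2) := Or.inl (by omega)
      rw [if_pos this]
      omega
    · have : Keys A ι i (a + 1) := Or.inl (by omega)
      rw [if_pos this]
      omega
  have h4 := Nat.nth_lt_of_lt_count h3
  omega

theorem nth_steps (A : Set ℕ) (ι : ℕ → ℕ) (i n j : ℕ) :
    Nat.nth (Keys A ι i) (n + j) ≤ Nat.nth (Keys A ι i) n + 2 * j := by
  induction j with
  | zero => simp
  | succ j ih =>
    have := nth_step A ι i (n + j)
    rw [← add_assoc]
    omega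

/-- **The arrangement.** All but finitely many numbers can be arranged in `r` sequences `e i` such that for
every `k` in `𝒦` all but finitely many windows of `k` successive terms are good. Moreover there are `r`
infinite sequences `h i` such that for every `k` in `𝒦` all but finitely many numbers `v` form a good set
with any at most `k` terms, far enough out, of one of the sequences `h i`. -/
theorem arrange {r : ℕ} (hr : 1 ≤ r) (hc : Conv good) (𝒦 : Set ℕ) (hMT : ∀ k ∈ 𝒦, MT good r k)
    (k₀ : ℕ) (hk₀ : k₀ ∈ 𝒦) (hk₀1 : 1 ≤ k₀) :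
    (∃ h : Fin r → ℕ → ℕ, (∀ i, StrictMono (h i)) ∧
      Function.Injective (fun p : Fin r × ℕ => h p.1 p.2) ∧
      ∀ k ∈ 𝒦, {v | ∀ i, ∀ N, ∃ F : Finset ℕ, (∀ n ∈ F, N ≤ n) ∧ F.card ≤ k ∧
        ¬ good (insert v (F.image (h i)))}.Finite) ∧
    ∃ e : Fin r → ℕ → ℕ, Function.Injective (fun p : Fin r × ℕ => e p.1 p.2) ∧
      (Set.range (fun p : Fin r × ℕ => e p.1 p.2))ᶜ.Finite ∧
      ∀ k ∈ 𝒦, ∀ᶠ n in atTop, ∀ i, good ((range k).image (fun j => e i (n + j))) := by
  classical
  obtain ⟨U, hU, hfin⟩ := cover hr hc 𝒦 hMT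
  obtain ⟨x, hx, -, hgen⟩ := pick_gen (good := good) (fun t => U (t % r)) (fun t => hU _)
    (fun t => t) (fun _ => Set.univ) (fun t => Filter.univ_mem)
  have hH := @hub good r U x hx hgen
  have hxid : ∀ t, t ≤ x t := fun t => hx.id_le t
  have hmod : ∀ (i : Fin r) (j : ℕ), (r * j + i) % r = i := by
    intro i j
    rw [Nat.mul_add_mod, Nat.mod_eq_of_lt i.2]
  have hdiv : ∀ (i : Fin r) (j : ℕ), (r * j + i) / r = j := by
    intro i j
    rw [Nat.mul_add_div hr, Nat.div_eq_of_lt i.2, add_zero]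
  have hrj : ∀ (i : Fin r) (j : ℕ), j ≤ r * j + i := by
    intro i j
    have := Nat.le_mul_of_pos_left j hr
    omega
  refine ⟨⟨fun i n => x (r * n + i), ?_, ?_, ?_⟩, ?_⟩
  · intro i n n' hn
    refine hx ?_
    have := Nat.mul_lt_mul_of_pos_left hn hr
    omega
  · rintro ⟨i, n⟩ ⟨i', n'⟩ h
    have h1 := hx.injective h
    simp only at h1
    have h2 : n = n' := by rw [← hdiv i n, h1, hdiv]
    have h3 : (i : ℕ) = i' := by rw [← hmod i n, h1, hmod]
    rw [h2, Fin.ext h3]
  · intro k hk𝒦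
    refine (hfin k hk𝒦).subset ?_
    intro v hv i hi hAb
    obtain ⟨F, hF1, hF2, hF3⟩ := hv ⟨i, hi⟩ (max v k + 1)
    apply hF3
    set P := F.image (fun n => x (r * n + i)) with hP
    have hPc : P.card ≤ k := card_image_le.trans hF2
    have h1 := (hH i (max v k) {v} P (fun y hy => by
      rw [mem_singleton] at hy
      rw [hy]; exact le_max_left _ _) (fun p hp => by
      obtain ⟨n, hn, rfl⟩ := mem_image.1 hp
      refine ⟨r * n + i, ?_, hmod ⟨i, hi⟩ n, rfl⟩
      have := hF1 n hn
      have := hrj ⟨i, hi⟩ n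
      simp only at this
      omega) (hPc.trans (le_max_right _ _))).1 (ab_le hc (hU _) hPc _ hAb)
    rwa [← insert_eq] at h1
  -- the arrangement
  set κ : ℕ → ℕ := fun v =>
    Nat.findGreatest (fun k => k ∈ 𝒦 ∧ ∃ i < r, Ab good (U i) k {v}) v with hκ
  have hκle : ∀ v, κ v ≤ v := fun v => Nat.findGreatest_le _
  have hκspec : ∀ v, 1 ≤ κ v → ∃ i < r, Ab good (U i) (κ v) {v} := by
    intro v hv
    exact (Nat.findGreatest_of_ne_zero (P := fun k => k ∈ 𝒦 ∧ ∃ i < r, Ab good (U i) k {v}) rfl (by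
      have : κ v ≠ 0 := by omega
      exact this)).2
  have hκfin : ∀ k ∈ 𝒦, {v | κ v < k}.Finite := by
    intro k hk𝒦
    refine ((Set.finite_lt_nat k).union (hfin k hk𝒦)).subset ?_
    intro v hv
    by_cases h1 : v < k
    · left; exact h1
    · right
      intro i hi hAb
      have h2 : k ≤ κ v := Nat.le_findGreatest (by omega) ⟨hk𝒦, i, hi, hAb⟩
      have h3 : κ v < k := hv
      omega
  choose! ι hι1 hι2 using hκspec
  set A : Set ℕ := {v | 1 ≤ κ v ∧ v ∉ Set.range x} with hA
  have hnthmem : ∀ i n, Keys A ι i (Nat.nth (Keys A ι i) n) := fun i n =>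
    Nat.nth_mem_of_infinite (keys_infinite A ι i) n
  have hnthinj : ∀ i, StrictMono (Nat.nth (Keys A ι i)) := fun i =>
    Nat.nth_strictMono (keys_infinite A ι i)
  refine ⟨fun i n => dec r x i (Nat.nth (Keys A ι i) n), ?_, ?_, ?_⟩
  · rintro ⟨i, n⟩ ⟨i', n'⟩ h
    simp only at h
    have key : ∀ (i i' : Fin r) (u u' : ℕ), Keys A ι i u → Keys A ι i' u' →
        dec r x i u = dec r x i' u' → i = i' ∧ u = u' := by
      intro i i' u u' hu hu' h
      rcases hu with hu | ⟨v, rfl, hv1, hv2⟩ <;> rcases hu' with hu' | ⟨v', rfl, hv1', hv2'⟩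
      · obtain ⟨j, rfl⟩ : ∃ j, u = 2 * j := ⟨u / 2, by omega⟩
        obtain ⟨j', rfl⟩ : ∃ j, u' = 2 * j := ⟨u' / 2, by omega⟩
        rw [dec_even, dec_even] at h
        have h1 := hx.injective h
        have h2 : j = j' := by rw [← hdiv i j, h1, hdiv]
        have h3 : (i : ℕ) = i' := by rw [← hmod i j, h1, hmod]
        exact ⟨Fin.ext h3, by rw [h2]⟩
      · exfalso
        obtain ⟨j, rfl⟩ : ∃ j, u = 2 * j := ⟨u / 2, by omega⟩
        rw [dec_even, dec_odd] at h
        exact hv1'.2 ⟨_, h⟩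
      · exfalso
        obtain ⟨j', rfl⟩ : ∃ j, u' = 2 * j := ⟨u' / 2, by omega⟩
        rw [dec_even, dec_odd] at h
        exact hv1.2 ⟨_, h.symm⟩
      · rw [dec_odd, dec_odd] at h
        subst h
        exact ⟨Fin.ext (hv2.symm.trans hv2'), rfl⟩
    obtain ⟨h1, h2⟩ := key i i' _ _ (hnthmem _ _) (hnthmem _ _) h
    subst h1
    have h3 := (hnthinj i).injective h2
    rw [h3]
  · refine (hκfin k₀ hk₀).subset ?_
    intro v hv
    by_contra hcon
    have hv1 : 1 ≤ κ v := by
      have : ¬ κ v < k₀ := hcon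
      omega
    apply hv
    by_cases hvx : v ∈ Set.range x
    · obtain ⟨t, rfl⟩ := hvx
      have ht : t % r < r := Nat.mod_lt _ hr
      have hk1 : Keys A ι (t % r) (2 * (t / r)) := Or.inl (by omega)
      refine ⟨(⟨t % r, ht⟩, Nat.count (Keys A ι (t % r)) (2 * (t / r))), ?_⟩
      simp only
      rw [Nat.nth_count hk1, dec_even, Nat.div_add_mod]
    · have hk1 : Keys A ι (ι v) (2 * (v + 2) ^ 2 + 1) := Or.inr ⟨v, rfl, ⟨hv1, hvx⟩, rfl⟩
      refine ⟨(⟨ι v, hι1 v hv1⟩, Nat.count (Keys A ι (ι v)) (2 * (v + 2) ^ 2 + 1)), ?_⟩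
      simp only
      rw [Nat.nth_count hk1, dec_odd]
  · intro k hk𝒦
    obtain ⟨M, hM⟩ := (hκfin k hk𝒦).bddAbove
    have hM' : ∀ v, M < v → k ≤ κ v := by
      intro v hv
      by_contra hcon
      have := hM (show v ∈ {v | κ v < k} by
        have : κ v < k := by omega
        exact this)
      omega
    filter_upwards [eventually_gt_atTop (2 * (M + 2) ^ 2 + 1 + 2 * k)] with n hn i
    set a : ℕ := Nat.nth (Keys A ι i) n with ha
    have hna : n ≤ a := (hnthinj i).id_le n
    have hle : ∀ j, j < k → a ≤ Nat.nth (Keys A ι i) (n + j) ∧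
        Nat.nth (Keys A ι i) (n + j) ≤ a + 2 * k := by
      intro j hj
      refine ⟨(hnthinj i).monotone (by omega), ?_⟩
      have := nth_steps A ι i n j
      omega
    set P : Finset ℕ := ((range k).filter (fun j => Nat.nth (Keys A ι i) (n + j) % 2 = 0)).image
      (fun j => dec r x i (Nat.nth (Keys A ι i) (n + j))) with hP
    have hPc : P.card ≤ k := by
      refine card_image_le.trans ((card_filter_le _ _).trans (card_range k).le)
    have hPt : ∀ p ∈ P, ∃ t, a ≤ 2 * t ∧ t % r = i ∧ x t = p := by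
      intro p hp
      obtain ⟨j, hj, rfl⟩ := mem_image.1 hp
      obtain ⟨hj1, hj2⟩ := mem_filter.1 hj
      obtain ⟨l, hl⟩ : ∃ l, Nat.nth (Keys A ι i) (n + j) = 2 * l :=
        ⟨Nat.nth (Keys A ι i) (n + j) / 2, by omega⟩
      have h1 := (hle j (mem_range.1 hj1)).1
      rw [hl] at h1
      refine ⟨r * l + i, ?_, hmod i l, ?_⟩
      · have := hrj i l
        omega
      · rw [hl, dec_even]
    by_cases hodd : ∃ j < k, Nat.nth (Keys A ι i) (n + j) % 2 ≠ 0
    · obtain ⟨j₀, hj₀, hj₀2⟩ := hodd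
      obtain ⟨v, hv1, hv2, hv3⟩ := (hnthmem i (n + j₀)).resolve_left hj₀2
      have hb := hle j₀ hj₀
      rw [hv1] at hb
      have hvM : M < v := by
        by_contra hcon
        have h1 : (v + 2) ^ 2 ≤ (M + 2) ^ 2 := Nat.pow_le_pow_left (by omega) 2
        omega
      have hkv : k ≤ κ v := hM' v hvM
      have hkv2 : k ≤ v := hkv.trans (hκle v)
      have hW : (range k).image (fun j => dec r x i (Nat.nth (Keys A ι i) (n + j))) = {v} ∪ P := by
        ext y
        simp only [mem_union, mem_singleton]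
        constructor
        · intro hy
          obtain ⟨j, hj, rfl⟩ := mem_image.1 hy
          by_cases he : Nat.nth (Keys A ι i) (n + j) % 2 = 0
          · right
            exact mem_image.2 ⟨j, mem_filter.2 ⟨hj, he⟩, rfl⟩
          · left
            obtain ⟨v', hv1', hv2', hv3'⟩ := (hnthmem i (n + j)).resolve_left he
            have hb' := hle j (mem_range.1 hj)
            rw [hv1'] at hb'
            rw [hv1', dec_odd]
            by_contra hne
            rcases lt_or_gt_of_ne hne with h | h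
            · have h1 : (v' + 3) ^ 2 ≤ (v + 2) ^ 2 := Nat.pow_le_pow_left (by omega) 2
              have hv'M : M < v' := by
                by_contra hcon
                have h1 : (v' + 2) ^ 2 ≤ (M + 2) ^ 2 := Nat.pow_le_pow_left (by omega) 2
                omega
              have h3 : k ≤ v' := (hM' v' hv'M).trans (hκle v')
              nlinarith
            · have h1 : (v + 3) ^ 2 ≤ (v' + 2) ^ 2 := Nat.pow_le_pow_left (by omega) 2
              nlinarith
        · rintro (rfl | hy)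
          · refine mem_image.2 ⟨j₀, mem_range.2 hj₀, ?_⟩
            rw [hv1, dec_odd]
          · obtain ⟨j, hj, rfl⟩ := mem_image.1 hy
            exact mem_image.2 ⟨j, (mem_filter.1 hj).1, rfl⟩
      rw [hW]
      refine (hH i (max v k) {v} P (fun y hy => by
        rw [mem_singleton] at hy
        rw [hy]; exact le_max_left _ _) (fun p hp => by
        obtain ⟨t, ht1, ht2, ht3⟩ := hPt p hp
        refine ⟨t, ?_, ht2, ht3⟩
        have h4 : (v + 2) ^ 2 = v * v + 4 * v + 4 := by ring
        have h5 : v * 1 ≤ v * v + 1 := by nlinarith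
        rw [max_eq_left hkv2]
        have h6 := hb.2
        rw [h4] at h6
        nlinarith) (hPc.trans (le_max_right _ _))).1 ?_
      refine ab_le hc (hU _) (hPc.trans hkv) _ ?_
      rw [← hv3]
      exact hι2 v hv2.1
    · push Not at hodd
      have hW : (range k).image (fun j => dec r x i (Nat.nth (Keys A ι i) (n + j))) = ∅ ∪ P := by
        rw [empty_union, hP]
        congr 1
        ext j
        simp only [mem_filter, mem_range]
        exact ⟨fun h => ⟨h, hodd j h⟩, fun h => h.1⟩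
      rw [hW]
      refine (hH i k ∅ P (by simp) (fun p hp => by
        obtain ⟨t, ht1, ht2, ht3⟩ := hPt p hp
        exact ⟨t, by omega, ht2, ht3⟩) hPc).1 ?_
      exact ab_le hc (hU _) hPc _ (ab_empty hr hc (hMT k hk𝒦) (hU _))

end Pool.Agent.Run7.h166.TS
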