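import Mathlib
import Pool.Agent.TH899.UG.ExU
import Pool.Agent.Run7.h166.TS.ClassSel

/-!
# The coloured Maynard-Tao theorem above one quarter, with exact patterns of primes
-/

set_option autoImplicit false

namespace Pool.Agent.Run7.h166.TS

open Filter Finset

theorem growth {η : ℝ} (hη : 0 < η) (hη1 : η ≤ 1) (Q ρ m₀ P : ℕ) (hQ : 1 ≤ Q) :
    ∀ᶠ N : ℕ in atTop, ρ ≤ N ∧ (P : ℝ) * (N : ℝ) ^ (1 - η) + m₀ ≤
      (((N - ρ) / Q : ℕ) : ℝ) ^ (1 - η / 2) := by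
  have h1 : ∀ᶠ N : ℕ in atTop, (2 * Q : ℝ) * (P + m₀) ≤ (N : ℝ) ^ (η / 2) :=
    ((tendsto_rpow_atTop (by positivity)).comp tendsto_natCast_atTop_atTop).eventually_ge_atTop _
  filter_upwards [h1, eventually_ge_atTop (2 * (Q + ρ) + 2), eventually_ge_atTop ρ] with N hN1 hN2 hN3
  refine ⟨hN3, ?_⟩
  have hQ0 : 0 < Q := hQ
  have hQr : (1 : ℝ) ≤ Q := by exact_mod_cast hQ
  have hNr : (1 : ℝ) ≤ N := by
    have : 1 ≤ N := by omega
    exact_mod_cast this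
  have hN' : (N : ℝ) / (2 * Q) ≤ (((N - ρ) / Q : ℕ) : ℝ) := by
    have h2 : N - ρ < Q * ((N - ρ) / Q + 1) := by
      have := Nat.lt_mul_div_succ (N - ρ) hQ0
      exact this
    have h3 : ((N - ρ : ℕ) : ℝ) < Q * ((((N - ρ) / Q : ℕ) : ℝ) + 1) := by exact_mod_cast h2
    rw [Nat.cast_sub hN3] at h3
    have h4 : (2 * ((Q : ℝ) + ρ) + 2) ≤ N := by exact_mod_cast hN2
    rw [div_le_iff₀ (by positivity)]
    nlinarith
  have h2 : ((N : ℝ) / (2 * Q)) ^ (1 - η / 2) ≤ (((N - ρ) / Q : ℕ) : ℝ) ^ (1 - η / 2) :=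
    Real.rpow_le_rpow (by positivity) hN' (by linarith)
  refine le_trans ?_ h2
  have h3 : (N : ℝ) ^ (1 - η / 2) / (2 * Q) ≤ ((N : ℝ) / (2 * Q)) ^ (1 - η / 2) := by
    rw [Real.div_rpow (by positivity) (by positivity)]
    refine div_le_div_of_nonneg_left (by positivity) (by positivity) ?_
    calc (2 * (Q : ℝ)) ^ (1 - η / 2) ≤ (2 * (Q : ℝ)) ^ (1 : ℝ) :=
          Real.rpow_le_rpow_of_exponent_le (by linarith) (by linarith)
      _ = 2 * Q := Real.rpow_one _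
  refine le_trans ?_ h3
  have h4 : (N : ℝ) ^ (1 - η / 2) = (N : ℝ) ^ (1 - η) * (N : ℝ) ^ (η / 2) := by
    rw [← Real.rpow_add (by linarith)]
    congr 1
    ring
  have h5 : 1 ≤ (N : ℝ) ^ (1 - η) := Real.one_le_rpow hNr (by linarith)
  rw [h4, le_div_iff₀ (by positivity)]
  have h6 : (N : ℝ) ^ (1 - η) * ((2 * Q : ℝ) * (P + m₀)) ≤ (N : ℝ) ^ (1 - η) * (N : ℝ) ^ (η / 2) :=
    mul_le_mul_of_nonneg_left hN1 (by positivity)
  refine le_trans ?_ h6
  have h7 : (m₀ : ℝ) ≤ (N : ℝ) ^ (1 - η) * m₀ := by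
    have : (0 : ℝ) ≤ m₀ := Nat.cast_nonneg _
    nlinarith
  have h8 : (P * (N : ℝ) ^ (1 - η) + m₀) ≤ (N : ℝ) ^ (1 - η) * (P + m₀) := by linarith
  calc (P * (N : ℝ) ^ (1 - η) + m₀) * (2 * Q) ≤ (N : ℝ) ^ (1 - η) * (P + m₀) * (2 * Q) :=
        mul_le_mul_of_nonneg_right h8 (by positivity)
    _ = _ := by ring

open Classical in
/-- **The coloured Maynard-Tao theorem above one quarter with exact patterns.** -/
theorem exactE : ∃ c : ℝ, 0 < c ∧ c < 1 ∧ ∀ T M : ℕ, 1 ≤ T → (4 - c) * M < T →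
    ∃ K : ℕ, 1 ≤ K ∧ ∀ H : Fin T × Fin K → ℤ × ℤ, Function.Injective H → (∀ u, 1 ≤ (H u).1) →
      (∀ u, IsCoprime (H u).1 (H u).2) →
      (∀ p : ℕ, p.Prime → p ≤ T * K → ∃ r : ℤ, ∀ u, ¬ (p : ℤ) ∣ (H u).1 * r + (H u).2) →
      ∀ Z : Finset (ℤ × ℤ), (∀ z ∈ Z, 1 ≤ z.1 ∧ ∀ u, z ≠ H u) → ∀ η : ℝ, 0 < η →
      ∀ᶠ N : ℕ in atTop, ∃ W : Finset (Fin T × Fin K), M + 1 ≤ (W.image Prod.fst).card ∧
        (N : ℝ) ^ (1 - η) ≤ (((Icc 1 N).filter (fun n : ℕ =>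
          (∀ u, Pr (H u) n ↔ u ∈ W) ∧ ∀ z ∈ Z, ¬ Pr z n)).card : ℝ) := by
  obtain ⟨c, hc, hc1, hU⟩ := Pool.Agent.TH899.UG.Uni.exactU
  refine ⟨c, hc, hc1, fun T M hT hTM => ?_⟩
  obtain ⟨K, hK, hU⟩ := hU T M hT hTM
  refine ⟨K, hK, fun H hinj h1 hcop hloc Z hZ η₀ hη₀ => ?_⟩
  -- the exponent
  set η : ℝ := min η₀ 1 with hη
  have hη0 : 0 < η := lt_min hη₀ one_pos
  have hη1 : η ≤ 1 := min_le_right _ _
  have hηη : η ≤ η₀ := min_le_left _ _
  obtain ⟨Q, ρ, m₀, hQ, hadm, hcomp⟩ := class_sel H h1 hcop (fun p hp hpc => by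
    refine hloc p hp ?_
    rwa [Fintype.card_prod, Fintype.card_fin, Fintype.card_fin] at hpc) Z hZ
  set A : ℕ := ∑ u, ((H u).1 * Q).natAbs with hA
  set B : ℕ := ∑ u, ((H u).1 * ρ + (H u).2).natAbs with hB
  have hev := hU A (η / 2) (by positivity)
  have hev2 : ∀ᶠ N' : ℕ in atTop, ∃ (S : Finset (Fin T)) (σ : Fin T → Fin K), M + 1 ≤ S.card ∧
        (N' : ℝ) ^ (1 - η / 2) ≤ (((Icc 1 N').filter (fun n : ℕ =>
          ∀ g ∈ S, ((H (g, σ g)).1 * Q * n + ((H (g, σ g)).1 * ρ + (H (g, σ g)).2)).toNat.Prime)).card : ℝ) := by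
    filter_upwards [hev, eventually_ge_atTop (35 * B)] with N' hN' hNB
    refine hN' (fun g i => (H (g, i)).1 * Q) (fun g i => (H (g, i)).1 * ρ + (H (g, i)).2) ?_ ?_ ?_ ?_ ?_ ?_
    · intro g i
      have := h1 (g, i)
      have hQ' : (0 : ℤ) < Q := by exact_mod_cast hQ
      positivity
    · intro g i
      have h2 := Finset.single_le_sum (f := fun u => ((H u).1 * Q).natAbs)
        (fun _ _ => Nat.zero_le _) (mem_univ (g, i))
      have h3 : ((((H (g, i)).1 * Q).natAbs : ℕ) : ℤ) ≤ A := by exact_mod_cast h2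
      rwa [Int.natCast_natAbs] at h3
    · intro g i
      have h2 := Finset.single_le_sum (f := fun u => ((H u).1 * ρ + (H u).2).natAbs)
        (fun _ _ => Nat.zero_le _) (mem_univ (g, i))
      have h3 : ((((H (g, i)).1 * ρ + (H (g, i)).2).natAbs : ℕ) : ℤ) ≤ B := by exact_mod_cast h2
      rw [Int.natCast_natAbs] at h3
      have h4 : (35 * B : ℤ) ≤ N' := by exact_mod_cast hNB
      have h5 : (0 : ℤ) ≤ B := Nat.cast_nonneg _
      linarith
    · intro g i y hy1 hy2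
      have h2 := Finset.single_le_sum (f := fun u => ((H u).1 * ρ + (H u).2).natAbs)
        (fun _ _ => Nat.zero_le _) (mem_univ (g, i))
      have h3 : ((((H (g, i)).1 * ρ + (H (g, i)).2).natAbs : ℕ) : ℤ) ≤ B := by exact_mod_cast h2
      rw [Int.natCast_natAbs] at h3
      have h4 : (35 * B : ℝ) ≤ N' := by exact_mod_cast hNB
      have h5 : -(B : ℤ) ≤ (H (g, i)).1 * ρ + (H (g, i)).2 := by
        have := neg_abs_le ((H (g, i)).1 * ρ + (H (g, i)).2)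
        linarith
      have h6 : -(B : ℝ) ≤ (((H (g, i)).1 * ρ + (H (g, i)).2 : ℤ) : ℝ) := by exact_mod_cast h5
      have h7 : (1 : ℝ) ≤ (((H (g, i)).1 * Q : ℤ) : ℝ) := by
        have h8 : 1 * 1 ≤ (H (g, i)).1 * (Q : ℤ) :=
          mul_le_mul (h1 _) (by exact_mod_cast hQ) (by norm_num) (by have := h1 (g, i); omega)
        have h9 : (1 : ℤ) ≤ (H (g, i)).1 * (Q : ℤ) := by linarith
        exact_mod_cast h9
      have hN0 : (0 : ℝ) ≤ N' := Nat.cast_nonneg _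
      have hy0 : 0 ≤ y := by linarith [div_nonneg hN0 (by norm_num : (0 : ℝ) ≤ 16)]
      have h8 : y ≤ (((H (g, i)).1 * Q : ℤ) : ℝ) * y := by nlinarith
      show (N' : ℝ) / 30 ≤ (((H (g, i)).1 * Q : ℤ) : ℝ) * y + (((H (g, i)).1 * ρ + (H (g, i)).2 : ℤ) : ℝ)
      linarith
    · rintro ⟨g, i⟩ ⟨g', i'⟩ h
      simp only [Prod.mk.injEq] at h
      have hQ' : (Q : ℤ) ≠ 0 := by
        have : (0 : ℤ) < Q := by exact_mod_cast hQ
        exact this.ne'
      have h2 : (H (g, i)).1 = (H (g', i')).1 := mul_right_cancel₀ hQ' h.1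
      have h3 : (H (g, i)).2 = (H (g', i')).2 := by
        have := h.2
        rw [h2] at this
        linarith
      exact hinj (Prod.ext h2 h3)
    · intro p hp
      obtain ⟨n, hn⟩ := hadm p hp
      exact ⟨n, fun g i => hn (g, i)⟩
  have htend : Tendsto (fun N : ℕ => (N - ρ) / Q) atTop atTop := by
    rw [tendsto_atTop_atTop]
    intro b
    refine ⟨Q * b + ρ, fun a ha => ?_⟩
    rw [Nat.le_div_iff_mul_le hQ]
    have : b * Q = Q * b := mul_comm _ _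
    omega
  set P : ℕ := (univ : Finset (Finset (Fin T × Fin K))).card with hP
  filter_upwards [htend.eventually hev2, growth hη0 hη1 Q ρ (m₀ + 1) P hQ,
    eventually_ge_atTop 1] with N hN1 hN2 hN3
  obtain ⟨S, σ, hS, hcard⟩ := hN1
  obtain ⟨hρN, hgr⟩ := hN2
  set N' : ℕ := (N - ρ) / Q with hN'
  set Ms : Finset ℕ := ((Icc 1 N').filter (fun n : ℕ =>
          ∀ g ∈ S, ((H (g, σ g)).1 * Q * n + ((H (g, σ g)).1 * ρ + (H (g, σ g)).2)).toNat.Prime)) with hMs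
  set Ms' : Finset ℕ := Ms.filter (fun m => m₀ ≤ m) with hMs'
  have hMc : (Ms.card : ℝ) ≤ Ms'.card + m₀ := by
    have h2 : Ms ⊆ Ms' ∪ range m₀ := by
      intro m hm
      by_cases h : m₀ ≤ m
      · exact mem_union_left _ (mem_filter.2 ⟨hm, h⟩)
      · exact mem_union_right _ (mem_range.2 (by omega))
    have h3 := (card_le_card h2).trans (card_union_le _ _)
    rw [card_range] at h3
    exact_mod_cast h3
  set w : ℕ → Finset (Fin T × Fin K) := fun m => univ.filter (fun u => Pr (H u) (Q * m + ρ)) with hw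
  have hbig : (P : ℝ) * (N : ℝ) ^ (1 - η) + 1 ≤ Ms'.card := by
    have h2 : ((m₀ + 1 : ℕ) : ℝ) = m₀ + 1 := by push_cast; ring
    rw [h2] at hgr
    linarith
  have hP1 : 1 ≤ P := card_pos.2 ⟨∅, mem_univ _⟩
  have hpos : 0 ≤ (N : ℝ) ^ (1 - η) := Real.rpow_nonneg (Nat.cast_nonneg _) _
  have hmaps : ∀ m ∈ Ms', w m ∈ univ.filter (fun W : Finset (Fin T × Fin K) =>
      M + 1 ≤ (W.image Prod.fst).card) := by
    intro m hm
    refine mem_filter.2 ⟨mem_univ _, hS.trans (card_le_card ?_)⟩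
    intro g hg
    have h2 := (mem_filter.1 (mem_filter.1 hm).1).2 g hg
    refine mem_image.2 ⟨(g, σ g), mem_filter.2 ⟨mem_univ _, ?_⟩, rfl⟩
    unfold Pr
    have h3 : (H (g, σ g)).1 * ((Q * m + ρ : ℕ) : ℤ) + (H (g, σ g)).2 =
        (H (g, σ g)).1 * Q * m + ((H (g, σ g)).1 * ρ + (H (g, σ g)).2) := by
      push_cast; ring
    rw [h3]
    exact h2
  have hMsne : Ms'.Nonempty := by
    rw [← card_pos]
    have h2 : (0 : ℝ) < Ms'.card := by
      have : 0 ≤ (P : ℝ) * (N : ℝ) ^ (1 - η) := by positivity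
      linarith
    exact_mod_cast h2
  obtain ⟨W, hW1, hW2⟩ := Finset.exists_le_card_fiber_of_nsmul_le_card_of_maps_to
    (s := Ms') (t := univ.filter (fun W : Finset (Fin T × Fin K) => M + 1 ≤ (W.image Prod.fst).card))
    (f := w) (b := (N : ℝ) ^ (1 - η)) hmaps
    (by obtain ⟨m, hm⟩ := hMsne; exact ⟨_, hmaps m hm⟩) (by
      rw [nsmul_eq_mul]
      have h2 : (((univ.filter (fun W : Finset (Fin T × Fin K) =>
        M + 1 ≤ (W.image Prod.fst).card)).card : ℕ) : ℝ) ≤ P := by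
        exact_mod_cast card_filter_le _ _
      have h3 := mul_le_mul_of_nonneg_right h2 hpos
      linarith)
  refine ⟨W, (mem_filter.1 hW1).2, ?_⟩
  have h2 : (N : ℝ) ^ (1 - η₀) ≤ (N : ℝ) ^ (1 - η) :=
    Real.rpow_le_rpow_of_exponent_le (by exact_mod_cast hN3) (by linarith)
  refine h2.trans (hW2.trans ?_)
  rw [Nat.cast_le]
  refine Finset.card_le_card_of_injOn (fun m => Q * m + ρ) ?_ ?_
  · intro m hm
    rw [mem_coe, mem_filter] at hm
    obtain ⟨hm1, hm2⟩ := hm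
    obtain ⟨hm3, hm4⟩ := mem_filter.1 hm1
    obtain ⟨hm5, hm6⟩ := mem_filter.1 hm3
    obtain ⟨hm7, hm8⟩ := mem_Icc.1 hm5
    rw [mem_coe, mem_filter, mem_Icc]
    refine ⟨⟨?_, ?_⟩, ?_, ?_⟩
    · show 1 ≤ Q * m + ρ
      have : 1 * 1 ≤ Q * m := Nat.mul_le_mul hQ hm7
      omega
    · show Q * m + ρ ≤ N
      have h3 : Q * m ≤ Q * N' := Nat.mul_le_mul_left _ hm8
      have h4 : Q * N' ≤ N - ρ := Nat.mul_div_le _ _
      omega
    · intro u
      rw [← hm2]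
      simp only [hw, mem_filter, mem_univ, true_and]
    · intro z hz
      exact hcomp m hm4 z hz
  · intro m _ m' _ h
    simp only at h
    have h3 : Q * m = Q * m' := by omega
    exact Nat.eq_of_mul_eq_mul_left hQ h3

end Pool.Agent.Run7.h166.TS
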