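import Mathlib
import Pool.Agent.Run7.h166.TS.Exact
import Pool.Agent.Run7.h166.TS.Arrange

/-!
# Three sequences of linear forms, three sequences of integers
-/

set_option autoImplicit false

namespace Pool.Agent.Run7.h166.TS

open Filter Finset

open Classical in
/-- the numbers with the exact pattern `W` -/
noncomputable def Pts {T K : ℕ} (H : Fin T × Fin K → ℤ × ℤ) (W : Finset (Fin T × Fin K))
    (Z : Finset (ℤ × ℤ)) (N : ℕ) : Finset ℕ :=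
  (Icc 1 N).filter (fun n : ℕ => (∀ u, Pr (H u) n ↔ u ∈ W) ∧ ∀ z ∈ Z, ¬ Pr z n)

open Classical in
theorem exactInf : ∃ c : ℝ, 0 < c ∧ c < 1 ∧ ∀ T M : ℕ, 1 ≤ T → (4 - c) * M < T →
    ∃ K : ℕ, 1 ≤ K ∧ ∀ H : Fin T × Fin K → ℤ × ℤ, Function.Injective H → (∀ u, 1 ≤ (H u).1) →
      (∀ u, IsCoprime (H u).1 (H u).2) →
      (∀ p : ℕ, p.Prime → p ≤ T * K → ∃ r : ℤ, ∀ u, ¬ (p : ℤ) ∣ (H u).1 * r + (H u).2) →
      ∀ Z : ℕ → Finset (ℤ × ℤ), (∀ m, ∀ z ∈ Z m, 1 ≤ z.1 ∧ ∀ u, z ≠ H u) →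
      ∃ W : Finset (Fin T × Fin K), M + 1 ≤ (W.image Prod.fst).card ∧
        ∃ᶠ m : ℕ in atTop, ∃ᶠ N : ℕ in atTop,
          (N : ℝ) ^ (1 - 1 / ((m : ℝ) + 1)) ≤ ((Pts H W (Z m) N).card : ℝ) := by
  obtain ⟨c, hc, hc1, hU⟩ := exactE
  refine ⟨c, hc, hc1, fun T M hT hTM => ?_⟩
  obtain ⟨K, hK, hU⟩ := hU T M hT hTM
  refine ⟨K, hK, fun H hinj h1 hcop hloc Z hZ => ?_⟩
  by_contra hcon
  push Not at hcon
  have h2 : ∀ W : Finset (Fin T × Fin K), ∀ᶠ m : ℕ in atTop, M + 1 ≤ (W.image Prod.fst).card →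
      ∀ᶠ N : ℕ in atTop,
        ((Pts H W (Z m) N).card : ℝ) < (N : ℝ) ^ (1 - 1 / ((m : ℝ) + 1)) := by
    intro W
    by_cases hW : M + 1 ≤ (W.image Prod.fst).card
    · filter_upwards [hcon W hW] with m hm _ using hm
    · exact Eventually.of_forall fun m h => absurd h hW
  obtain ⟨m, hm⟩ := (eventually_all.2 h2).exists
  have h3 : ∀ W : Finset (Fin T × Fin K), ∀ᶠ N : ℕ in atTop, M + 1 ≤ (W.image Prod.fst).card →
        ((Pts H W (Z m) N).card : ℝ) < (N : ℝ) ^ (1 - 1 / ((m : ℝ) + 1)) := by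
    intro W
    by_cases hW : M + 1 ≤ (W.image Prod.fst).card
    · filter_upwards [hm W hW] with m hm _ using hm
    · exact Eventually.of_forall fun m h => absurd h hW
  have h4 := hU H hinj h1 hcop hloc (Z m) (hZ m) (1 / ((m : ℝ) + 1)) (by positivity)
  obtain ⟨N, hN1, hN2⟩ := ((eventually_all.2 h3).and h4).exists
  obtain ⟨W, hW1, hW2⟩ := hN2
  have h5 := hN1 W hW1
  unfold Pts at h5
  linarith

/-- the choice of the number of blocks -/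
theorem blocks_choice (c : ℝ) (hc : 0 < c) (hc1 : c < 1) (k : ℕ) :
    ∃ S : ℕ, 1 ≤ S ∧ (4 - c) * ((S + 3 * k : ℕ) : ℝ) < ((3 + 1) * S : ℕ) := by
  obtain ⟨S, hS⟩ := exists_nat_gt (12 * k / c)
  refine ⟨S + 1, by omega, ?_⟩
  rw [div_lt_iff₀ hc] at hS
  push_cast
  have hk : (0 : ℝ) ≤ k := Nat.cast_nonneg _
  nlinarith [mul_nonneg hc.le hk]

/-- the members of the family, apart from finitely many, avoid a class modulo each prime up to `B` -/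
def Adm (f : ℕ → ℤ × ℤ) (B : ℕ) : Prop :=
  ∀ p : ℕ, p.Prime → p ≤ B → ∃ r : ℤ, ∀ᶠ n in atTop, ¬ (p : ℤ) ∣ (f n).1 * r + (f n).2

/-- **the abstract hypothesis holds for properties which follow from exact patterns** -/
theorem mt_of : ∃ B : ℕ → ℕ, ∀ (k : ℕ) (f : ℕ → ℤ × ℤ), Function.Injective f → (∀ n, 1 ≤ (f n).1) →
    (∀ n, IsCoprime (f n).1 (f n).2) → Adm f (B k) →
    ∀ (good : Finset ℕ → Prop) (Z : Finset ℕ → ℕ → Finset (ℤ × ℤ)),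
    (∀ (X : Finset ℕ) (m : ℕ), ∀ z ∈ Z X m, 1 ≤ z.1 ∧ ∀ i ∈ X, z ≠ f i) →
    (∀ (X s : Finset ℕ), s ⊆ X →
      (∃ᶠ m : ℕ in atTop, ∃ᶠ N : ℕ in atTop, ∃ Y : Finset ℕ,
        (∀ n ∈ Y, 1 ≤ n ∧ n ≤ N ∧ (∀ i ∈ X, Pr (f i) n ↔ i ∈ s) ∧ ∀ z ∈ Z X m, ¬ Pr z n) ∧
        (N : ℝ) ^ (1 - 1 / ((m : ℝ) + 1)) ≤ (Y.card : ℝ)) → good s) → MT good 3 k := by
  classical
  obtain ⟨c, hc, hc1, hU⟩ := exactInf
  choose S hS1 hS using blocks_choice c hc hc1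
  choose K hK hU using fun k => hU ((3 + 1) * S k) (S k + 3 * k) (by have := hS1 k; omega) (hS k)
  refine ⟨fun k => (3 + 1) * S k * K k, fun k f hf hf1 hf2 hadm good Z hZ hgood => ?_⟩
  -- the local conditions
  obtain ⟨n₀, hn₀⟩ : ∃ n₀ : ℕ, ∀ p : ℕ, p.Prime → p ≤ (3 + 1) * S k * K k → ∃ r : ℤ, ∀ n, n₀ ≤ n →
      ¬ (p : ℤ) ∣ (f n).1 * r + (f n).2 := by
    choose! r hr using hadm
    have h1 : ∀ᶠ n in atTop, ∀ p ∈ (range ((3 + 1) * S k * K k + 1)).filter Nat.Prime,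
        ¬ (p : ℤ) ∣ (f n).1 * r p + (f n).2 := by
      rw [Filter.eventually_all_finset]
      intro p hp
      obtain ⟨h1, h2⟩ := mem_filter.1 hp
      exact hr p h2 (by
        show p ≤ (3 + 1) * S k * K k
        have := mem_range.1 h1
        omega)
    obtain ⟨n₀, hn₀⟩ := eventually_atTop.1 h1
    exact ⟨n₀, fun p hp hpS => ⟨r p, fun n hn => hn₀ n hn p (mem_filter.2
      ⟨mem_range.2 (by omega), hp⟩)⟩⟩
  refine ⟨S k, K k, n₀, fun X hX hXn => ?_⟩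
  set e : Fin ((3 + 1) * S k) ≃ Fin (3 + 1) × Fin (S k) := finProdFinEquiv.symm with he
  set ix : Fin ((3 + 1) * S k) × Fin (K k) → ℕ := fun u => X ((e u.1).1, (e u.1).2, u.2) with hix
  have hixinj : Function.Injective ix := by
    rintro ⟨g, i⟩ ⟨g', i'⟩ h
    have h1 := hX h
    simp only [Prod.mk.injEq] at h1
    have h2 : g = g' := e.injective (Prod.ext h1.1 h1.2.1)
    rw [h2, h1.2.2]
  have hix0 : ∀ u, n₀ ≤ ix u := fun u => hXn _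
  obtain ⟨W, hW1, hW2⟩ := hU k (fun u => f (ix u)) (hf.comp hixinj) (fun u => hf1 _) (fun u => hf2 _)
    (fun p hp hpS => by
      obtain ⟨r, hr⟩ := hn₀ p hp hpS
      exact ⟨r, fun u => hr _ (hix0 u)⟩) (Z (univ.image ix)) (fun m z hz => by
      obtain ⟨h1, h2⟩ := hZ (univ.image ix) m z hz
      exact ⟨h1, fun u => h2 _ (mem_image_of_mem _ (mem_univ _))⟩)
  have hsub : W.image ix ⊆ univ.image ix := image_subset_image (subset_univ _)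
  refine ⟨W.image ix, (W.image Prod.fst).image e, ?_, ?_, ?_, ?_⟩
  · refine hgood (univ.image ix) (W.image ix) hsub ?_
    refine hW2.mono fun m hm => hm.mono fun N hN => ?_
    refine ⟨Pts (fun u => f (ix u)) W (Z (univ.image ix) m) N, ?_, hN⟩
    intro n hn
    unfold Pts at hn
    obtain ⟨hn1, hn2, hn3⟩ := mem_filter.1 hn
    obtain ⟨hn4, hn5⟩ := mem_Icc.1 hn1
    refine ⟨hn4, hn5, ?_, hn3⟩
    intro i hi
    obtain ⟨u, -, rfl⟩ := mem_image.1 hi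
    rw [hn2 u]
    constructor
    · exact fun h => mem_image_of_mem _ h
    · intro h
      obtain ⟨u', hu', hu''⟩ := mem_image.1 h
      rwa [← hixinj hu'']
  · intro y hy
    obtain ⟨u, -, rfl⟩ := mem_image.1 hy
    exact mem_image_of_mem _ (mem_univ _)
  · rw [card_image_of_injective _ e.injective]
    omega
  · intro h hh
    obtain ⟨g, hg, rfl⟩ := mem_image.1 hh
    obtain ⟨u, hu, rfl⟩ := mem_image.1 hg
    exact ⟨u.2, mem_image_of_mem _ hu⟩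

/-- `N ^ (1 - η) ≤ N ^ (1 - 1 / (m + 1))` -/
theorem pow_comp {η : ℝ} (hη : 0 < η) : ∀ᶠ m : ℕ in atTop, ∀ N : ℕ, 1 ≤ N →
    (N : ℝ) ^ (1 - η) ≤ (N : ℝ) ^ (1 - 1 / ((m : ℝ) + 1)) := by
  obtain ⟨m₀, hm₀⟩ := exists_nat_one_div_lt hη
  filter_upwards [eventually_ge_atTop m₀] with m hm N hN
  refine Real.rpow_le_rpow_of_exponent_le (by exact_mod_cast hN) ?_
  have h1 : 1 / ((m : ℝ) + 1) ≤ 1 / ((m₀ : ℝ) + 1) := by
    refine div_le_div_of_nonneg_left (by norm_num) (by positivity) ?_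
    have : (m₀ : ℝ) ≤ m := by exact_mod_cast hm
    linarith
  linarith

open Classical in
/-- **Linear forms.** -/
theorem forms : ∃ B : ℕ → ℕ, ∀ (f : ℕ → ℤ × ℤ), Function.Injective f → (∀ n, 1 ≤ (f n).1) →
    (∀ n, IsCoprime (f n).1 (f n).2) → ∀ k₀, 1 ≤ k₀ → Adm f (B k₀) →
    (∃ h : Fin 3 → ℕ → ℕ, (∀ i, StrictMono (h i)) ∧
      Function.Injective (fun p : Fin 3 × ℕ => h p.1 p.2) ∧
      ∀ k, Adm f (B k) → ∀ᶠ v in atTop, ∃ i N, ∀ F : Finset ℕ, (∀ n ∈ F, N ≤ n) → F.card ≤ k →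
        ∀ Z : Finset (ℤ × ℤ), (∀ z ∈ Z, 1 ≤ z.1 ∧ z ∉ Set.range f) → ∀ η : ℝ, 0 < η →
        ∃ᶠ N : ℕ in atTop, (N : ℝ) ^ (1 - η) ≤ (((Icc 1 N).filter (fun n : ℕ =>
          Pr (f v) n ∧ (∀ l ∈ F, Pr (f (h i l)) n) ∧ ∀ z ∈ Z, ¬ Pr z n)).card : ℝ)) ∧
    ∃ e : Fin 3 → ℕ → ℕ, Function.Injective (fun p : Fin 3 × ℕ => e p.1 p.2) ∧
      (Set.range (fun p : Fin 3 × ℕ => e p.1 p.2))ᶜ.Finite ∧
      ∀ k, Adm f (B k) → ∀ᶠ t in atTop, ∀ i, ∀ Z : Finset (ℤ × ℤ),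
        (∀ z ∈ Z, 1 ≤ z.1 ∧ z ∉ Set.range f) →
        ∀ η : ℝ, 0 < η → ∃ᶠ N : ℕ in atTop, (N : ℝ) ^ (1 - η) ≤ (((Icc 1 N).filter (fun n : ℕ =>
          (∀ j < k, Pr (f (e i (t + j))) n) ∧ ∀ z ∈ Z, ¬ Pr z n)).card : ℝ) := by
  obtain ⟨B, hB⟩ := mt_of
  refine ⟨B, fun f hf hf1 hf2 k₀ hk₀ hadm₀ => ?_⟩
  set good : Finset ℕ → Prop := fun s => ∀ Z : Finset (ℤ × ℤ),
    (∀ z ∈ Z, 1 ≤ z.1 ∧ z ∉ Set.range f) → ∀ η : ℝ, 0 < η → ∃ᶠ N : ℕ in atTop,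
      (N : ℝ) ^ (1 - η) ≤ (((Icc 1 N).filter (fun n : ℕ =>
        (∀ i ∈ s, Pr (f i) n) ∧ ∀ z ∈ Z, ¬ Pr z n)).card : ℝ) with hgooddef
  have hanti : ∀ s s' : Finset ℕ, s' ⊆ s → good s → good s' := by
    intro s s' hs h Z hZ η hη
    refine (h Z hZ η hη).mono fun N hN => hN.trans ?_
    rw [Nat.cast_le]
    refine card_le_card (monotone_filter_right _ ?_)
    intro n _ hn
    exact ⟨fun i hi => hn.1 i (hs hi), hn.2⟩
  have hc : Conv good := fun s hs a b => hanti s _ (filter_subset _ _) hs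
  have hMT : ∀ k ∈ {k | Adm f (B k)}, MT good 3 k := by
    intro k hadm
    refine hB k f hf hf1 hf2 hadm good (fun _ m => (((Icc (1 : ℤ) m) ×ˢ (Icc (-(m : ℤ)) m)).filter
      (fun z => z ∉ Set.range f))) ?_ ?_
    · intro X m z hz
      obtain ⟨hz1, hz2⟩ := mem_filter.1 hz
      refine ⟨(mem_Icc.1 (mem_product.1 hz1).1).1, fun i _ h => hz2 ⟨i, h.symm⟩⟩
    · intro X s hs h Z hZ η hη
      have hZm : ∀ᶠ m : ℕ in atTop, Z ⊆ (((Icc (1 : ℤ) m) ×ˢ (Icc (-(m : ℤ)) m)).filter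
          (fun z => z ∉ Set.range f)) := by
        have h1 : ∀ᶠ m : ℕ in atTop, ∀ z ∈ Z, z ∈ (((Icc (1 : ℤ) m) ×ˢ (Icc (-(m : ℤ)) m)).filter
            (fun z => z ∉ Set.range f)) := by
          rw [Filter.eventually_all_finset]
          intro z hz
          filter_upwards [eventually_ge_atTop (z.1.natAbs + z.2.natAbs)] with m hm
          obtain ⟨hz1, hz2⟩ := hZ z hz
          refine mem_filter.2 ⟨mem_product.2 ⟨mem_Icc.2 ⟨hz1, ?_⟩, mem_Icc.2 ⟨?_, ?_⟩⟩, hz2⟩ <;> omega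
        exact h1.mono fun m hm z hz => hm z hz
      obtain ⟨m, hm1, hm2, hm3⟩ := (h.and_eventually (hZm.and (pow_comp hη))).exists
      refine (hm1.and_eventually (eventually_ge_atTop 1)).mono ?_
      rintro N ⟨⟨Y, hY1, hY2⟩, hN⟩
      refine (hm3 N hN).trans (hY2.trans ?_)
      rw [Nat.cast_le]
      refine card_le_card ?_
      intro n hn
      obtain ⟨h1, h2, h3, h4⟩ := hY1 n hn
      exact mem_filter.2 ⟨mem_Icc.2 ⟨h1, h2⟩, fun i hi => (h3 i (hs hi)).2 hi,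
        fun z hz => h4 z (hm2 hz)⟩
  obtain ⟨⟨h, hh1, hh2, hh3⟩, e, he1, he2, he3⟩ := arrange (by norm_num) hc _ hMT k₀ hadm₀ hk₀
  refine ⟨⟨h, hh1, hh2, fun k hk => ?_⟩, e, he1, he2, fun k hk => ?_⟩
  · have h1 := (hh3 k hk).eventually_cofinite_notMem
    rw [Nat.cofinite_eq_atTop] at h1
    filter_upwards [h1] with v hv
    have hv' : ¬ ∀ i, ∀ N, ∃ F : Finset ℕ, (∀ n ∈ F, N ≤ n) ∧ F.card ≤ k ∧
        ¬ good (insert v (F.image (h i))) := hv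
    push Not at hv'
    obtain ⟨i, N, hiN⟩ := hv'
    refine ⟨i, N, fun F hF hFc Z hZ η hη => ?_⟩
    refine (hiN F hF hFc Z hZ η hη).mono fun N' hN' => hN'.trans ?_
    rw [Nat.cast_le]
    refine card_le_card (monotone_filter_right _ ?_)
    intro n _ hn
    exact ⟨hn.1 v (mem_insert_self _ _), fun l hl => hn.1 _ (mem_insert_of_mem
      (mem_image_of_mem _ hl)), hn.2⟩
  · filter_upwards [he3 k hk] with t ht i Z hZ η hη
    refine (ht i Z hZ η hη).mono fun N' hN' => hN'.trans ?_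
    rw [Nat.cast_le]
    refine card_le_card (monotone_filter_right _ ?_)
    intro n _ hn
    exact ⟨fun j hj => hn.1 _ (mem_image_of_mem _ (mem_range.2 hj)), hn.2⟩

end Pool.Agent.Run7.h166.TS
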