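import Mathlib
import Pool.Agent.Run7.h166.TS.Main
import Pool.Agent.Run7.h166.TS.Fin3

/-!
# Finite families of linear forms in three lists, with a bounded number of exceptions
-/

set_option autoImplicit false

namespace Pool.Agent.Run7.h166.TS

open Filter Finset

open Classical in
/-- The forms of `s` are simultaneously prime, and given other forms outside `V` composite, for at least
`N ^ (1 - η)` numbers `n ≤ N`, for arbitrarily large `N`. -/
def Often (V : Finset (ℤ × ℤ)) (s : Finset (ℤ × ℤ)) : Prop :=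
  ∀ Z : Finset (ℤ × ℤ), (∀ z ∈ Z, 1 ≤ z.1 ∧ z ∉ V) → ∀ η : ℝ, 0 < η →
    ∃ᶠ N : ℕ in atTop, (N : ℝ) ^ (1 - η) ≤ (((Icc 1 N).filter (fun n : ℕ =>
      (∀ f ∈ s, Pr f n) ∧ ∀ z ∈ Z, ¬ Pr z n)).card : ℝ)

theorem often_anti {V : Finset (ℤ × ℤ)} :
    ∀ s t : Finset (ℤ × ℤ), s ⊆ t → Often V t → Often V s := by
  classical
  intro s t hst h Z hZ η hη
  refine (h Z hZ η hη).mono fun N hN => hN.trans ?_
  rw [Nat.cast_le]
  refine card_le_card (monotone_filter_right _ ?_)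
  intro n _ hn
  exact ⟨fun i hi => hn.1 i (hst hi), hn.2⟩

/-- the coloured theorem for injective families of forms in a fixed finite set -/
theorem mtE : ∃ c : ℝ, 0 < c ∧ c < 1 ∧ ∀ T M : ℕ, 1 ≤ T → (4 - c) * M < T →
    ∃ K : ℕ, 1 ≤ K ∧ ∀ V : Finset (ℤ × ℤ), (∀ f ∈ V, 1 ≤ f.1 ∧ IsCoprime f.1 f.2) →
    (∀ p : ℕ, p.Prime → p ≤ T * K → ∃ r : ℤ, ∀ f ∈ V, ¬ (p : ℤ) ∣ f.1 * r + f.2) →
    ∀ X : Fin T × Fin K → ℤ × ℤ, Function.Injective X → (∀ u, X u ∈ V) →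
    ∃ W : Finset (Fin T × Fin K), M + 1 ≤ (W.image Prod.fst).card ∧ Often V (W.image X) := by
  classical
  obtain ⟨c, hc, hc1, hU⟩ := exactInf
  refine ⟨c, hc, hc1, fun T M hT hTM => ?_⟩
  obtain ⟨K, hK, hU⟩ := hU T M hT hTM
  refine ⟨K, hK, fun V hV hloc X hX hXV => ?_⟩
  obtain ⟨W, hW1, hW2⟩ := hU X hX (fun u => (hV _ (hXV u)).1) (fun u => (hV _ (hXV u)).2)
    (fun p hp hpK => by
      obtain ⟨r, hr⟩ := hloc p hp hpK
      exact ⟨r, fun u => hr _ (hXV u)⟩)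
    (fun m => (((Icc (1 : ℤ) m) ×ˢ (Icc (-(m : ℤ)) m)).filter (fun z => z ∉ V))) (by
      intro m z hz
      obtain ⟨hz1, hz2⟩ := mem_filter.1 hz
      exact ⟨(mem_Icc.1 (mem_product.1 hz1).1).1, fun u h => hz2 (h ▸ hXV u)⟩)
  refine ⟨W, hW1, ?_⟩
  intro Z hZ η hη
  have hZm : ∀ᶠ m : ℕ in atTop, Z ⊆ (((Icc (1 : ℤ) m) ×ˢ (Icc (-(m : ℤ)) m)).filter
      (fun z => z ∉ V)) := by
    have h1 : ∀ᶠ m : ℕ in atTop, ∀ z ∈ Z, z ∈ (((Icc (1 : ℤ) m) ×ˢ (Icc (-(m : ℤ)) m)).filter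
        (fun z => z ∉ V)) := by
      rw [Filter.eventually_all_finset]
      intro z hz
      filter_upwards [eventually_ge_atTop (z.1.natAbs + z.2.natAbs)] with m hm
      obtain ⟨hz1, hz2⟩ := hZ z hz
      refine mem_filter.2 ⟨mem_product.2 ⟨mem_Icc.2 ⟨hz1, ?_⟩, mem_Icc.2 ⟨?_, ?_⟩⟩, hz2⟩ <;> omega
    exact h1.mono fun m hm z hz => hm z hz
  obtain ⟨m, hm1, hm2, hm3⟩ := (hW2.and_eventually (hZm.and (pow_comp hη))).exists
  refine (hm1.and_eventually (eventually_ge_atTop 1)).mono ?_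
  rintro N ⟨hY, hN⟩
  refine (hm3 N hN).trans (hY.trans ?_)
  rw [Nat.cast_le]
  refine card_le_card ?_
  intro n hn
  unfold Pts at hn
  obtain ⟨h1, h2, h3⟩ := mem_filter.1 hn
  refine mem_filter.2 ⟨h1, ?_, fun z hz => h3 z (hm2 hz)⟩
  intro f hf
  obtain ⟨u, hu, rfl⟩ := mem_image.1 hf
  exact (h2 u).2 hu

theorem often_empty {V : Finset (ℤ × ℤ)} {s : Finset (ℤ × ℤ)} (h : Often V s) : Often V ∅ :=
  often_anti _ _ (empty_subset _) h

theorem finE (k : ℕ) : ∃ C B : ℕ, ∀ V : Finset (ℤ × ℤ), (∀ f ∈ V, 1 ≤ f.1 ∧ IsCoprime f.1 f.2) →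
    (∀ p : ℕ, p.Prime → p ≤ B → ∃ r : ℤ, ∀ f ∈ V, ¬ (p : ℤ) ∣ f.1 * r + f.2) →
    ∃ e : Fin 3 → List (ℤ × ℤ), (∀ i, (e i).Nodup) ∧ (∀ i j, i ≠ j → List.Disjoint (e i) (e j)) ∧
      (∀ i, ∀ f ∈ e i, f ∈ V) ∧ (V.filter (fun f => ∀ i, f ∉ e i)).card ≤ C ∧
      ∀ i, ∀ w : List (ℤ × ℤ), w <:+: e i → w ≠ [] → w.length ≤ k → Often V w.toFinset := by
  classical
  obtain ⟨c, hc, hc1, hU⟩ := mtE
  set k' := k + 1 with hk'
  obtain ⟨S, hS1, hS⟩ := blocks_choice' c hc hc1 k'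
  obtain ⟨K, hK, hU1⟩ := hU ((3 + 1) * S) (S + 3 * k') (by omega) hS
  set m : ℕ := 2 * (k' + S * K) with hm
  obtain ⟨K', hK', hU2⟩ := hU (4 * m) m (by omega) (by
    push_cast
    have : (0 : ℝ) < m := by
      have : 0 < m := by omega
      exact_mod_cast this
    nlinarith)
  refine ⟨4 * m * K', (3 + 1) * S * K + 4 * m * K', fun V hV hloc => ?_⟩
  have hMT : FMT (Often V) V 3 k' S K := by
    intro X hX hXV
    set e : Fin ((3 + 1) * S) ≃ Fin (3 + 1) × Fin S := finProdFinEquiv.symm with he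
    obtain ⟨W, hW1, hgood⟩ := hU1 V hV (fun p hp hpB => hloc p hp (by omega))
      (fun u => X ((e u.1).1, (e u.1).2, u.2)) (by
        rintro ⟨g, i⟩ ⟨g', i'⟩ h
        have h1 := hX h
        simp only [Prod.mk.injEq] at h1
        have h2 : g = g' := e.injective (Prod.ext h1.1 h1.2.1)
        rw [h2, h1.2.2]) (fun u => hXV _)
    refine ⟨_, hgood, (W.image Prod.fst).image e, ?_, ?_⟩
    · rw [card_image_of_injective _ e.injective]
      omega
    · intro b hb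
      obtain ⟨g, hg, rfl⟩ := mem_image.1 hb
      obtain ⟨u, hu, rfl⟩ := mem_image.1 hg
      exact ⟨u.2, mem_image_of_mem (fun u => X ((e u.1).1, (e u.1).2, u.2)) hu⟩
  have hCl : FCl (Often V) V (4 * m * K' + 1) m := by
    intro Y hYV hY
    obtain ⟨Y', hY', hY'c⟩ := exists_subset_card_eq (le_trans (Nat.le_succ _) hY)
    set ψ : Fin (4 * m) × Fin K' ≃ Y' :=
      (finProdFinEquiv.trans (Y'.equivFinOfCardEq hY'c).symm) with hψ
    obtain ⟨W, hW1, hgood⟩ := hU2 V hV (fun p hp hpB => hloc p hp (by omega))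
      (fun u => (ψ u : ℤ × ℤ)) (fun u u' h => ψ.injective (Subtype.ext h))
      (fun u => hYV (hY' (ψ u).2))
    have hcard : m ≤ (W.image (fun u => ((ψ u : Y') : ℤ × ℤ))).card := by
      rw [card_image_of_injective _ (fun u u' h => ψ.injective (Subtype.ext h))]
      exact le_trans (by omega) (card_image_le (s := W) (f := Prod.fst))
    obtain ⟨Q, hQ, hQc⟩ := exists_subset_card_eq hcard
    refine ⟨Q, hQ.trans ?_, hQc, often_anti _ _ hQ hgood⟩
    intro x hx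
    obtain ⟨g, -, rfl⟩ := mem_image.1 hx
    exact hY' (ψ _).2
  by_cases hVc : 4 * m * K' < V.card
  · have h0 : Often V ∅ := by
      obtain ⟨Q, -, -, hQ⟩ := hCl V (Subset.refl _) hVc
      exact often_empty hQ
    obtain ⟨e, h1, h2, h3, h4, h5⟩ := finite_arrange often_anti h0 (k := k') (by omega) hMT hCl
    refine ⟨e, h1, h2, h3, ?_, fun i w hw _ hwk => h5 i w hw (by omega)⟩
    have h6 := Nat.lt_succ_iff.1 h4
    convert h6
  · refine ⟨fun _ => [], fun _ => List.nodup_nil, fun i j _ x hx => by simp at hx,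
      fun i x hx => by simp at hx, ?_, ?_⟩
    · exact (card_le_card (filter_subset _ _)).trans (by omega)
    · intro i w hw hw0
      exact absurd (List.infix_nil.1 hw) hw0

end Pool.Agent.Run7.h166.TS
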