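import Mathlib

/-!
# Graphs without `(r + 1)`-partite holes: all but a bounded number of the vertices on `r` paths

Suppose that among any `r + 1` disjoint sets of `K` vertices there are two with an edge between them. Then all
vertices, with a number of exceptions bounded in terms of `r` and `K`, are on `r` disjoint paths.
-/

set_option autoImplicit false

namespace Pool.Agent.Run7.h166.TS

open Finset

variable {α : Type} [DecidableEq α] {adj : α → α → Prop}

/-- among any `r + 1` disjoint sets of `K` elements of `V` there are two with an edge between them -/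
def NH (adj : α → α → Prop) (V : Finset α) (r K : ℕ) : Prop :=
  ∀ X : Fin (r + 1) × Fin K → α, Function.Injective X → (∀ u, X u ∈ V) →
    ∃ u v : Fin (r + 1) × Fin K, u.1 ≠ v.1 ∧ adj (X u) (X v)

theorem NH.edge {V : Finset α} {r K : ℕ} (h : NH adj V r K) {Z : Finset α} (hZ : Z ⊆ V)
    (hc : (r + 1) * K ≤ Z.card) : ∃ x ∈ Z, ∃ y ∈ Z, x ≠ y ∧ adj x y := by
  obtain ⟨Z', hZ', hZc⟩ := exists_subset_card_eq hc
  set ψ : Fin (r + 1) × Fin K ≃ Z' := (finProdFinEquiv.trans (Z'.equivFinOfCardEq hZc).symm) with hψ
  obtain ⟨u, v, huv, hadj⟩ := h (fun u => (ψ u : α)) (fun u u' h => ψ.injective (Subtype.ext h))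
    (fun u => hZ (hZ' (ψ u).2))
  refine ⟨_, hZ' (ψ u).2, _, hZ' (ψ v).2, ?_, hadj⟩
  intro h2
  exact huv (by rw [ψ.injective (Subtype.ext h2)])

/-- long monotone paths -/
theorem long_path {V : Finset α} {r K : ℕ} (hs : ∀ x y, adj x y → adj y x) (hK : 1 ≤ K)
    (h : NH adj V r K) (rk : α → ℕ) (hrk : Function.Injective rk) (L : ℕ) :
    ∀ Y ⊆ V, (r + 1) * K * (L + 1) ≤ Y.card → ∃ l : List α, l.length = L + 1 ∧ (∀ x ∈ l, x ∈ Y) ∧
      l.IsChain (fun x y => adj x y ∧ rk y < rk x) := by
  classical
  induction L with
  | zero =>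
    intro Y hY hc
    have h1 : 0 < Y.card := by
      have : 1 ≤ (r + 1) * K := Nat.mul_pos (Nat.succ_pos _) hK
      omega
    obtain ⟨y, hy⟩ := card_pos.1 h1
    exact ⟨[y], rfl, by simpa using hy, List.isChain_singleton _⟩
  | succ L ih =>
    intro Y hY hc
    set Z : Finset α := Y.filter (fun y => ∃ l : List α, (y :: l).length = L + 1 ∧
      (∀ x ∈ y :: l, x ∈ Y) ∧ (y :: l).IsChain (fun x y => adj x y ∧ rk y < rk x)) with hZ
    have h1 : (Y \ Z).card < (r + 1) * K * (L + 1) := by
      by_contra hcon
      push Not at hcon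
      obtain ⟨l, hl1, hl2, hl3⟩ := ih (Y \ Z) (sdiff_subset.trans hY) hcon
      cases l with
      | nil => simp at hl1
      | cons y l =>
        have h2 := hl2 y (List.mem_cons_self)
        obtain ⟨h3, h4⟩ := mem_sdiff.1 h2
        exact h4 (mem_filter.2 ⟨h3, l, hl1, fun x hx => (mem_sdiff.1 (hl2 x hx)).1, hl3⟩)
    have h2 : (r + 1) * K ≤ Z.card := by
      have h3 : Y.card ≤ (Y \ Z).card + Z.card := by
        rw [card_sdiff_add_card]
        exact card_le_card subset_union_left
      have h4 : (r + 1) * K * (L + 1 + 1) = (r + 1) * K * (L + 1) + (r + 1) * K := by ring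
      omega
    have key : ∀ x ∈ Z, ∀ y ∈ Z, rk y < rk x → adj x y → ∃ l : List α, l.length = L + 1 + 1 ∧
        (∀ x ∈ l, x ∈ Y) ∧ l.IsChain (fun x y => adj x y ∧ rk y < rk x) := by
      intro x hx y hy hlt hxy
      obtain ⟨hy1, l, hl1, hl2, hl3⟩ := mem_filter.1 hy
      refine ⟨x :: y :: l, by rw [List.length_cons, hl1], ?_, ?_⟩
      · intro z hz
        rcases List.mem_cons.1 hz with rfl | hz
        · exact (mem_filter.1 hx).1
        · exact hl2 z hz
      · exact List.isChain_cons_cons.2 ⟨⟨hxy, hlt⟩, hl3⟩
    obtain ⟨x, hx, y, hy, hne, hxy⟩ := h.edge ((filter_subset _ _).trans hY) h2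
    rcases lt_trichotomy (rk y) (rk x) with h3 | h3 | h3
    · exact key x hx y hy h3 hxy
    · exact absurd (hrk h3).symm hne
    · exact key y hy x hx h3 (hs _ _ hxy)

/-- a path -/
def Path (adj : α → α → Prop) (l : List α) : Prop := l.Nodup ∧ l.IsChain adj

/-- disjoint paths in `V` -/
def Paths {n : ℕ} (adj : α → α → Prop) (V : Finset α) (E : Fin n → List α) : Prop :=
  (∀ i, Path adj (E i)) ∧ (∀ i j, i ≠ j → List.Disjoint (E i) (E j)) ∧ ∀ i, ∀ x ∈ E i, x ∈ V

theorem sum_len_le {n : ℕ} {V : Finset α} {E : Fin n → List α} (h : Paths adj V E) :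
    ∑ i, (E i).length ≤ V.card := by
  have h1 : (univ.biUnion (fun i => (E i).toFinset)).card = ∑ i, (E i).length := by
    rw [Finset.card_biUnion]
    · exact Finset.sum_congr rfl fun i _ => List.toFinset_card_of_nodup (h.1 i).1
    · intro i _ j _ hij
      refine Finset.disjoint_left.2 ?_
      intro x hx hx'
      exact h.2.1 i j hij (List.mem_toFinset.1 hx) (List.mem_toFinset.1 hx')
  rw [← h1]
  refine card_le_card ?_
  intro x hx
  obtain ⟨i, -, hi⟩ := mem_biUnion.1 hx
  exact h.2.2 i x (List.mem_toFinset.1 hi)

/-- replacing one list -/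
theorem Paths.update {n : ℕ} {V : Finset α} {E : Fin n → List α} (h : Paths adj V E) (j : Fin n)
    (l : List α) (hl : Path adj l) (hlV : ∀ x ∈ l, x ∈ V) (hd : ∀ i, i ≠ j → List.Disjoint l (E i)) :
    Paths adj V (Function.update E j l) := by
  refine ⟨?_, ?_, ?_⟩
  · intro i
    by_cases hi : i = j
    · subst hi; rwa [Function.update_self]
    · rw [Function.update_of_ne hi]; exact h.1 i
  · intro i i' hii
    by_cases hi : i = j
    · subst hi
      rw [Function.update_self, Function.update_of_ne (Ne.symm hii)]
      exact hd i' (Ne.symm hii)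
    · rw [Function.update_of_ne hi]
      by_cases hi' : i' = j
      · subst hi'
        rw [Function.update_self]
        exact (hd i hi).symm
      · rw [Function.update_of_ne hi']
        exact h.2.1 i i' hii
  · intro i
    by_cases hi : i = j
    · subst hi; rwa [Function.update_self]
    · rw [Function.update_of_ne hi]; exact h.2.2 i

theorem sum_update {n : ℕ} (E : Fin n → List α) (j : Fin n) (l : List α) :
    ∑ i, (Function.update E j l i).length + (E j).length = ∑ i, (E i).length + l.length := by
  rw [← Finset.add_sum_erase univ _ (mem_univ j), ← Finset.add_sum_erase univ (fun i => (E i).length)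
    (mem_univ j), Function.update_self]
  have : ∑ i ∈ univ.erase j, (Function.update E j l i).length = ∑ i ∈ univ.erase j, (E i).length :=
    Finset.sum_congr rfl fun i hi => by rw [Function.update_of_ne (ne_of_mem_erase hi)]
  rw [this]
  omega

/-- joining two of `r + 1` paths -/
theorem join_paths (hs : ∀ x y, adj x y → adj y x) {V : Finset α} {r K : ℕ}
    (h : NH adj V r K) {E : Fin (r + 1) → List α} (hE : Paths adj V E) (hlen : ∀ i, K ≤ (E i).length) :
    ∃ E' : Fin (r + 1) → List α, Paths adj V E' ∧ (∃ j, E' j = []) ∧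
      ∑ i, (E i).length + 2 ≤ ∑ i, (E' i).length + 2 * K := by
  classical
  have hidx : ∀ u : Fin (r + 1) × Fin K, (E u.1).length - K + u.2 < (E u.1).length := by
    intro u
    have h1 := hlen u.1
    have h2 := u.2.2
    omega
  obtain ⟨u, v, huv, hadj⟩ := h (fun u => (E u.1)[(E u.1).length - K + u.2]'(hidx u)) (by
    rintro ⟨g, i⟩ ⟨g', i'⟩ he
    have hg : g = g' := by
      by_contra hne
      refine hE.2.1 g g' hne (List.getElem_mem (hidx (g, i))) ?_
      have h1 := List.getElem_mem (hidx (g', i'))
      exact (show (E g)[(E g).length - K + i]'(hidx (g, i)) = (E g')[(E g').length - K + i']'(hidx (g', i'))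
        from he) ▸ h1
    subst hg
    have h1 := ((hE.1 g).1.getElem_inj_iff).1 he
    simp only at h1
    have h2 : (i : ℕ) = i' := by omega
    rw [Fin.ext h2]) (fun u => hE.2.2 _ _ (List.getElem_mem _))
  set g := u.1 with hg
  set g' := v.1 with hg'
  set a := (E g).length - K + u.2 with ha
  set b := (E g').length - K + v.2 with hb
  have ha' : a < (E g).length := hidx u
  have hb' : b < (E g').length := hidx v
  set A := (E g).take (a + 1) with hA
  set B := (E g').take (b + 1) with hB
  have hAl : A.length = a + 1 := by rw [hA, List.length_take]; omega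
  have hBl : B.length = b + 1 := by rw [hB, List.length_take]; omega
  have hAm : ∀ x ∈ A, x ∈ E g := fun x hx => List.mem_of_mem_take hx
  have hBm : ∀ x ∈ B, x ∈ E g' := fun x hx => List.mem_of_mem_take hx
  have hpath : Path adj (A ++ B.reverse) := by
    refine ⟨?_, ?_⟩
    · rw [List.nodup_append]
      refine ⟨(hE.1 g).1.sublist (List.take_sublist _ _), ?_, ?_⟩
      · rw [List.nodup_reverse]
        exact (hE.1 g').1.sublist (List.take_sublist _ _)
      · intro x hx y hy hxy
        subst hxy
        exact hE.2.1 g g' huv (hAm x hx) (hBm x (List.mem_reverse.1 hy))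
    · rw [List.isChain_append]
      refine ⟨(hE.1 g).2.take _, ?_, ?_⟩
      · rw [List.isChain_reverse]
        refine List.IsChain.imp ?_ ((hE.1 g').2.take _)
        intro x y hxy
        exact hs _ _ hxy
      · intro x hx y hy
        have h1 : A.getLast? = some ((E g)[a]'ha') := by
          rw [List.getLast?_eq_getElem?, hAl, hA, Nat.add_sub_cancel, List.getElem?_take_of_lt (Nat.lt_succ_self a),
            List.getElem?_eq_getElem ha']
        have h2 : B.reverse.head? = some ((E g')[b]'hb') := by
          rw [List.head?_reverse, List.getLast?_eq_getElem?, hBl, hB, Nat.add_sub_cancel,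
            List.getElem?_take_of_lt (Nat.lt_succ_self b), List.getElem?_eq_getElem hb']
        rw [h1, Option.mem_def, Option.some.injEq] at hx
        rw [h2, Option.mem_def, Option.some.injEq] at hy
        rw [← hx, ← hy]
        exact hadj
  have hE1 : Paths adj V (Function.update E g' []) := hE.update g' [] ⟨List.nodup_nil, List.isChain_nil⟩
    (by simp) (fun i _ => by simp)
  have hE2 := hE1.update g (A ++ B.reverse) hpath (by
    intro x hx
    rcases List.mem_append.1 hx with hx | hx
    · exact hE.2.2 g x (hAm x hx)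
    · exact hE.2.2 g' x (hBm x (List.mem_reverse.1 hx))) (by
    intro i hi x hx hx'
    by_cases hi' : i = g'
    · subst hi'
      rw [Function.update_self] at hx'
      simp at hx'
    · rw [Function.update_of_ne hi'] at hx'
      rcases List.mem_append.1 hx with hx | hx
      · exact hE.2.1 i g hi hx' (hAm x hx)
      · exact hE.2.1 i g' hi' hx' (hBm x (List.mem_reverse.1 hx)))
  refine ⟨_, hE2, ⟨g', ?_⟩, ?_⟩
  · rw [Function.update_of_ne (Ne.symm huv), Function.update_self]
  · have e1 := sum_update E g' []
    have e2 := sum_update (Function.update E g' []) g (A ++ B.reverse)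
    rw [Function.update_of_ne huv] at e2
    rw [List.length_append, List.length_reverse, hAl, hBl] at e2
    rw [List.length_nil] at e1
    have h1 := hlen g
    have h2 := hlen g'
    have h3 := u.2.2
    have h4 := v.2.2
    omega

/-- **Path covers.** -/
theorem path_cover (hs : ∀ x y, adj x y → adj y x) {V : Finset α} {r K : ℕ} (hK : 1 ≤ K)
    (h : NH adj V r K) (rk : α → ℕ) (hrk : Function.Injective rk) :
    ∃ e : Fin r → List α, Paths adj V e ∧
      (V.filter (fun x => ∀ i, x ∉ e i)).card < (r + 1) * K * (2 * K) := by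
  classical
  have main : ∀ n : ℕ, ∀ E : Fin (r + 1) → List α, Paths adj V E → (∃ j, E j = []) →
      V.card ≤ ∑ i, (E i).length + n →
      ∃ E : Fin (r + 1) → List α, Paths adj V E ∧ (∃ j, E j = []) ∧
        (V.filter (fun x => ∀ i, x ∉ E i)).card < (r + 1) * K * (2 * K) := by
    intro n
    induction n using Nat.strong_induction_on with
    | _ n ih =>
      rintro E hE ⟨j, hj⟩ hn
      by_cases hR : (V.filter (fun x => ∀ i, x ∉ E i)).card < (r + 1) * K * (2 * K)
      · exact ⟨E, hE, ⟨j, hj⟩, hR⟩
      push Not at hR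
      -- a better family
      have better : ∃ E' : Fin (r + 1) → List α, Paths adj V E' ∧ (∃ j, E' j = []) ∧
          ∑ i, (E i).length < ∑ i, (E' i).length := by
        have hR' : (r + 1) * K * (2 * K - 1 + 1) ≤ (V.filter (fun x => ∀ i, x ∉ E i)).card := by
          have : 2 * K - 1 + 1 = 2 * K := by omega
          rwa [this]
        obtain ⟨l, hl1, hl2, hl3⟩ := long_path hs hK h rk hrk (2 * K - 1) _ (filter_subset _ _) hR'
        have hll : l.length = 2 * K := by omega
        have hlp : Path adj l := by
          refine ⟨?_, hl3.imp fun x y hxy => hxy.1⟩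
          have h1 : l.Pairwise (fun x y => rk y < rk x) := by
            have h2 : l.IsChain (fun x y => rk y < rk x) := hl3.imp fun x y hxy => hxy.2
            haveI : IsTrans α (fun x y => rk y < rk x) := ⟨fun a b c h1 h2 => lt_trans h2 h1⟩
            exact List.isChain_iff_pairwise.1 h2
          refine h1.imp ?_
          intro x y hxy he
          rw [he] at hxy
          exact lt_irrefl _ hxy
        have hE1 := hE.update j l hlp (fun x hx => (mem_filter.1 (hl2 x hx)).1) (by
          intro i _ x hx hx'
          exact (mem_filter.1 (hl2 x hx)).2 i hx')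
        have hs1 := sum_update E j l
        rw [hj, List.length_nil, hll] at hs1
        by_cases hsh : ∃ i, i ≠ j ∧ (Function.update E j l i).length < 2 * K
        · obtain ⟨i, hij, hi⟩ := hsh
          refine ⟨Function.update (Function.update E j l) i [], hE1.update i []
            ⟨List.nodup_nil, List.isChain_nil⟩ (by simp) (fun i _ => by simp), ⟨i, Function.update_self _ _ _⟩, ?_⟩
          have hs2 := sum_update (Function.update E j l) i []
          rw [List.length_nil] at hs2
          omega
        · push Not at hsh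
          obtain ⟨E', hE', hj', hsum⟩ := join_paths hs h hE1 (fun i => by
            by_cases hij : i = j
            · subst hij; rw [Function.update_self, hll]; omega
            · have := hsh i hij; omega)
          exact ⟨E', hE', hj', by omega⟩
      obtain ⟨E', hE', hj', hlt⟩ := better
      have hle := sum_len_le hE'
      exact ih (V.card - ∑ i, (E' i).length) (by omega) E' hE' hj' (by omega)
  obtain ⟨E, hE, ⟨j, hj⟩, hR⟩ := main V.card (fun _ => [])
    ⟨fun _ => ⟨List.nodup_nil, List.isChain_nil⟩, fun i j _ x hx => by simp at hx, fun i x hx => by simp at hx⟩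
    ⟨0, rfl⟩ (by omega)
  refine ⟨fun i => E (j.succAbove i), ⟨fun i => hE.1 _, fun i i' hii => hE.2.1 _ _ (fun h =>
    hii (Fin.succAbove_right_injective h)), fun i => hE.2.2 _⟩, ?_⟩
  refine lt_of_le_of_lt (card_le_card ?_) hR
  intro x hx
  obtain ⟨h1, h2⟩ := mem_filter.1 hx
  refine mem_filter.2 ⟨h1, fun i hi => ?_⟩
  by_cases hij : i = j
  · subst hij
    rw [hj] at hi
    simp at hi
  · obtain ⟨i', rfl⟩ := Fin.exists_succAbove_eq hij
    exact h2 i' hi

end Pool.Agent.Run7.h166.TS
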