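import Mathlib
import Pool.Agent.Run7.h166.TS.Arrange

/-!
# Countable graphs without `(r + 1)`-partite holes: all but finitely many vertices on `r` rays
-/

set_option autoImplicit false

namespace Pool.Agent.Run7.h166.TS

open Filter Finset

variable {adj : ℕ → ℕ → Prop}

/-- among any `r + 1` disjoint sets of `K` numbers, from some point on, there are two with an edge between
them -/
def NHω (adj : ℕ → ℕ → Prop) (r K n₀ : ℕ) : Prop :=
  ∀ X : Fin (r + 1) × Fin K → ℕ, Function.Injective X → (∀ u, n₀ ≤ X u) →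
    ∃ u v : Fin (r + 1) × Fin K, u.1 ≠ v.1 ∧ adj (X u) (X v)

theorem no_chain2 (hs : ∀ x y, adj x y → adj y x) {r K n₀ : ℕ} (h : NHω adj r K n₀)
    (W : ℕ → Ultrafilter ℕ) (hW : ∀ g, (W g : Filter ℕ) ≤ atTop)
    (hk : ∀ g g', g < g' → g' ≤ r → ∀ᶠ v in (W g : Filter ℕ), ¬ ∀ᶠ y in (W g' : Filter ℕ), adj v y) :
    False := by
  classical
  have hk' : ∀ g g', g < g' → g' ≤ r → ∀ᶠ v in (W g : Filter ℕ), ∀ᶠ y in (W g' : Filter ℕ), ¬ adj v y := by
    intro g g' h1 h2
    filter_upwards [hk g g' h1 h2] with v hv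
    rwa [← Ultrafilter.eventually_not] at hv
  obtain ⟨x, hx1, hx2, hx3⟩ := pick (fun t => W (t / K)) (fun t => hW _)
    (fun t M => {x | n₀ ≤ x ∧ (∀ g' ∈ range (r + 1), t / K < g' → ∀ᶠ y in (W g' : Filter ℕ), ¬ adj x y) ∧
      ∀ z ∈ range (M + 1), (∀ᶠ y in (W (t / K) : Filter ℕ), ¬ adj z y) → ¬ adj z x}) (fun t M => by
      have h1 : ∀ᶠ x in (W (t / K) : Filter ℕ), n₀ ≤ x := hW _ (eventually_ge_atTop n₀)
      refine h1.and (Filter.Eventually.and ?_ ?_)
      · rw [Filter.eventually_all_finset]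
        intro g' hg'
        rw [mem_range] at hg'
        by_cases h : t / K < g'
        · filter_upwards [hk' (t / K) g' h (by omega)] with v hv _ using hv
        · exact Filter.Eventually.of_forall fun v h' => absurd h' h
      · rw [Filter.eventually_all_finset]
        intro z _
        by_cases hz : ∀ᶠ y in (W (t / K) : Filter ℕ), ¬ adj z y
        · filter_upwards [hz] with v hv _ using hv
        · exact Filter.Eventually.of_forall fun v h' => absurd h' hz)
  have hn : ∀ t, n₀ ≤ x t := by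
    intro t
    cases t with
    | zero => exact hx2.1
    | succ t => exact (hx3 t).1
  have hA : ∀ t, ∀ g' ∈ range (r + 1), t / K < g' → ∀ᶠ y in (W g' : Filter ℕ), ¬ adj (x t) y := by
    intro t
    cases t with
    | zero => exact hx2.2.1
    | succ t => exact (hx3 t).2.1
  have hB : ∀ t t', t' < t → t' / K < t / K → t / K ≤ r → ¬ adj (x t') (x t) := by
    intro t t' h1 h2 h3
    cases t with
    | zero => omega
    | succ t =>
      refine (hx3 t).2.2 (x t') (mem_range.2 ?_) (hA t' _ (mem_range.2 (by omega)) h2)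
      have := hx1.monotone (show t' ≤ t by omega)
      omega
  set ix : Fin (r + 1) × Fin K → ℕ := fun u => u.1 * K + u.2 with hix
  have hixd : ∀ u, ix u / K = u.1 := by
    intro u
    have h1 := u.2.2
    have h2 : 0 < K := by omega
    have h3 : ix u = u.2 + K * u.1 := by simp only [hix]; ring
    rw [h3, Nat.add_mul_div_left _ _ h2, Nat.div_eq_of_lt h1, zero_add]
  have hixinj : Function.Injective ix := by
    intro u v huv
    have h1 : (u.1 : ℕ) = v.1 := by rw [← hixd u, ← hixd v, huv]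
    have h2 : (u.2 : ℕ) = v.2 := by
      simp only [hix] at huv
      rw [h1] at huv
      omega
    exact Prod.ext (Fin.ext h1) (Fin.ext h2)
  obtain ⟨u, v, huv, hadj⟩ := h (fun u => x (ix u)) (hx1.injective.comp hixinj) (fun u => hn _)
  have hlt : ∀ t t', t / K < t' / K → t < t' := by
    intro t t' h
    by_contra hcon
    exact absurd (Nat.div_le_div_right (c := K) (not_lt.1 hcon)) (by omega)
  rcases lt_or_gt_of_ne (fun h => huv (Fin.ext h) : (u.1 : ℕ) ≠ v.1) with h1 | h1
  · refine hB (ix v) (ix u) (hlt _ _ (by rw [hixd, hixd]; exact h1)) (by rw [hixd, hixd]; exact h1)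
      (by rw [hixd]; have := v.1.2; omega) hadj
  · refine hB (ix u) (ix v) (hlt _ _ (by rw [hixd, hixd]; exact h1)) (by rw [hixd, hixd]; exact h1)
      (by rw [hixd]; have := u.1.2; omega) (hs _ _ hadj)

theorem self_absorb (hs : ∀ x y, adj x y → adj y x) {r K n₀ : ℕ} (h : NHω adj r K n₀) {U : Ultrafilter ℕ}
    (hU : (U : Filter ℕ) ≤ atTop) : ∀ᶠ x in (U : Filter ℕ), ∀ᶠ y in (U : Filter ℕ), adj x y := by
  by_contra hcon
  rw [← Ultrafilter.eventually_not] at hcon
  exact no_chain2 hs h (fun _ => U) (fun _ => hU) (fun _ _ _ _ => hcon)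

theorem cover2 (hs : ∀ x y, adj x y → adj y x) {r K n₀ : ℕ} (h : NHω adj r K n₀) :
    ∃ U : ℕ → Ultrafilter ℕ, (∀ i, (U i : Filter ℕ) ≤ atTop) ∧
      {v | ∀ i < r, ¬ ∀ᶠ y in (U i : Filter ℕ), adj v y}.Finite := by
  classical
  by_contra hcon
  have hcon' : ∀ U : ℕ → Ultrafilter ℕ, (∀ i, (U i : Filter ℕ) ≤ atTop) →
      {v | ∀ i < r, ¬ ∀ᶠ y in (U i : Filter ℕ), adj v y}.Infinite := by
    intro U hU
    by_contra h
    exact hcon ⟨U, hU, Set.not_infinite.1 h⟩
  have key : ∀ m, m ≤ r + 1 → ∃ U : ℕ → Ultrafilter ℕ, (∀ i, (U i : Filter ℕ) ≤ atTop) ∧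
      ∀ i j, i < j → j < m → ∀ᶠ v in (U j : Filter ℕ), ¬ ∀ᶠ y in (U i : Filter ℕ), adj v y := by
    intro m
    induction m with
    | zero =>
      intro _
      obtain ⟨V, hV, -⟩ := exists_np Set.univ Set.infinite_univ
      exact ⟨fun _ => V, fun _ => hV, fun i j _ h => absurd h (by omega)⟩
    | succ m ih =>
      intro hm
      obtain ⟨U, hU1, hU2⟩ := ih (by omega)
      have hk := hcon' (fun i => if i < m then U i else U 0) (fun i => by
        split_ifs
        · exact hU1 _
        · exact hU1 _)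
      have hk2 : {v | ∀ i < m, ¬ ∀ᶠ y in (U i : Filter ℕ), adj v y}.Infinite := by
        refine hk.mono ?_
        intro v hv i hi
        have := hv i (by omega)
        rwa [if_pos hi] at this
      obtain ⟨V, hV1, hV2⟩ := exists_np _ hk2
      refine ⟨fun i => if i < m then U i else V, fun i => ?_, fun i j hij hj => ?_⟩
      · dsimp only
        split_ifs
        · exact hU1 _
        · exact hV1
      · dsimp only
        have him : i < m := by omega
        rw [if_pos him]
        by_cases hjm : j < m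
        · rw [if_pos hjm]
          exact hU2 i j hij hjm
        · rw [if_neg hjm]
          filter_upwards [hV2] with v hv
          exact hv i him
  obtain ⟨U, hU1, hU2⟩ := key (r + 1) le_rfl
  exact no_chain2 hs h (fun g => U (r - g)) (fun g => hU1 _)
    (fun g g' hgg hg' => hU2 (r - g') (r - g) (by omega) (by omega))

open Classical in
/-- **All but finitely many numbers are on `r` rays.** -/
theorem rays (hs : ∀ x y, adj x y → adj y x) {r K n₀ : ℕ} (hr : 1 ≤ r) (h : NHω adj r K n₀) :
    ∃ e : Fin r → ℕ → ℕ, Function.Injective (fun p : Fin r × ℕ => e p.1 p.2) ∧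
      (Set.range (fun p : Fin r × ℕ => e p.1 p.2))ᶜ.Finite ∧ ∀ i n, adj (e i n) (e i (n + 1)) := by
  obtain ⟨U, hU, hfin⟩ := cover2 hs h
  obtain ⟨x, hx, hx2, hx3⟩ := pick (fun t => U (t % r)) (fun t => hU _)
    (fun t M => {x | (∀ᶠ y in (U (t % r) : Filter ℕ), adj x y) ∧
      ∀ z ∈ range (M + 1), (∀ᶠ y in (U (t % r) : Filter ℕ), adj z y) → adj z x}) (fun t M => by
      refine (self_absorb hs h (hU _)).and ?_
      rw [Filter.eventually_all_finset]
      intro z _
      by_cases hz : ∀ᶠ y in (U (t % r) : Filter ℕ), adj z y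
      · filter_upwards [hz] with v hv _ using hv
      · exact Filter.Eventually.of_forall fun v h' => absurd h' hz)
  have hxid : ∀ t, t ≤ x t := fun t => hx.id_le t
  have hself : ∀ t, ∀ᶠ y in (U (t % r) : Filter ℕ), adj (x t) y := by
    intro t
    cases t with
    | zero => exact hx2.1
    | succ t => exact (hx3 t).1
  have hgen : ∀ t z, z < t → (∀ᶠ y in (U (t % r) : Filter ℕ), adj z y) → adj z (x t) := by
    intro t z hz hzz
    cases t with
    | zero => omega
    | succ t =>
      refine (hx3 t).2 z (mem_range.2 ?_) hzz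
      have := hxid t
      omega
  have hgen2 : ∀ t t', t' < t → t' % r = t % r → adj (x t') (x t) := by
    intro t t' ht htt
    cases t with
    | zero => omega
    | succ t =>
      refine (hx3 t).2 (x t') (mem_range.2 ?_) ?_
      · have := hx.monotone (show t' ≤ t by omega)
        omega
      · rw [← htt]; exact hself t'
  have hmod : ∀ (i : Fin r) (j : ℕ), (r * j + i) % r = i := by
    intro i j
    rw [Nat.mul_add_mod, Nat.mod_eq_of_lt i.2]
  have hdiv : ∀ (i : Fin r) (j : ℕ), (r * j + i) / r = j := by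
    intro i j
    rw [Nat.mul_add_div hr, Nat.div_eq_of_lt i.2, add_zero]
  have hrj : ∀ (i : Fin r) (j : ℕ), j ≤ r * j + i := by
    intro i j
    have := Nat.le_mul_of_pos_left j hr
    omega
  set G : Set ℕ := {v | ∃ i < r, ∀ᶠ y in (U i : Filter ℕ), adj v y} with hG
  have hι : ∀ v, v ∈ G → ∃ i < r, ∀ᶠ y in (U i : Filter ℕ), adj v y := fun v hv => hv
  choose! ι hι1 hι2 using hι
  set A : Set ℕ := {v | v ∈ G ∧ v ∉ Set.range x} with hA
  have hnthmem : ∀ i n, Keys A ι i (Nat.nth (Keys A ι i) n) := fun i n =>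
    Nat.nth_mem_of_infinite (keys_infinite A ι i) n
  have hnthinj : ∀ i, StrictMono (Nat.nth (Keys A ι i)) := fun i =>
    Nat.nth_strictMono (keys_infinite A ι i)
  refine ⟨fun i n => dec r x i (Nat.nth (Keys A ι i) n), ?_, ?_, ?_⟩
  · rintro ⟨i, n⟩ ⟨i', n'⟩ h
    simp only at h
    have key : ∀ (i i' : Fin r) (u u' : ℕ), Keys A ι i u → Keys A ι i' u' →
        dec r x i u = dec r x i' u' → i = i' ∧ u = u' := by
      intro i i' u u' hu hu' h
      rcases hu with hu | ⟨v, rfl, hv1, hv2⟩ <;> rcases hu' with hu' | ⟨v', rfl, hv1', hv2'⟩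
      · obtain ⟨j, rfl⟩ : ∃ j, u = 2 * j := ⟨u / 2, by omega⟩
        obtain ⟨j', rfl⟩ : ∃ j, u' = 2 * j := ⟨u' / 2, by omega⟩
        rw [dec_even, dec_even] at h
        have h1 := hx.injective h
        have h2 : j = j' := by rw [← hdiv i j, h1, hdiv]
        have h3 : (i : ℕ) = i' := by rw [← hmod i j, h1, hmod]
        exact ⟨Fin.ext h3, by rw [h2]⟩
      · exfalso
        obtain ⟨j, rfl⟩ : ∃ j, u = 2 * j := ⟨u / 2, by omega⟩
        rw [dec_even, dec_odd] at h
        exact hv1'.2 ⟨_, h⟩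
      · exfalso
        obtain ⟨j', rfl⟩ : ∃ j, u' = 2 * j := ⟨u' / 2, by omega⟩
        rw [dec_even, dec_odd] at h
        exact hv1.2 ⟨_, h.symm⟩
      · rw [dec_odd, dec_odd] at h
        subst h
        exact ⟨Fin.ext (hv2.symm.trans hv2'), rfl⟩
    obtain ⟨h1, h2⟩ := key i i' _ _ (hnthmem _ _) (hnthmem _ _) h
    subst h1
    have h3 := (hnthinj i).injective h2
    rw [h3]
  · refine hfin.subset ?_
    intro v hv
    by_contra hcon
    have hv1 : v ∈ G := by
      have : ¬ ∀ i < r, ¬ ∀ᶠ y in (U i : Filter ℕ), adj v y := hcon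
      push Not at this
      exact this
    apply hv
    by_cases hvx : v ∈ Set.range x
    · obtain ⟨t, rfl⟩ := hvx
      have ht : t % r < r := Nat.mod_lt _ hr
      have hk1 : Keys A ι (t % r) (2 * (t / r)) := Or.inl (by omega)
      refine ⟨(⟨t % r, ht⟩, Nat.count (Keys A ι (t % r)) (2 * (t / r))), ?_⟩
      simp only
      rw [Nat.nth_count hk1, dec_even, Nat.div_add_mod]
    · have hk1 : Keys A ι (ι v) (2 * (v + 2) ^ 2 + 1) := Or.inr ⟨v, rfl, ⟨hv1, hvx⟩, rfl⟩
      refine ⟨(⟨ι v, hι1 v hv1⟩, Nat.count (Keys A ι (ι v)) (2 * (v + 2) ^ 2 + 1)), ?_⟩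
      simp only
      rw [Nat.nth_count hk1, dec_odd]
  · intro i n
    have h1 := hnthmem i n
    have h2 := hnthmem i (n + 1)
    have h3 := nth_step A ι i n
    have h4 : Nat.nth (Keys A ι i) n < Nat.nth (Keys A ι i) (n + 1) := hnthinj i (Nat.lt_succ_self n)
    simp only
    set a := Nat.nth (Keys A ι i) n with ha
    set b := Nat.nth (Keys A ι i) (n + 1) with hb
    rcases h1 with h1 | ⟨v, hv1, hv2, hv3⟩
    · obtain ⟨j, hj⟩ : ∃ j, a = 2 * j := ⟨a / 2, by omega⟩
      rcases h2 with h2 | ⟨w, hw1, hw2, hw3⟩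
      · have hbj : b = 2 * (j + 1) := by omega
        rw [hj, hbj, dec_even, dec_even]
        refine hgen2 _ _ ?_ ?_
        · have := Nat.mul_lt_mul_of_pos_left (show j < j + 1 by omega) hr
          omega
        · rw [hmod, hmod]
      · have hjw : j = (w + 2) ^ 2 := by omega
        rw [hj, hw1, dec_even, dec_odd]
        refine hs _ _ (hgen _ _ ?_ ?_)
        · have h5 := hrj i j
          have h6 : w < (w + 2) ^ 2 := by nlinarith
          omega
        · rw [hmod, ← hw3]
          exact hι2 w hw2.1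
    · have hbv : b = 2 * ((v + 2) ^ 2 + 1) := by
        rcases h2 with h2 | ⟨w, hw1, -, -⟩
        · omega
        · exfalso
          have h7 : (v + 2) ^ 2 < (w + 2) ^ 2 := by omega
          have h8 : v < w := by
            by_contra hcon
            have := Nat.pow_le_pow_left (show w + 2 ≤ v + 2 by omega) 2
            omega
          have h9 : (v + 3) ^ 2 ≤ (w + 2) ^ 2 := Nat.pow_le_pow_left (by omega) 2
          have h10 : (v + 3) ^ 2 = (v + 2) ^ 2 + 2 * v + 5 := by ring
          omega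
      rw [hv1, hbv, dec_odd, dec_even]
      refine hgen _ _ ?_ ?_
      · have h5 := hrj i ((v + 2) ^ 2 + 1)
        have h6 : v < (v + 2) ^ 2 + 1 := by nlinarith
        omega
      · rw [hmod, ← hv3]
        exact hι2 v hv2.1

end Pool.Agent.Run7.h166.TS
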