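import Mathlib
import Pool.Agent.Run7.h166.TS.FinE
import Pool.Agent.Run7.h166.TS.Paths
import Pool.Agent.Run7.h166.TS.Rays

/-!
# Four long blocks: two primes in different blocks, with local conditions at the primes two and three only
-/

set_option autoImplicit false

namespace Pool.Agent.Run7.h166.TS

open Filter Finset

/-- long blocks contain blocks which are constant modulo `Q` -/
theorem const_blocks {T K Q : ℕ} (hQ : 0 < Q) (X : Fin T × Fin (Q * Q * K) → ℤ × ℤ) :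
    ∃ c : Fin T × Fin K → Fin T × Fin (Q * Q * K), Function.Injective c ∧ (∀ u, (c u).1 = u.1) ∧
      ∀ g j j', (Q : ℤ) ∣ (X (c (g, j))).1 - (X (c (g, j'))).1 ∧
        (Q : ℤ) ∣ (X (c (g, j))).2 - (X (c (g, j'))).2 := by
  classical
  haveI : NeZero Q := ⟨hQ.ne'⟩
  have h1 : ∀ g : Fin T, ∃ y : ZMod Q × ZMod Q, K ≤ (univ.filter (fun j : Fin (Q * Q * K) =>
      (((X (g, j)).1 : ZMod Q), ((X (g, j)).2 : ZMod Q)) = y)).card := by
    intro g
    refine Fintype.exists_le_card_fiber_of_mul_le_card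
      (fun j : Fin (Q * Q * K) => (((X (g, j)).1 : ZMod Q), ((X (g, j)).2 : ZMod Q))) ?_
    rw [Fintype.card_prod, ZMod.card, Fintype.card_fin]
  choose y hy using h1
  refine ⟨fun u => (u.1, (univ.filter (fun j : Fin (Q * Q * K) =>
      (((X (u.1, j)).1 : ZMod Q), ((X (u.1, j)).2 : ZMod Q)) = y u.1)).orderEmbOfCardLe (hy u.1) u.2),
    ?_, fun _ => rfl, ?_⟩
  · rintro ⟨g, j⟩ ⟨g', j'⟩ h
    simp only [Prod.mk.injEq] at h
    obtain ⟨h1, h2⟩ := h
    subst h1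
    rw [((univ.filter (fun j : Fin (Q * Q * K) =>
      (((X (g, j)).1 : ZMod Q), ((X (g, j)).2 : ZMod Q)) = y g)).orderEmbOfCardLe (hy g)).injective h2]
  · intro g j j'
    have h2 := (mem_filter.1 (Finset.orderEmbOfCardLe_mem _ (hy g) j)).2
    have h3 := (mem_filter.1 (Finset.orderEmbOfCardLe_mem _ (hy g) j')).2
    have h4 := h2.trans h3.symm
    simp only [Prod.mk.injEq] at h4
    refine ⟨?_, ?_⟩
    · rw [← ZMod.intCast_zmod_eq_zero_iff_dvd]
      push_cast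
      rw [h4.1, sub_self]
    · rw [← ZMod.intCast_zmod_eq_zero_iff_dvd]
      push_cast
      rw [h4.2, sub_self]

theorem local_ok {T K Q : ℕ} (Y : Fin T × Fin K → ℤ × ℤ) (hcop : ∀ u, IsCoprime (Y u).1 (Y u).2)
    (hconst : ∀ g j j', (Q : ℤ) ∣ (Y (g, j)).1 - (Y (g, j')).1 ∧
        (Q : ℤ) ∣ (Y (g, j)).2 - (Y (g, j')).2)
    (hsmall : ∀ p : ℕ, p.Prime → p ≤ T → ∃ r : ℤ, ∀ u, ¬ (p : ℤ) ∣ (Y u).1 * r + (Y u).2)
    (hQ : ∀ p : ℕ, p.Prime → p ≤ T * K → p ∣ Q) :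
    ∀ p : ℕ, p.Prime → p ≤ T * K → ∃ r : ℤ, ∀ u, ¬ (p : ℤ) ∣ (Y u).1 * r + (Y u).2 := by
  intro p hp hpK
  by_cases hpT : p ≤ T
  · exact hsmall p hp hpT
  rcases Nat.eq_zero_or_pos K with hK | hK
  · subst hK
    exact ⟨0, fun u => Fin.elim0 u.2⟩
  obtain ⟨r, hr⟩ := avoid (fun g : Fin T => Y (g, ⟨0, hK⟩)) hp (by rw [Fintype.card_fin]; omega)
    (fun g h => by
      have h1 := (hcop (g, ⟨0, hK⟩)).isUnit_of_dvd' h.1 h.2
      exact (Nat.prime_iff_prime_int.1 hp).not_isUnit h1)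
  refine ⟨r, ?_⟩
  rintro ⟨g, j⟩ hd
  apply hr g
  obtain ⟨h1, h2⟩ := hconst g j ⟨0, hK⟩
  have hpQ : (p : ℤ) ∣ Q := by exact_mod_cast hQ p hp hpK
  have h3 := (dvd_trans hpQ h1).mul_right r
  have h4 := dvd_trans hpQ h2
  have h5 : (Y (g, ⟨0, hK⟩)).1 * r + (Y (g, ⟨0, hK⟩)).2 = (Y (g, j)).1 * r + (Y (g, j)).2 -
      (((Y (g, j)).1 - (Y (g, ⟨0, hK⟩)).1) * r + ((Y (g, j)).2 - (Y (g, ⟨0, hK⟩)).2)) := by ring
  rw [h5]
  exact dvd_sub hd (dvd_add h3 h4)

/-- the sets of indices of two different blocks -/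
theorem two_blocks {T K : ℕ} (W : Finset (Fin T × Fin K)) (hW : 2 ≤ (W.image Prod.fst).card) :
    ∃ u ∈ W, ∃ v ∈ W, u.1 ≠ v.1 := by
  obtain ⟨a, ha, b, hb, hab⟩ := Finset.one_lt_card.1 (show 1 < (W.image Prod.fst).card by omega)
  obtain ⟨u, hu, rfl⟩ := mem_image.1 ha
  obtain ⟨v, hv, rfl⟩ := mem_image.1 hb
  exact ⟨u, hu, v, hv, hab⟩

/-- **Linear forms at the scale `N`.** -/
theorem nhN : ∃ K : ℕ, 1 ≤ K ∧ ∀ A : ℕ, ∀ η : ℝ, 0 < η → ∀ᶠ N : ℕ in atTop, ∀ V : Finset (ℤ × ℤ),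
    (∀ f ∈ V, Size A N f) →
    (∀ p : ℕ, p.Prime → p ≤ 4 → ∃ r : ℤ, ∀ f ∈ V, ¬ (p : ℤ) ∣ f.1 * r + f.2) →
    NH (fun f g => Many N η {f, g}) V 3 K := by
  classical
  obtain ⟨c, hc, hc1, hU⟩ := mtN
  obtain ⟨K, hK, hU⟩ := hU 4 1 (by norm_num) (by push_cast; linarith)
  set Q : ℕ := (4 * K).factorial with hQ
  have hQ0 : 0 < Q := Nat.factorial_pos _
  refine ⟨Q * Q * K, Nat.mul_pos (Nat.mul_pos hQ0 hQ0) hK, fun A η hη => ?_⟩
  filter_upwards [hU A η hη] with N hN V hV hloc X hX hXV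
  obtain ⟨c, hcinj, hc1, hc2⟩ := const_blocks (K := K) hQ0 X
  set Y : Fin 4 × Fin K → ℤ × ℤ := fun u => X (c u) with hY
  have hYV : ∀ u, Y u ∈ V := fun u => hXV _
  have hloc' := local_ok Y (fun u => (hV _ (hYV u)).2.2.1) hc2 (fun p hp hp4 => by
    obtain ⟨r, hr⟩ := hloc p hp hp4
    exact ⟨r, fun u => hr _ (hYV u)⟩) (fun p hp hpK => Nat.dvd_factorial hp.pos hpK)
  obtain ⟨S, σ, hS, hgood⟩ := hN (univ.image Y) (by
      intro f hf
      obtain ⟨u, -, rfl⟩ := mem_image.1 hf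
      exact hV _ (hYV u)) (by
      intro p hp hpK
      obtain ⟨r, hr⟩ := hloc' p hp hpK
      refine ⟨r, ?_⟩
      intro f hf
      obtain ⟨u, -, rfl⟩ := mem_image.1 hf
      exact hr u) Y (hX.comp hcinj) (fun u => mem_image_of_mem _ (mem_univ _))
  obtain ⟨a, ha, b, hb, hab⟩ := Finset.one_lt_card.1 (show 1 < S.card by omega)
  refine ⟨c (a, σ a), c (b, σ b), by rw [hc1, hc1]; exact hab, ?_⟩
  refine many_anti _ _ ?_ hgood
  intro x hx
  rw [mem_insert, mem_singleton] at hx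
  rcases hx with rfl | rfl
  · exact mem_image.2 ⟨a, ha, rfl⟩
  · exact mem_image.2 ⟨b, hb, rfl⟩

theorem often_mono {V V' s : Finset (ℤ × ℤ)} (h : V' ⊆ V) (hs : Often V' s) : Often V s :=
  fun Z hZ η hη => hs Z (fun z hz => ⟨(hZ z hz).1, fun h' => (hZ z hz).2 (h h')⟩) η hη

/-- **Fixed families of linear forms.** -/
theorem nhE : ∃ K : ℕ, 1 ≤ K ∧ ∀ Y : Fin 4 × Fin K → ℤ × ℤ, Function.Injective Y →
    (∀ u, 1 ≤ (Y u).1 ∧ IsCoprime (Y u).1 (Y u).2) →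
    (∀ p : ℕ, p.Prime → p ≤ 4 → ∃ r : ℤ, ∀ u, ¬ (p : ℤ) ∣ (Y u).1 * r + (Y u).2) →
    ∃ u v : Fin 4 × Fin K, u.1 ≠ v.1 ∧ Often (univ.image Y) {Y u, Y v} := by
  classical
  obtain ⟨c, hc, hc1, hU⟩ := mtE
  obtain ⟨K, hK, hU⟩ := hU 4 1 (by norm_num) (by push_cast; linarith)
  set Q : ℕ := (4 * K).factorial with hQ
  have hQ0 : 0 < Q := Nat.factorial_pos _
  refine ⟨Q * Q * K, Nat.mul_pos (Nat.mul_pos hQ0 hQ0) hK, fun X hX hXf hloc => ?_⟩
  obtain ⟨c, hcinj, hc1, hc2⟩ := const_blocks (K := K) hQ0 X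
  set Y : Fin 4 × Fin K → ℤ × ℤ := fun u => X (c u) with hY
  have hloc' := local_ok Y (fun u => (hXf _).2) hc2 (fun p hp hp4 => by
    obtain ⟨r, hr⟩ := hloc p hp hp4
    exact ⟨r, fun u => hr _⟩) (fun p hp hpK => Nat.dvd_factorial hp.pos hpK)
  obtain ⟨W, hW, hgood⟩ := hU (univ.image Y) (by
      intro f hf
      obtain ⟨u, -, rfl⟩ := mem_image.1 hf
      exact hXf _) (by
      intro p hp hpK
      obtain ⟨r, hr⟩ := hloc' p hp hpK
      refine ⟨r, ?_⟩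
      intro f hf
      obtain ⟨u, -, rfl⟩ := mem_image.1 hf
      exact hr u) Y (hX.comp hcinj) (fun u => mem_image_of_mem _ (mem_univ _))
  obtain ⟨u, hu, v, hv, huv⟩ := two_blocks W hW
  refine ⟨c u, c v, by rw [hc1, hc1]; exact huv, ?_⟩
  refine often_mono (V' := univ.image Y) ?_ (often_anti _ _ ?_ hgood)
  · intro x hx
    obtain ⟨w, -, rfl⟩ := mem_image.1 hx
    exact mem_image_of_mem _ (mem_univ _)
  · intro x hx
    rw [mem_insert, mem_singleton] at hx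
    rcases hx with rfl | rfl
    · exact mem_image_of_mem _ hu
    · exact mem_image_of_mem _ hv

open Classical in
/-- `d` is the difference of two consecutive primes, the first of which is at most `N`, at least
`N ^ (1 - η)` times, for every `η > 0` and arbitrarily large `N` -/
def FGap (d : ℕ) : Prop := ∀ η : ℝ, 0 < η → ∃ᶠ N : ℕ in atTop, (N : ℝ) ^ (1 - η) ≤
  (((Icc 1 N).filter (fun n : ℕ => n.Prime ∧ (n + d).Prime ∧ ∀ m, n < m → m < n + d → ¬ m.Prime)).card : ℝ)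

/-- two points at a distance which is a frequent gap -/
def AdjG (x y : ℕ) : Prop := FGap (max x y - min x y)

theorem adjG_symm (x y : ℕ) (h : AdjG x y) : AdjG y x := by
  unfold AdjG at *
  rwa [max_comm, min_comm]

theorem pow_shift {η : ℝ} (hη : 0 < η) : ∀ᶠ N : ℕ in atTop,
    ((2 * N : ℕ) : ℝ) ^ (1 - η) ≤ (N : ℝ) ^ (1 - η / 2) := by
  have h1 : ∀ᶠ N : ℕ in atTop, (2 : ℝ) ≤ (N : ℝ) ^ (η / 2) :=
    ((tendsto_rpow_atTop (by positivity)).comp tendsto_natCast_atTop_atTop).eventually_ge_atTop _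
  filter_upwards [h1, eventually_ge_atTop 1] with N hN1 hN2
  have hNr : (1 : ℝ) ≤ N := by exact_mod_cast hN2
  have h2 : (N : ℝ) ^ (1 - η / 2) = (N : ℝ) ^ (1 - η) * (N : ℝ) ^ (η / 2) := by
    rw [← Real.rpow_add (by linarith)]
    congr 1
    ring
  rw [h2]
  push_cast
  rw [Real.mul_rpow (by norm_num) (by linarith), mul_comm]
  refine mul_le_mul_of_nonneg_left ?_ (Real.rpow_nonneg (by linarith) _)
  refine le_trans ?_ hN1
  calc (2 : ℝ) ^ (1 - η) ≤ 2 ^ (1 : ℝ) := Real.rpow_le_rpow_of_exponent_le (by norm_num) (by linarith)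
    _ = 2 := Real.rpow_one _

/-- **Shifts: gaps between consecutive primes.** -/
theorem nhC : ∃ K : ℕ, 1 ≤ K ∧ ∀ X : Fin 4 × Fin K → ℕ, Function.Injective X →
    (∀ p : ℕ, p.Prime → p ≤ 4 → ∃ r : ℤ, ∀ u, ¬ (p : ℤ) ∣ r + X u) →
    ∃ u v : Fin 4 × Fin K, u.1 ≠ v.1 ∧ AdjG (X u) (X v) := by
  classical
  obtain ⟨c, hc, hc1, hU⟩ := exactInf
  obtain ⟨K, hK, hU⟩ := hU 4 1 (by norm_num) (by push_cast; linarith)
  set Q : ℕ := (4 * K).factorial with hQ
  have hQ0 : 0 < Q := Nat.factorial_pos _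
  refine ⟨Q * Q * K, Nat.mul_pos (Nat.mul_pos hQ0 hQ0) hK, fun X₀ hX₀ hloc₀ => ?_⟩
  set X : Fin 4 × Fin (Q * Q * K) → ℤ × ℤ := fun u => ((1 : ℤ), (X₀ u : ℤ)) with hX
  have hXinj : Function.Injective X := by
    intro u v h
    simp only [hX, Prod.mk.injEq, Nat.cast_inj, true_and] at h
    exact hX₀ h
  obtain ⟨c, hcinj, hc1, hc2⟩ := const_blocks (K := K) hQ0 X
  set Y : Fin 4 × Fin K → ℤ × ℤ := fun u => X (c u) with hY
  set y : Fin 4 × Fin K → ℕ := fun u => X₀ (c u) with hy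
  have hyinj : Function.Injective y := hX₀.comp hcinj
  have hloc' := local_ok Y (fun u => isCoprime_one_left) hc2 (fun p hp hp4 => by
    obtain ⟨r, hr⟩ := hloc₀ p hp hp4
    exact ⟨r, fun u => by
      have := hr (c u)
      have e : (Y u).1 * r + (Y u).2 = r + X₀ (c u) := by
        show (1 : ℤ) * r + (X₀ (c u) : ℤ) = _
        ring
      rwa [e]⟩) (fun p hp hpK => Nat.dvd_factorial hp.pos hpK)
  set M := ∑ u, y u with hM
  have hyM : ∀ u, y u ≤ M := fun u => Finset.single_le_sum (fun _ _ => Nat.zero_le _) (mem_univ u)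
  obtain ⟨W, hW, hW2⟩ := hU Y (hXinj.comp hcinj) (fun u => le_rfl) (fun u => isCoprime_one_left) hloc'
    (fun _ => ((range (M + 1)).filter (fun z => ∀ u, y u ≠ z)).image (fun z : ℕ => ((1 : ℤ), (z : ℤ)))) (by
    intro m z hz
    obtain ⟨z', hz', rfl⟩ := mem_image.1 hz
    refine ⟨le_rfl, fun u h => ?_⟩
    have h1 : ((1 : ℤ), (z' : ℤ)) = ((1 : ℤ), (y u : ℤ)) := h
    simp only [Prod.mk.injEq, Nat.cast_inj, true_and] at h1
    exact (mem_filter.1 hz').2 u h1.symm)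
  -- two consecutive hits in different blocks
  obtain ⟨u₁, hu₁, v₁, hv₁, huv₁⟩ := two_blocks W hW
  obtain ⟨u₀, hu₀, hmin⟩ := Finset.exists_min_image W y ⟨u₁, hu₁⟩
  have hne : (W.filter (fun v => v.1 ≠ u₀.1)).Nonempty := by
    by_contra hcon
    rw [not_nonempty_iff_eq_empty, filter_eq_empty_iff] at hcon
    have h1 := hcon hu₁
    have h2 := hcon hv₁
    push Not at h1 h2
    exact huv₁ (h1.trans h2.symm)
  obtain ⟨v, hv, hvmin⟩ := Finset.exists_min_image _ y hne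
  obtain ⟨hvW, hvu⟩ := mem_filter.1 hv
  have hne2 : (W.filter (fun w => y w < y v)).Nonempty := by
    refine ⟨u₀, mem_filter.2 ⟨hu₀, ?_⟩⟩
    refine lt_of_le_of_ne (hmin v hvW) ?_
    intro h
    exact hvu (by rw [hyinj h])
  obtain ⟨u, hu, humax⟩ := Finset.exists_max_image _ y hne2
  obtain ⟨huW, huv⟩ := mem_filter.1 hu
  have hu1 : u.1 = u₀.1 := by
    by_contra hcon
    exact absurd (hvmin u (mem_filter.2 ⟨huW, hcon⟩)) (not_le.2 huv)
  refine ⟨c u, c v, ?_, ?_⟩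
  · rw [hc1, hc1, hu1]
    exact Ne.symm hvu
  · show FGap (max (y u) (y v) - min (y u) (y v))
    rw [max_eq_right huv.le, min_eq_left huv.le]
    intro η hη
    obtain ⟨m, hm1, hm2⟩ := (hW2.and_eventually (pow_comp (half_pos hη))).exists
    have hfr := hm1.and_eventually ((eventually_ge_atTop 1).and
      ((eventually_ge_atTop (y u)).and (pow_shift hη)))
    have h2 : ∃ᶠ N : ℕ in atTop, ((2 * N : ℕ) : ℝ) ^ (1 - η) ≤
        (((Icc 1 (2 * N)).filter (fun n : ℕ => n.Prime ∧ (n + (y v - y u)).Prime ∧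
          ∀ m, n < m → m < n + (y v - y u) → ¬ m.Prime)).card : ℝ) := by
      refine hfr.mono ?_
      rintro N ⟨hN1, hN2, hN3, hN4⟩
      refine hN4.trans ((hm2 N hN2).trans (hN1.trans ?_))
      rw [Nat.cast_le]
      refine Finset.card_le_card_of_injOn (fun n => n + y u) ?_ (fun a _ b _ h => by simpa using h)
      intro n hn
      unfold Pts at hn
      rw [mem_coe, mem_filter, mem_Icc] at hn
      obtain ⟨⟨hn1, hn2⟩, hn3, hn4⟩ := hn
      have hPr : ∀ z : ℕ, Pr ((1 : ℤ), (z : ℤ)) n ↔ (n + z).Prime := by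
        intro z
        unfold Pr
        have : ((1 : ℤ) * (n : ℤ) + (z : ℤ)).toNat = n + z := by
          rw [one_mul]
          omega
        simp only [this]
      rw [mem_coe, mem_filter, mem_Icc]
      show (1 ≤ n + y u ∧ n + y u ≤ 2 * N) ∧ (n + y u).Prime ∧ (n + y u + (y v - y u)).Prime ∧
        ∀ m, n + y u < m → m < n + y u + (y v - y u) → ¬ m.Prime
      refine ⟨⟨by omega, by omega⟩, ?_, ?_, ?_⟩
      · exact (hPr _).1 ((hn3 u).2 huW)
      · have h5 := (hPr _).1 ((hn3 v).2 hvW)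
        have h6 : n + y u + (y v - y u) = n + y v := by omega
        rwa [h6]
      · intro m hm1 hm2 hmp
        obtain ⟨z, rfl⟩ : ∃ z, m = n + z := ⟨m - n, by omega⟩
        by_cases hz : ∃ w, y w = z
        · obtain ⟨w, rfl⟩ := hz
          have h5 : w ∈ W := (hn3 w).1 ((hPr _).2 hmp)
          have h6 := humax w (mem_filter.2 ⟨h5, by omega⟩)
          omega
        · push Not at hz
          refine hn4 ((1 : ℤ), (z : ℤ)) ?_ ((hPr z).2 hmp)
          refine mem_image.2 ⟨z, mem_filter.2 ⟨mem_range.2 ?_, hz⟩, rfl⟩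
          have := hyM v
          omega
    have htend : Tendsto (fun N : ℕ => 2 * N) atTop atTop :=
      tendsto_atTop_mono (fun N => (by omega : N ≤ 2 * N)) tendsto_id
    exact htend.frequently h2

end Pool.Agent.Run7.h166.TS
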