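import Mathlib
import Pool.Agent.Run7.h166.TS.PairsMT

/-!
# Three paths of gaps between consecutive primes
-/

set_option autoImplicit false

namespace Pool.Agent.Run7.h166.TS

open Filter Finset

theorem nh_shifts : ∃ K : ℕ, 1 ≤ K ∧ ∀ V : Finset ℕ,
    (∀ p : ℕ, p.Prime → p ≤ 4 → ∃ r : ℕ, ∀ v ∈ V, ¬ v ≡ r [MOD p]) → NH AdjG V 3 K := by
  obtain ⟨K, hK, h⟩ := nhC
  refine ⟨K, hK, fun V hV X hX hXV => ?_⟩
  refine h X hX ?_
  intro p hp hp4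
  obtain ⟨r, hr⟩ := hV p hp hp4
  refine ⟨-(r : ℤ), fun u hd => hr _ (hXV u) ?_⟩
  have h1 : (p : ℤ) ∣ (X u : ℤ) - r := by
    have : -(r : ℤ) + X u = (X u : ℤ) - r := by ring
    rwa [this] at hd
  exact (Nat.modEq_iff_dvd.2 h1).symm

/-- **Finite sets.** -/
theorem three_lists : ∃ C : ℕ, ∀ V : Finset ℕ,
    (∀ p : ℕ, p.Prime → p ≤ 4 → ∃ r : ℕ, ∀ v ∈ V, ¬ v ≡ r [MOD p]) →
    ∃ e : Fin 3 → List ℕ, Paths AdjG V e ∧ (V.filter (fun x => ∀ i, x ∉ e i)).card ≤ C := by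
  obtain ⟨K, hK, h⟩ := nh_shifts
  refine ⟨(3 + 1) * K * (2 * K), fun V hV => ?_⟩
  obtain ⟨e, he, hc⟩ := path_cover adjG_symm hK (h V hV) id Function.injective_id
  exact ⟨e, he, hc.le⟩

/-- **Infinite sets.** -/
theorem three_rays (V : Set ℕ) (hV : V.Infinite)
    (hloc : ∀ p : ℕ, p.Prime → p ≤ 4 → ∃ r : ℕ, {v ∈ V | v ≡ r [MOD p]}.Finite) :
    ∃ e : Fin 3 → ℕ → ℕ, (∀ i n, e i n ∈ V) ∧ Function.Injective (fun p : Fin 3 × ℕ => e p.1 p.2) ∧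
      (V \ Set.range (fun p : Fin 3 × ℕ => e p.1 p.2)).Finite ∧ ∀ i n, AdjG (e i n) (e i (n + 1)) := by
  classical
  obtain ⟨K, hK, h⟩ := nhC
  set v : ℕ → ℕ := Nat.nth (· ∈ V) with hv
  have hVinf : (Set.ofPred (· ∈ V)).Infinite := hV
  have hvm : StrictMono v := Nat.nth_strictMono hVinf
  have hvV : ∀ n, v n ∈ V := fun n => Nat.nth_mem_of_infinite hVinf n
  have hvs : ∀ x ∈ V, ∃ n, v n = x := fun x hx => ⟨Nat.count (· ∈ V) x, Nat.nth_count hx⟩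
  choose! r hr using hloc
  obtain ⟨n₀, hn₀⟩ : ∃ n₀ : ℕ, ∀ p : ℕ, p.Prime → p ≤ 4 → ∀ n, n₀ ≤ n → ¬ v n ≡ r p [MOD p] := by
    have h1 : ∀ᶠ n in atTop, ∀ p ∈ (range 5).filter Nat.Prime, ¬ v n ≡ r p [MOD p] := by
      rw [Filter.eventually_all_finset]
      intro p hp
      obtain ⟨h1, h2⟩ := mem_filter.1 hp
      have h3 : (v ⁻¹' {x ∈ V | x ≡ r p [MOD p]}).Finite :=
        (hr p h2 (by have := mem_range.1 h1; omega)).preimage hvm.injective.injOn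
      have h4 := h3.eventually_cofinite_notMem
      rw [Nat.cofinite_eq_atTop] at h4
      filter_upwards [h4] with n hn hd
      exact hn ⟨hvV n, hd⟩
    obtain ⟨n₀, hn₀⟩ := eventually_atTop.1 h1
    exact ⟨n₀, fun p hp hp4 n hn => hn₀ n hn p (mem_filter.2 ⟨mem_range.2 (by omega), hp⟩)⟩
  have hNH : NHω (fun i j => AdjG (v i) (v j)) 3 K n₀ := by
    intro X hX hXn
    refine h (fun u => v (X u)) (hvm.injective.comp hX) ?_
    intro p hp hp4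
    refine ⟨-(r p : ℤ), fun u hd => hn₀ p hp hp4 (X u) (hXn u) ?_⟩
    have h1 : (p : ℤ) ∣ (v (X u) : ℤ) - r p := by
      have : -(r p : ℤ) + v (X u) = (v (X u) : ℤ) - r p := by ring
      rwa [this] at hd
    exact (Nat.modEq_iff_dvd.2 h1).symm
  obtain ⟨e, he1, he2, he3⟩ := rays (fun i j hij => adjG_symm _ _ hij) (by norm_num) hNH
  refine ⟨fun i n => v (e i n), fun i n => hvV _, hvm.injective.comp he1, ?_, he3⟩
  refine (he2.image v).subset ?_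
  rintro x ⟨hx1, hx2⟩
  obtain ⟨n, rfl⟩ := hvs x hx1
  refine ⟨n, ?_, rfl⟩
  rintro ⟨p, hp⟩
  exact hx2 ⟨p, by simp only at hp ⊢; rw [hp]⟩

end Pool.Agent.Run7.h166.TS
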