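import Mathlib
import Pool.Agent.Run7.h166.TS.ThreeP
import Pool.Agent.Run7.h166.TS.FinE

/-!
# Multipliers: any set of positive integers in three lists
-/

set_option autoImplicit false

namespace Pool.Agent.Run7.h166.TS

open Filter Finset

open Classical in
/-- the numbers `v n + c`, `v ∈ w`, are prime, and `u n + c` is not for `1 ≤ u ≤ R`, `u ∉ V`, many times -/
def Car (c : ℤ) (V : Set ℕ) (w : Finset ℕ) : Prop := ∀ R : ℕ, ∀ η : ℝ, 0 < η → ∃ᶠ N : ℕ in atTop,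
  (N : ℝ) ^ (1 - η) ≤ (((Icc 1 N).filter (fun n : ℕ => (∀ v ∈ w, ((v : ℤ) * n + c).toNat.Prime) ∧
    ∀ u : ℕ, 1 ≤ u → u ≤ R → u ∉ V → ¬ ((u : ℤ) * n + c).toNat.Prime)).card : ℝ)

/-- the linear form of a multiplier -/
def mf (c : ℤ) (v : ℕ) : ℤ × ℤ := ((v : ℤ), c)

theorem mf_inj (c : ℤ) : Function.Injective (mf c) := by
  intro a b h
  simp only [mf, Prod.mk.injEq, Nat.cast_inj, and_true] at h
  exact h

theorem car_of {c : ℤ} {V : Set ℕ} {w : Finset ℕ} {V' : Finset (ℤ × ℤ)} (hV : ∀ z ∈ V', ∃ v ∈ V, z = mf c v)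
    (h : Often V' (w.image (mf c))) : Car c V w := by
  classical
  intro R η hη
  refine (h (((Icc 1 R).filter (fun u => u ∉ V)).image (mf c)) ?_ η hη).mono fun N hN => hN.trans ?_
  · intro z hz
    obtain ⟨u, hu, rfl⟩ := mem_image.1 hz
    obtain ⟨h1, h2⟩ := mem_filter.1 hu
    refine ⟨by have := (mem_Icc.1 h1).1; show (1 : ℤ) ≤ (u : ℤ); exact_mod_cast this, fun h3 => ?_⟩
    obtain ⟨v, hv, hv'⟩ := hV _ h3
    rw [mf_inj c hv'] at h2
    exact h2 hv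
  · rw [Nat.cast_le]
    refine card_le_card (monotone_filter_right _ ?_)
    intro n _ hn
    refine ⟨fun v hv => hn.1 _ (mem_image_of_mem _ hv), fun u hu1 hu2 hu3 => ?_⟩
    exact hn.2 _ (mem_image_of_mem _ (mem_filter.2 ⟨mem_Icc.2 ⟨hu1, hu2⟩, hu3⟩))

theorem mf_local {c : ℤ} {p : ℕ} (hp : p.Prime) : ∃ r : ℤ, ∀ v : ℕ, IsCoprime (v : ℤ) c →
    ¬ (p : ℤ) ∣ (mf c v).1 * r + (mf c v).2 := by
  have hpz : Prime (p : ℤ) := Nat.prime_iff_prime_int.1 hp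
  by_cases hpc : (p : ℤ) ∣ c
  · refine ⟨1, fun v hv hd => ?_⟩
    simp only [mf, mul_one] at hd
    have h1 : (p : ℤ) ∣ (v : ℤ) := (dvd_add_left hpc).1 hd
    obtain ⟨x, y, hxy⟩ := hv
    exact hpz.not_dvd_one (hxy ▸ dvd_add (h1.mul_left x) (hpc.mul_left y))
  · refine ⟨0, fun v _ hd => ?_⟩
    simp only [mf, mul_zero, zero_add] at hd
    exact hpc hd

theorem car_symm (c : ℤ) (V : Set ℕ) (x y : ℕ) (h : Car c V {x, y}) : Car c V {y, x} := by
  rwa [pair_comm]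

/-- **Finite sets of multipliers, pairs.** -/
theorem mul_lists : ∃ C : ℕ, ∀ c : ℤ, ∀ V : Finset ℕ, (∀ v ∈ V, 1 ≤ v ∧ IsCoprime (v : ℤ) c) →
    ∃ e : Fin 3 → List ℕ, Paths (fun x y => Car c (V : Set ℕ) {x, y}) V e ∧
      (V.filter (fun x => ∀ i, x ∉ e i)).card ≤ C := by
  classical
  obtain ⟨K, hK, h⟩ := nhE
  refine ⟨(3 + 1) * K * (2 * K), fun c V hV => ?_⟩
  obtain ⟨e, he, hc⟩ := path_cover (r := 3) (adj := fun x y => Car c (V : Set ℕ) {x, y})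
    (fun x y hxy => car_symm _ _ _ _ hxy) hK (V := V) (by
    intro X hX hXV
    obtain ⟨u, v, huv, hO⟩ := h (fun u => mf c (X u)) ((mf_inj c).comp hX)
      (fun u => ⟨by show (1 : ℤ) ≤ (X u : ℤ); exact_mod_cast (hV _ (hXV u)).1, (hV _ (hXV u)).2⟩) (by
        intro p hp _
        obtain ⟨r, hr⟩ := mf_local (c := c) hp
        exact ⟨r, fun u => hr _ (hV _ (hXV u)).2⟩)
    refine ⟨u, v, huv, ?_⟩
    refine car_of (V' := univ.image (fun u => mf c (X u))) ?_ ?_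
    · intro z hz
      obtain ⟨u, -, rfl⟩ := mem_image.1 hz
      exact ⟨X u, hXV u, rfl⟩
    · rw [image_insert, image_singleton]
      exact hO) id Function.injective_id
  exact ⟨e, he, hc.le⟩

/-- **Finite sets of multipliers, windows.** -/
theorem mul_windows (k : ℕ) : ∃ C : ℕ, ∀ c : ℤ, ∀ V : Finset ℕ, (∀ v ∈ V, 1 ≤ v ∧ IsCoprime (v : ℤ) c) →
    ∃ e : Fin 3 → List ℕ, (∀ i, (e i).Nodup) ∧ (∀ i j, i ≠ j → List.Disjoint (e i) (e j)) ∧
      (∀ i, ∀ x ∈ e i, x ∈ V) ∧ (V.filter (fun x => ∀ i, x ∉ e i)).card ≤ C ∧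
      ∀ i, ∀ w : List ℕ, w <:+: e i → w ≠ [] → w.length ≤ k → Car c (V : Set ℕ) w.toFinset := by
  classical
  obtain ⟨C, B, hC⟩ := finE k
  refine ⟨C, fun c V hV => ?_⟩
  obtain ⟨e, h1, h2, h3, h4, h5⟩ := hC (V.image (mf c)) (by
    intro f hf
    obtain ⟨v, hv, rfl⟩ := mem_image.1 hf
    exact ⟨by show (1 : ℤ) ≤ (v : ℤ); exact_mod_cast (hV v hv).1, (hV v hv).2⟩) (by
    intro p hp _
    obtain ⟨r, hr⟩ := mf_local (c := c) hp
    refine ⟨r, fun f hf => ?_⟩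
    obtain ⟨v, hv, rfl⟩ := mem_image.1 hf
    exact hr v (hV v hv).2)
  -- back to the multipliers
  set g : ℤ × ℤ → ℕ := fun z => z.1.toNat with hg
  have hgm : ∀ v, g (mf c v) = v := fun v => rfl
  have hmg : ∀ i, ∀ z ∈ e i, mf c (g z) = z := by
    intro i z hz
    obtain ⟨v, hv, rfl⟩ := mem_image.1 (h3 i z hz)
    rw [hgm]
  refine ⟨fun i => (e i).map g, fun i => ?_, fun i j hij => ?_, fun i x hx => ?_, ?_, fun i w hw hw0 hwk => ?_⟩
  · refine (h1 i).map_on ?_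
    intro x hx y hy hxy
    rw [← hmg i x hx, ← hmg i y hy, hxy]
  · intro x hx hy
    obtain ⟨z, hz, rfl⟩ := List.mem_map.1 hx
    obtain ⟨z', hz', hzz⟩ := List.mem_map.1 hy
    have : z = z' := by rw [← hmg i z hz, ← hmg j z' hz', hzz]
    exact h2 i j hij hz (this ▸ hz')
  · obtain ⟨z, hz, rfl⟩ := List.mem_map.1 hx
    obtain ⟨v, hv, rfl⟩ := mem_image.1 (h3 i z hz)
    exact hv
  · refine le_trans ?_ h4
    rw [← card_image_of_injective _ (mf_inj c)]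
    refine card_le_card ?_
    intro z hz
    obtain ⟨x, hx, rfl⟩ := mem_image.1 hz
    obtain ⟨hx1, hx2⟩ := mem_filter.1 hx
    refine mem_filter.2 ⟨mem_image_of_mem _ hx1, fun i hi => ?_⟩
    exact hx2 i (List.mem_map.2 ⟨_, hi, rfl⟩)
  · -- windows
    obtain ⟨w', hw', hww⟩ : ∃ w' : List (ℤ × ℤ), w' <:+: e i ∧ w = w'.map g := by
      obtain ⟨s, t, hst⟩ := hw
      rw [List.append_assoc] at hst
      obtain ⟨s', r', hsr, hs', hr'⟩ := List.map_eq_append_iff.1 hst.symm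
      obtain ⟨w', t', hwt, hw', ht'⟩ := List.map_eq_append_iff.1 hr'
      exact ⟨w', ⟨s', t', by rw [hsr, hwt, List.append_assoc]⟩, hw'.symm⟩
    subst hww
    have hw1 := h5 i w' hw' (fun h => hw0 (by rw [h]; rfl)) (by rwa [List.length_map] at hwk)
    refine car_of (V' := V.image (mf c)) ?_ ?_
    · intro z hz
      obtain ⟨v, hv, rfl⟩ := mem_image.1 hz
      exact ⟨v, hv, rfl⟩
    · have : (w'.map g).toFinset.image (mf c) = w'.toFinset := by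
        ext z
        simp only [mem_image, List.mem_toFinset, List.mem_map]
        constructor
        · rintro ⟨x, ⟨z', hz', rfl⟩, rfl⟩
          rwa [hmg i z' (hw'.subset hz')]
        · intro hz
          exact ⟨g z, ⟨z, hz, rfl⟩, hmg i z (hw'.subset hz)⟩
      rw [this]
      exact hw1

/-- **Infinite sets of multipliers.** -/
theorem mul_inf (c : ℤ) (V : Set ℕ) (hV : V.Infinite) (hVc : ∀ v ∈ V, 1 ≤ v ∧ IsCoprime (v : ℤ) c) :
    (∃ h : Fin 3 → ℕ → ℕ, (∀ i, StrictMono (h i)) ∧ (∀ i n, h i n ∈ V) ∧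
      Function.Injective (fun p : Fin 3 × ℕ => h p.1 p.2) ∧
      ∀ k : ℕ, {x ∈ V | ¬ ∃ i M, ∀ F : Finset ℕ, (∀ m ∈ F, M ≤ m) → F.card ≤ k →
        Car c V (insert x (F.image (h i)))}.Finite) ∧
    ∃ e : Fin 3 → ℕ → ℕ, (∀ i n, e i n ∈ V) ∧ Function.Injective (fun p : Fin 3 × ℕ => e p.1 p.2) ∧
      (V \ Set.range (fun p : Fin 3 × ℕ => e p.1 p.2)).Finite ∧
      ∀ k : ℕ, ∀ᶠ t in atTop, ∀ i, Car c V ((range k).image (fun j => e i (t + j))) := by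
  classical
  set v : ℕ → ℕ := Nat.nth (· ∈ V) with hv
  have hVinf : (Set.ofPred (· ∈ V)).Infinite := hV
  have hvm : StrictMono v := Nat.nth_strictMono hVinf
  have hvV : ∀ n, v n ∈ V := fun n => Nat.nth_mem_of_infinite hVinf n
  have hvs : ∀ x ∈ V, ∃ n, v n = x := fun x hx => ⟨Nat.count (· ∈ V) x, Nat.nth_count hx⟩
  obtain ⟨B, hB⟩ := forms
  have hadm : ∀ k, Adm (fun n => mf c (v n)) (B k) := by
    intro k p hp _
    obtain ⟨r, hr⟩ := mf_local (c := c) hp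
    exact ⟨r, Eventually.of_forall fun n => hr _ (hVc _ (hvV n)).2⟩
  obtain ⟨⟨h, hh1, hh2, hh3⟩, e, he1, he2, he3⟩ := hB (fun n => mf c (v n)) ((mf_inj c).comp hvm.injective)
    (fun n => by show (1 : ℤ) ≤ (v n : ℤ); exact_mod_cast (hVc _ (hvV n)).1) (fun n => (hVc _ (hvV n)).2)
    1 le_rfl (hadm 1)
  have hZ : ∀ R : ℕ, ∀ z ∈ ((Icc 1 R).filter (fun u => u ∉ V)).image (mf c),
      1 ≤ z.1 ∧ z ∉ Set.range (fun n => mf c (v n)) := by
    intro R z hz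
    obtain ⟨u, hu, rfl⟩ := mem_image.1 hz
    obtain ⟨h1, h2⟩ := mem_filter.1 hu
    refine ⟨by have := (mem_Icc.1 h1).1; show (1 : ℤ) ≤ (u : ℤ); exact_mod_cast this, ?_⟩
    rintro ⟨n, hn⟩
    rw [← mf_inj c hn] at h2
    exact h2 (hvV n)
  refine ⟨⟨fun i n => v (h i n), fun i => hvm.comp (hh1 i), fun i n => hvV _, hvm.injective.comp hh2,
    fun k => ?_⟩, fun i n => v (e i n), fun i n => hvV _, hvm.injective.comp he1, ?_, fun k => ?_⟩
  · obtain ⟨n₀, hn₀⟩ := eventually_atTop.1 (hh3 k (hadm k))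
    refine ((Set.finite_Iio n₀).image v).subset ?_
    rintro x ⟨hx1, hx2⟩
    obtain ⟨n, rfl⟩ := hvs x hx1
    refine ⟨n, ?_, rfl⟩
    by_contra hn
    obtain ⟨i, M, hM⟩ := hn₀ n (not_lt.1 hn)
    refine hx2 ⟨i, M, fun F hF1 hF2 R η hη => ?_⟩
    refine (hM F hF1 hF2 _ (hZ R) η hη).mono fun N hN => hN.trans ?_
    rw [Nat.cast_le]
    refine card_le_card (monotone_filter_right _ ?_)
    rintro n' _ ⟨h1, h2, h3⟩
    refine ⟨?_, fun u hu1 hu2 hu3 => h3 _ (mem_image_of_mem _ (mem_filter.2 ⟨mem_Icc.2 ⟨hu1, hu2⟩, hu3⟩))⟩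
    intro y hy
    rcases mem_insert.1 hy with rfl | hy
    · exact h1
    · obtain ⟨l, hl, rfl⟩ := mem_image.1 hy
      exact h2 l hl
  · refine (he2.image v).subset ?_
    rintro x ⟨hx1, hx2⟩
    obtain ⟨n, rfl⟩ := hvs x hx1
    refine ⟨n, ?_, rfl⟩
    rintro ⟨p, hp⟩
    exact hx2 ⟨p, by simp only at hp ⊢; rw [hp]⟩
  · filter_upwards [he3 k (hadm k)] with t ht i R η hη
    refine (ht i _ (hZ R) η hη).mono fun N hN => hN.trans ?_
    rw [Nat.cast_le]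
    refine card_le_card (monotone_filter_right _ ?_)
    rintro n' _ ⟨h1, h3⟩
    refine ⟨?_, fun u hu1 hu2 hu3 => h3 _ (mem_image_of_mem _ (mem_filter.2 ⟨mem_Icc.2 ⟨hu1, hu2⟩, hu3⟩))⟩
    intro y hy
    obtain ⟨j, hj, rfl⟩ := mem_image.1 hy
    exact h1 j (mem_range.1 hj)

end Pool.Agent.Run7.h166.TS
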