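import Mathlib
import Pool.Agent.Run7.h166.TS.Mul
import Pool.Agent.Run7.h166.TS.Fin3

/-!
# Multipliers at the scale `N`, and multipliers for `g q + b = v (g p + b)`
-/

set_option autoImplicit false

namespace Pool.Agent.Run7.h166.TS

open Filter Finset

/-- three lists which contain all but `C` elements of `V`, with good windows of length at most `k` -/
def L3 {α : Type} [DecidableEq α] (V : Finset α) (C k : ℕ) (P : Finset α → Prop) : Prop :=
  ∃ e : Fin 3 → List α, (∀ i, (e i).Nodup) ∧ (∀ i j, i ≠ j → List.Disjoint (e i) (e j)) ∧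
    (∀ i, ∀ x ∈ e i, x ∈ V) ∧ (∃ E : Finset α, E.card ≤ C ∧ ∀ x ∈ V, (∀ i, x ∉ e i) → x ∈ E) ∧
    ∀ i, ∀ w : List α, w <:+: e i → w ≠ [] → w.length ≤ k → P w.toFinset

theorem transfer {φ : ℕ → ℤ × ℤ} (hφ : Function.Injective φ) (V : Finset ℕ) (C k : ℕ)
    (P : Finset (ℤ × ℤ) → Prop) (h : L3 (V.image φ) C k P) : L3 V C k (fun w => P (w.image φ)) := by
  classical
  obtain ⟨e, h1, h2, h3, ⟨E, hE, h4⟩, h5⟩ := h
  set g : ℤ × ℤ → ℕ := Function.invFun φ with hg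
  have hgm : ∀ v, g (φ v) = v := Function.leftInverse_invFun hφ
  have hmg : ∀ i, ∀ z ∈ e i, φ (g z) = z := by
    intro i z hz
    obtain ⟨v, hv, rfl⟩ := mem_image.1 (h3 i z hz)
    rw [hgm]
  refine ⟨fun i => (e i).map g, fun i => ?_, fun i j hij => ?_, fun i x hx => ?_, ?_, fun i w hw hw0 hwk => ?_⟩
  · refine (h1 i).map_on ?_
    intro x hx y hy hxy
    rw [← hmg i x hx, ← hmg i y hy, hxy]
  · intro x hx hy
    obtain ⟨z, hz, rfl⟩ := List.mem_map.1 hx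
    obtain ⟨z', hz', hzz⟩ := List.mem_map.1 hy
    have : z = z' := by rw [← hmg i z hz, ← hmg j z' hz', hzz]
    exact h2 i j hij hz (this ▸ hz')
  · obtain ⟨z, hz, rfl⟩ := List.mem_map.1 hx
    obtain ⟨v, hv, rfl⟩ := mem_image.1 (h3 i z hz)
    rw [hgm]
    exact hv
  · refine ⟨E.image g, card_image_le.trans hE, fun x hx1 hx2 => ?_⟩
    refine mem_image.2 ⟨φ x, h4 _ (mem_image_of_mem _ hx1) (fun i hi => ?_), hgm x⟩
    exact hx2 i (List.mem_map.2 ⟨_, hi, hgm x⟩)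
  · obtain ⟨w', hw', hww⟩ : ∃ w' : List (ℤ × ℤ), w' <:+: e i ∧ w = w'.map g := by
      obtain ⟨s, t, hst⟩ := hw
      rw [List.append_assoc] at hst
      obtain ⟨s', r', hsr, hs', hr'⟩ := List.map_eq_append_iff.1 hst.symm
      obtain ⟨w', t', hwt, hw', ht'⟩ := List.map_eq_append_iff.1 hr'
      exact ⟨w', ⟨s', t', by rw [hsr, hwt, List.append_assoc]⟩, hw'.symm⟩
    subst hww
    have hw1 := h5 i w' hw' (fun h => hw0 (by rw [h]; rfl)) (by rwa [List.length_map] at hwk)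
    have : (w'.map g).toFinset.image φ = w'.toFinset := by
      ext z
      simp only [mem_image, List.mem_toFinset, List.mem_map]
      constructor
      · rintro ⟨x, ⟨z', hz', rfl⟩, rfl⟩
        rwa [hmg i z' (hw'.subset hz')]
      · intro hz
        exact ⟨g z, ⟨z, hz, rfl⟩, hmg i z (hw'.subset hz)⟩
    show P _
    rw [this]
    exact hw1

/-- **Multipliers at the scale `N`.** -/
theorem mulN (k : ℕ) : ∃ C : ℕ, ∀ (A : ℕ) (η : ℝ), 0 < η → ∀ᶠ N : ℕ in atTop,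
    ∀ c : ℤ, 60 * |c| ≤ N → ∀ V : Finset ℕ, (∀ v ∈ V, 1 ≤ v ∧ v ≤ A ∧ IsCoprime (v : ℤ) c) →
    L3 V C k (fun w => Many N η (w.image (mf c))) := by
  classical
  obtain ⟨C, B, hC⟩ := fin3 k
  refine ⟨C, fun A η hη => ?_⟩
  filter_upwards [hC A η hη] with N hN c hc V hV
  refine transfer (mf_inj c) V C k _ ?_
  obtain ⟨e, h1, h2, h3, h4, h5⟩ := hN (V.image (mf c)) (by
    intro f hf
    obtain ⟨v, hv, rfl⟩ := mem_image.1 hf
    obtain ⟨h1, h2, h3⟩ := hV v hv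
    have hcr : (60 : ℝ) * |(c : ℝ)| ≤ N := by exact_mod_cast hc
    refine ⟨?_, ?_, h3, ?_, ?_⟩
    · show (v : ℤ) ≠ 0
      omega
    · show |(v : ℤ)| ≤ A
      rw [Nat.abs_cast]
      exact_mod_cast h2
    · show 5 * |c| ≤ 6 * (N : ℤ)
      omega
    · intro y hy1 hy2
      show (N : ℝ) / 30 ≤ ((v : ℤ) : ℝ) * y + (c : ℝ)
      have hv1 : (1 : ℝ) ≤ ((v : ℤ) : ℝ) := by exact_mod_cast h1
      have hN0 : (0 : ℝ) ≤ N := Nat.cast_nonneg _
      have hy0 : 0 ≤ y := le_trans (by positivity) hy1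
      have h4 := neg_abs_le (c : ℝ)
      have h5 : y ≤ ((v : ℤ) : ℝ) * y := by nlinarith
      linarith) (by
    intro p hp _
    obtain ⟨r, hr⟩ := mf_local (c := c) hp
    refine ⟨r, fun f hf => ?_⟩
    obtain ⟨v, hv, rfl⟩ := mem_image.1 hf
    exact hr v (hV v hv).2.2)
  exact ⟨e, h1, h2, h3, ⟨_, h4, fun x hx hx' => mem_filter.2 ⟨hx, hx'⟩⟩, fun i w hw _ hwk => h5 i w hw hwk⟩

/-- the linear form of the solution of `g q + b = (1 + g u) (g p + b)` -/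
def gf (g b : ℤ) (u : ℕ) : ℤ × ℤ := (1 + g * u, b * u)

theorem gf_inj {g : ℤ} (hg : 1 ≤ g) (b : ℤ) : Function.Injective (gf g b) := by
  intro x y h
  simp only [gf, Prod.mk.injEq] at h
  have h1 : g * (x : ℤ) = g * y := by linarith [h.1]
  have h2 := mul_left_cancel₀ (by omega : g ≠ 0) h1
  exact_mod_cast h2

theorem gf_ok {g b : ℤ} (hg : 1 ≤ g) (u : ℕ) (hu : IsCoprime (1 + g * u) b) :
    1 ≤ (gf g b u).1 ∧ IsCoprime (gf g b u).1 (gf g b u).2 := by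
  have h0 : 0 ≤ g * (u : ℤ) := mul_nonneg (by omega) (Int.natCast_nonneg u)
  refine ⟨by show 1 ≤ 1 + g * (u : ℤ); omega, ?_⟩
  exact IsCoprime.mul_right hu ⟨1, -g, by show 1 * (1 + g * (u : ℤ)) + -g * (u : ℤ) = 1; ring⟩

theorem gf_local {g b : ℤ} (hgb : IsCoprime g b) {p : ℕ} (hp : p.Prime) (U : Finset ℕ)
    (hU : ∀ u ∈ U, IsCoprime (1 + g * (u : ℤ)) b)
    (h : (p : ℤ) ∣ g → ∃ c : ℕ, ∀ u ∈ U, ¬ u ≡ c [MOD p]) :
    ∃ r : ℤ, ∀ u ∈ U, ¬ (p : ℤ) ∣ (gf g b u).1 * r + (gf g b u).2 := by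
  have hpz : Prime (p : ℤ) := Nat.prime_iff_prime_int.1 hp
  by_cases hpg : (p : ℤ) ∣ g
  · have hpb : ¬ (p : ℤ) ∣ b := by
      intro h'
      obtain ⟨x, y, hxy⟩ := hgb
      exact hpz.not_dvd_one (hxy ▸ dvd_add (hpg.mul_left x) (h'.mul_left y))
    obtain ⟨c, hc⟩ := h hpg
    refine ⟨-(b * c), fun u hu hd => ?_⟩
    have h1 : (p : ℤ) ∣ b * ((u : ℤ) - c) := by
      have e : b * ((u : ℤ) - c) = ((gf g b u).1 * -(b * c) + (gf g b u).2) + g * (u * (b * c)) := by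
        simp only [gf]
        ring
      rw [e]
      exact dvd_add hd (hpg.mul_right _)
    have h2 := (hpz.dvd_or_dvd h1).resolve_left hpb
    exact hc u hu (Nat.modEq_iff_dvd.2 h2).symm
  · by_cases hpb : (p : ℤ) ∣ b
    · refine ⟨1, fun u hu hd => ?_⟩
      simp only [gf, mul_one] at hd
      have h1 : (p : ℤ) ∣ 1 + g * u := (dvd_add_left (hpb.mul_right _)).1 hd
      obtain ⟨x, y, hxy⟩ := hU u hu
      exact hpz.not_dvd_one (hxy ▸ dvd_add (h1.mul_left x) (hpb.mul_left y))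
    · have hcop : IsCoprime g (p : ℤ) := ((Prime.coprime_iff_not_dvd hpz).2 hpg).symm
      obtain ⟨x, y, hxy⟩ := hcop
      refine ⟨-(x * b), fun u hu hd => ?_⟩
      simp only [gf] at hd
      have h3 : (p : ℤ) ∣ b := by
        have e : b = -(g * ((1 + g * u) * -(x * b) + b * u)) + (1 + g * u) * (p * (y * b)) := by
          have hx : x * g = 1 - y * p := by linarith
          have e2 : -(g * ((1 + g * u) * -(x * b) + b * u)) = (x * g) * (b * (1 + g * u)) - g * u * b := by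
            ring
          rw [e2, hx]
          ring
        rw [e]
        exact dvd_add ((hd.mul_left g).neg_right) ((dvd_mul_right (p : ℤ) _).mul_left _)
      exact hpb h3

open Classical in
/-- the numbers `(1 + g u) n + b u`, `u ∈ w`, are prime for many `n`, and `(1 + g u) n + b u` is not for `u ≤ R`
outside `V` -/
def Cag (g b : ℤ) (V : Set ℕ) (w : Finset ℕ) : Prop := ∀ R : ℕ, ∀ η : ℝ, 0 < η → ∃ᶠ N : ℕ in atTop,
  (N : ℝ) ^ (1 - η) ≤ (((Icc 1 N).filter (fun n : ℕ => (∀ u ∈ w, ((1 + g * u) * n + b * u : ℤ).toNat.Prime) ∧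
    ∀ u : ℕ, u ≤ R → u ∉ V → ¬ ((1 + g * u) * n + b * u : ℤ).toNat.Prime)).card : ℝ)

theorem cag_of {g b : ℤ} (hg : 1 ≤ g) {V : Set ℕ} {w : Finset ℕ} {V' : Finset (ℤ × ℤ)}
    (hV : ∀ z ∈ V', ∃ v ∈ V, z = gf g b v) (h : Often V' (w.image (gf g b))) : Cag g b V w := by
  classical
  intro R η hη
  refine (h (((range (R + 1)).filter (fun u => u ∉ V)).image (gf g b)) ?_ η hη).mono fun N hN => hN.trans ?_
  · intro z hz
    obtain ⟨u, hu, rfl⟩ := mem_image.1 hz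
    obtain ⟨h1, h2⟩ := mem_filter.1 hu
    have h0 : 0 ≤ g * (u : ℤ) := mul_nonneg (by omega) (Int.natCast_nonneg u)
    refine ⟨by show 1 ≤ 1 + g * (u : ℤ); omega, fun h3 => ?_⟩
    obtain ⟨v, hv, hv'⟩ := hV _ h3
    rw [gf_inj hg b hv'] at h2
    exact h2 hv
  · rw [Nat.cast_le]
    refine card_le_card (monotone_filter_right _ ?_)
    intro n _ hn
    refine ⟨fun v hv => hn.1 _ (mem_image_of_mem _ hv), fun u hu2 hu3 => ?_⟩
    exact hn.2 _ (mem_image_of_mem _ (mem_filter.2 ⟨mem_range.2 (by omega), hu3⟩))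

/-- **Multipliers congruent to `1` modulo `g`.** -/
theorem gf_lists (k : ℕ) : ∃ C B : ℕ, ∀ g b : ℤ, 1 ≤ g → IsCoprime g b → ∀ U : Finset ℕ,
    (∀ u ∈ U, IsCoprime (1 + g * (u : ℤ)) b) →
    (∀ p : ℕ, p.Prime → p ≤ B → (p : ℤ) ∣ g → ∃ c : ℕ, ∀ u ∈ U, ¬ u ≡ c [MOD p]) →
    L3 U C k (Cag g b U) := by
  classical
  obtain ⟨C, B, hC⟩ := finE k
  refine ⟨C, B, fun g b hg hgb U hU hloc => ?_⟩
  obtain ⟨e, h1, h2, h3, h4, h5⟩ := hC (U.image (gf g b)) (by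
    intro f hf
    obtain ⟨v, hv, rfl⟩ := mem_image.1 hf
    exact gf_ok hg v (hU v hv)) (by
    intro p hp hpB
    obtain ⟨r, hr⟩ := gf_local hgb hp U hU (hloc p hp hpB)
    refine ⟨r, fun f hf => ?_⟩
    obtain ⟨v, hv, rfl⟩ := mem_image.1 hf
    exact hr v hv)
  obtain ⟨e', h1', h2', h3', h4', h5'⟩ := transfer (gf_inj hg b) U C k _
    ⟨e, h1, h2, h3, ⟨_, h4, fun x hx hx' => mem_filter.2 ⟨hx, hx'⟩⟩, h5⟩
  refine ⟨e', h1', h2', h3', h4', fun i w hw hw0 hwk => cag_of hg ?_ (h5' i w hw hw0 hwk)⟩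
  intro z hz
  obtain ⟨v, hv, rfl⟩ := mem_image.1 hz
  exact ⟨v, hv, rfl⟩

end Pool.Agent.Run7.h166.TS
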