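import Mathlib
import Pool.Agent.Run7.h166.TS.ThreeP

/-!
# Path covers for ordered families of linear forms, with exact patterns
-/

set_option autoImplicit false

namespace Pool.Agent.Run7.h166.TS

open Filter Finset

open Classical in
/-- `f s` and `f t` are prime, and the `f j` with `j` between, or up to `R` below or above, are not, many times -/
def AdjF (f : ℕ → ℤ × ℤ) (R : ℕ) (s t : ℕ) : Prop := ∀ η : ℝ, 0 < η → ∃ᶠ N : ℕ in atTop,
  (N : ℝ) ^ (1 - η) ≤ (((Icc 1 N).filter (fun n : ℕ => Pr (f s) n ∧ Pr (f t) n ∧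
    ∀ j, j ≠ s → j ≠ t → min s t ≤ j + R → j ≤ max s t + R → ¬ Pr (f j) n)).card : ℝ)

theorem adjF_symm (f : ℕ → ℤ × ℤ) (R s t : ℕ) (h : AdjF f R s t) : AdjF f R t s := by
  intro η hη
  refine (h η hη).mono ?_
  intro N hN
  refine hN.trans (le_of_eq ?_)
  congr 2
  ext n
  simp only [mem_filter]
  constructor
  · rintro ⟨h1, h2, h3, h4⟩
    exact ⟨h1, h3, h2, fun j hj hj' h5 h6 => h4 j hj' hj (by rwa [min_comm] at h5) (by rwa [max_comm] at h6)⟩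
  · rintro ⟨h1, h2, h3, h4⟩
    exact ⟨h1, h3, h2, fun j hj hj' h5 h6 => h4 j hj' hj (by rwa [min_comm] at h5) (by rwa [max_comm] at h6)⟩

/-- **Ordered families of linear forms: no four-partite holes, with exact patterns.** -/
theorem nhF : ∃ K : ℕ, 1 ≤ K ∧ ∀ f : ℕ → ℤ × ℤ, Function.Injective f →
    (∀ j, 1 ≤ (f j).1 ∧ IsCoprime (f j).1 (f j).2) → ∀ R : ℕ, ∀ X₀ : Fin 4 × Fin K → ℕ,
    Function.Injective X₀ → (∀ u v, u ≠ v → X₀ u ≤ X₀ v → R < X₀ v - X₀ u) →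
    (∀ p : ℕ, p.Prime → p ≤ 4 → ∃ r : ℤ, ∀ u, ¬ (p : ℤ) ∣ (f (X₀ u)).1 * r + (f (X₀ u)).2) →
    ∃ u v : Fin 4 × Fin K, u.1 ≠ v.1 ∧ AdjF f R (X₀ u) (X₀ v) := by
  classical
  obtain ⟨c, hc, hc1, hU⟩ := exactInf
  obtain ⟨K, hK, hU⟩ := hU 4 1 (by norm_num) (by push_cast; linarith)
  set Q : ℕ := (4 * K).factorial with hQ
  have hQ0 : 0 < Q := Nat.factorial_pos _
  refine ⟨Q * Q * K, Nat.mul_pos (Nat.mul_pos hQ0 hQ0) hK, fun f hf hf1 R X₀ hX₀ hsep hloc₀ => ?_⟩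
  set X : Fin 4 × Fin (Q * Q * K) → ℤ × ℤ := fun u => f (X₀ u) with hX
  have hXinj : Function.Injective X := hf.comp hX₀
  obtain ⟨c, hcinj, hc1, hc2⟩ := const_blocks (K := K) hQ0 X
  set Y : Fin 4 × Fin K → ℤ × ℤ := fun u => X (c u) with hY
  set y : Fin 4 × Fin K → ℕ := fun u => X₀ (c u) with hy
  have hyinj : Function.Injective y := hX₀.comp hcinj
  have hysep : ∀ u v, u ≠ v → y u ≤ y v → R < y v - y u := fun u v huv h =>
    hsep _ _ (fun h' => huv (hcinj h')) h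
  have hloc' := local_ok Y (fun u => (hf1 _).2) hc2 (fun p hp hp4 => by
    obtain ⟨r, hr⟩ := hloc₀ p hp hp4
    exact ⟨r, fun u => hr (c u)⟩) (fun p hp hpK => Nat.dvd_factorial hp.pos hpK)
  set M := ∑ u, y u with hM
  have hyM : ∀ u, y u ≤ M := fun u => Finset.single_le_sum (fun _ _ => Nat.zero_le _) (mem_univ u)
  obtain ⟨W, hW, hW2⟩ := hU Y (hXinj.comp hcinj) (fun u => (hf1 _).1) (fun u => (hf1 _).2) hloc'
    (fun _ => ((range (M + R + 1)).filter (fun z => ∀ u, y u ≠ z)).image f) (by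
    intro m z hz
    obtain ⟨z', hz', rfl⟩ := mem_image.1 hz
    refine ⟨(hf1 _).1, fun u h => ?_⟩
    exact (mem_filter.1 hz').2 u (hf h).symm)
  -- two consecutive hits in different blocks
  obtain ⟨u₁, hu₁, v₁, hv₁, huv₁⟩ := two_blocks W hW
  obtain ⟨u₀, hu₀, hmin⟩ := Finset.exists_min_image W y ⟨u₁, hu₁⟩
  have hne : (W.filter (fun v => v.1 ≠ u₀.1)).Nonempty := by
    by_contra hcon
    rw [not_nonempty_iff_eq_empty, filter_eq_empty_iff] at hcon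
    have h1 := hcon hu₁
    have h2 := hcon hv₁
    push Not at h1 h2
    exact huv₁ (h1.trans h2.symm)
  obtain ⟨v, hv, hvmin⟩ := Finset.exists_min_image _ y hne
  obtain ⟨hvW, hvu⟩ := mem_filter.1 hv
  have hne2 : (W.filter (fun w => y w < y v)).Nonempty := by
    refine ⟨u₀, mem_filter.2 ⟨hu₀, ?_⟩⟩
    refine lt_of_le_of_ne (hmin v hvW) ?_
    intro h
    exact hvu (by rw [hyinj h])
  obtain ⟨u, hu, humax⟩ := Finset.exists_max_image _ y hne2
  obtain ⟨huW, huv⟩ := mem_filter.1 hu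
  have hu1 : u.1 = u₀.1 := by
    by_contra hcon
    exact absurd (hvmin u (mem_filter.2 ⟨huW, hcon⟩)) (not_le.2 huv)
  refine ⟨c u, c v, ?_, ?_⟩
  · rw [hc1, hc1, hu1]
    exact Ne.symm hvu
  · show AdjF f R (y u) (y v)
    intro η hη
    obtain ⟨m, hm1, hm2⟩ := (hW2.and_eventually (pow_comp hη)).exists
    refine (hm1.and_eventually (eventually_ge_atTop 1)).mono ?_
    rintro N ⟨hN1, hN2⟩
    refine (hm2 N hN2).trans (hN1.trans ?_)
    rw [Nat.cast_le]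
    refine Finset.card_le_card ?_
    intro n hn
    unfold Pts at hn
    rw [mem_filter] at hn
    obtain ⟨hn1, hn3, hn4⟩ := hn
    refine mem_filter.2 ⟨hn1, (hn3 u).2 huW, (hn3 v).2 hvW, ?_⟩
    rw [min_eq_left huv.le, max_eq_right huv.le]
    intro j hju hjv hj1 hj2 hjp
    by_cases hz : ∃ w, y w = j
    · obtain ⟨w, rfl⟩ := hz
      have h5 : w ∈ W := (hn3 w).1 hjp
      have hwu : w ≠ u := fun h => hju (by rw [h])
      have hwv : w ≠ v := fun h => hjv (by rw [h])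
      rcases lt_or_ge (y w) (y v) with h6 | h6
      · have h7 := humax w (mem_filter.2 ⟨h5, h6⟩)
        have h8 := hysep w u hwu h7
        omega
      · have h8 := hysep v w hwv.symm h6
        omega
    · push Not at hz
      refine hn4 (f j) ?_ hjp
      refine mem_image.2 ⟨j, mem_filter.2 ⟨mem_range.2 ?_, hz⟩, rfl⟩
      have := hyM v
      omega

/-- **Finite sets of indices.** -/
theorem lists_F : ∃ C : ℕ, ∀ f : ℕ → ℤ × ℤ, Function.Injective f →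
    (∀ j, 1 ≤ (f j).1 ∧ IsCoprime (f j).1 (f j).2) → ∀ R : ℕ, ∀ V : Finset ℕ,
    (∀ s ∈ V, ∀ t ∈ V, s < t → R < t - s) →
    (∀ p : ℕ, p.Prime → p ≤ 4 → ∃ r : ℤ, ∀ v ∈ V, ¬ (p : ℤ) ∣ (f v).1 * r + (f v).2) →
    ∃ e : Fin 3 → List ℕ, Paths (AdjF f R) V e ∧ (V.filter (fun x => ∀ i, x ∉ e i)).card ≤ C := by
  obtain ⟨K, hK, h⟩ := nhF
  refine ⟨(3 + 1) * K * (2 * K), fun f hf hf1 R V hV hloc => ?_⟩
  obtain ⟨e, he, hc⟩ := path_cover (r := 3) (adjF_symm f R) hK (V := V) (by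
    intro X hX hXV
    refine h f hf hf1 R X hX ?_ ?_
    · intro u v huv h'
      exact hV _ (hXV u) _ (hXV v) (lt_of_le_of_ne h' (fun h2 => huv (hX h2)))
    · intro p hp hp4
      obtain ⟨r, hr⟩ := hloc p hp hp4
      exact ⟨r, fun u => hr _ (hXV u)⟩) id Function.injective_id
  exact ⟨e, he, hc.le⟩

/-- **Infinite sets of indices.** -/
theorem rays_F (f : ℕ → ℤ × ℤ) (hf : Function.Injective f)
    (hf1 : ∀ j, 1 ≤ (f j).1 ∧ IsCoprime (f j).1 (f j).2) (R : ℕ) (V : Set ℕ) (hV : V.Infinite)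
    (hsep : ∀ s ∈ V, ∀ t ∈ V, s < t → R < t - s)
    (hloc : ∀ p : ℕ, p.Prime → p ≤ 4 → ∃ r : ℤ, {v ∈ V | (p : ℤ) ∣ (f v).1 * r + (f v).2}.Finite) :
    ∃ e : Fin 3 → ℕ → ℕ, (∀ i n, e i n ∈ V) ∧ Function.Injective (fun p : Fin 3 × ℕ => e p.1 p.2) ∧
      (V \ Set.range (fun p : Fin 3 × ℕ => e p.1 p.2)).Finite ∧ ∀ i n, AdjF f R (e i n) (e i (n + 1)) := by
  classical
  obtain ⟨K, hK, h⟩ := nhF
  set v : ℕ → ℕ := Nat.nth (· ∈ V) with hv
  have hVinf : (Set.ofPred (· ∈ V)).Infinite := hV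
  have hvm : StrictMono v := Nat.nth_strictMono hVinf
  have hvV : ∀ n, v n ∈ V := fun n => Nat.nth_mem_of_infinite hVinf n
  have hvs : ∀ x ∈ V, ∃ n, v n = x := fun x hx => ⟨Nat.count (· ∈ V) x, Nat.nth_count hx⟩
  choose! r hr using hloc
  obtain ⟨n₀, hn₀⟩ : ∃ n₀ : ℕ, ∀ p : ℕ, p.Prime → p ≤ 4 → ∀ n, n₀ ≤ n →
      ¬ (p : ℤ) ∣ (f (v n)).1 * r p + (f (v n)).2 := by
    have h1 : ∀ᶠ n in atTop, ∀ p ∈ (range 5).filter Nat.Prime,
        ¬ (p : ℤ) ∣ (f (v n)).1 * r p + (f (v n)).2 := by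
      rw [Filter.eventually_all_finset]
      intro p hp
      obtain ⟨h1, h2⟩ := mem_filter.1 hp
      have h3 : (v ⁻¹' {x ∈ V | (p : ℤ) ∣ (f x).1 * r p + (f x).2}).Finite :=
        (hr p h2 (by have := mem_range.1 h1; omega)).preimage hvm.injective.injOn
      have h4 := h3.eventually_cofinite_notMem
      rw [Nat.cofinite_eq_atTop] at h4
      filter_upwards [h4] with n hn hd
      exact hn ⟨hvV n, hd⟩
    obtain ⟨n₀, hn₀⟩ := eventually_atTop.1 h1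
    exact ⟨n₀, fun p hp hp4 n hn => hn₀ n hn p (mem_filter.2 ⟨mem_range.2 (by omega), hp⟩)⟩
  have hNH : NHω (fun i j => AdjF f R (v i) (v j)) 3 K n₀ := by
    intro X hX hXn
    refine h f hf hf1 R (fun u => v (X u)) (hvm.injective.comp hX) ?_ ?_
    · intro u w huw h'
      exact hsep _ (hvV _) _ (hvV _) (lt_of_le_of_ne h' (fun h2 => huw (hX (hvm.injective h2))))
    · intro p hp hp4
      exact ⟨r p, fun u => hn₀ p hp hp4 (X u) (hXn u)⟩
  obtain ⟨e, he1, he2, he3⟩ := rays (fun i j hij => adjF_symm _ _ _ _ hij) (by norm_num) hNH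
  refine ⟨fun i n => v (e i n), fun i n => hvV _, hvm.injective.comp he1, ?_, he3⟩
  refine (he2.image v).subset ?_
  rintro x ⟨hx1, hx2⟩
  obtain ⟨n, rfl⟩ := hvs x hx1
  refine ⟨n, ?_, rfl⟩
  rintro ⟨p, hp⟩
  exact hx2 ⟨p, by simp only at hp ⊢; rw [hp]⟩

end Pool.Agent.Run7.h166.TS
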