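import Mathlib
import Pool.Agent.Run7.h166.TS.Orb

/-!
# Orbits of affine maps: three paths of exact gaps
-/

set_option autoImplicit false

namespace Pool.Agent.Run7.h166.TS

open Filter Finset

/-- the `j`-th iterate of `x ↦ a x + b` -/
def It (a b : ℤ) (j : ℕ) (x : ℤ) : ℤ := a ^ j * x + b * ∑ i ∈ range j, a ^ i

/-- the linear forms of the iterates -/
def Fo (a b : ℤ) (j : ℕ) : ℤ × ℤ := (a ^ j, b * ∑ i ∈ range j, a ^ i)

theorem It_zero (a b x : ℤ) : It a b 0 x = x := by simp [It]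

theorem geo (a : ℤ) (n : ℕ) : (∑ i ∈ range n, a ^ i) * (a - 1) = a ^ n - 1 := geom_sum_mul a n

theorem It_add (a b : ℤ) (i j : ℕ) (x : ℤ) : It a b (i + j) x = It a b j (It a b i x) := by
  unfold It
  have h1 : ∑ l ∈ range (i + j), a ^ l = ∑ l ∈ range j, a ^ l + a ^ j * ∑ l ∈ range i, a ^ l := by
    rw [add_comm i j, sum_range_add, mul_sum]
    congr 1
    exact sum_congr rfl fun l _ => pow_add a j l
  rw [h1, pow_add]
  ring

theorem It_succ (a b : ℤ) (j : ℕ) (x : ℤ) : It a b (j + 1) x = a * It a b j x + b := by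
  rw [It_add]
  simp [It]

theorem It_inj {a : ℤ} (ha : 2 ≤ a) (b : ℤ) (j : ℕ) {x y : ℤ} (h : It a b j x = It a b j y) : x = y := by
  unfold It at h
  have h1 : a ^ j * x = a ^ j * y := by linarith
  exact mul_left_cancel₀ (pow_ne_zero _ (by omega)) h1

theorem Fo_inj {a : ℤ} (ha : 2 ≤ a) (b : ℤ) : Function.Injective (Fo a b) := by
  intro i j h
  simp only [Fo, Prod.mk.injEq] at h
  exact (pow_right_strictMono₀ (by omega : 1 < a)).injective h.1

theorem Fo_ok {a b : ℤ} (ha : 2 ≤ a) (hab : IsCoprime a b) (j : ℕ) :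
    1 ≤ (Fo a b j).1 ∧ IsCoprime (Fo a b j).1 (Fo a b j).2 := by
  refine ⟨one_le_pow₀ (by omega), ?_⟩
  show IsCoprime (a ^ j) (b * ∑ i ∈ range j, a ^ i)
  rcases j with - | j
  · rw [pow_zero]
    exact isCoprime_one_left
  · refine IsCoprime.pow_left (IsCoprime.mul_right hab ?_)
    rw [sum_range_succ']
    refine ⟨-(∑ i ∈ range j, a ^ i), 1, ?_⟩
    have : ∑ k ∈ range j, a ^ (k + 1) = a * ∑ i ∈ range j, a ^ i := by
      rw [mul_sum]
      exact sum_congr rfl fun l _ => by ring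
    rw [this]
    ring

/-- **the local condition** -/
theorem Fo_local {a b : ℤ} (hab : IsCoprime a b) {p : ℕ} (hp : p.Prime) (P : ℕ → Prop)
    (h : (p : ℤ) ∣ a - 1 → ¬ (p : ℤ) ∣ b → ∃ c : ℕ, ∀ v, P v → ¬ v ≡ c [MOD p]) :
    ∃ r : ℤ, ∀ v, P v → ¬ (p : ℤ) ∣ (Fo a b v).1 * r + (Fo a b v).2 := by
  have hpz : Prime (p : ℤ) := Nat.prime_iff_prime_int.1 hp
  have hval : ∀ v (r : ℤ), (a - 1) * ((Fo a b v).1 * r + (Fo a b v).2) =
      a ^ v * ((a - 1) * r + b) - b := by
    intro v r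
    simp only [Fo]
    have := geo a v
    have e : (a - 1) * (a ^ v * r + b * ∑ i ∈ range v, a ^ i) =
      a ^ v * ((a - 1) * r) + b * ((∑ i ∈ range v, a ^ i) * (a - 1)) := by ring
    rw [e, this]
    ring
  by_cases hpa : (p : ℤ) ∣ a
  · -- `p` divides `a`
    have hpb : ¬ (p : ℤ) ∣ b := by
      intro h'
      obtain ⟨x, y, hxy⟩ := hab
      exact hpz.not_dvd_one (hxy ▸ dvd_add (hpa.mul_left x) (h'.mul_left y))
    refine ⟨1, fun v _ hd => ?_⟩
    rcases v with - | v
    · simp only [Fo, pow_zero, range_zero, sum_empty, mul_zero, add_zero, mul_one] at hd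
      exact hpz.not_dvd_one hd
    · simp only [Fo] at hd
      have e : a ^ (v + 1) * 1 + b * ∑ i ∈ range (v + 1), a ^ i =
          a * (a ^ v + b * ∑ i ∈ range v, a ^ i) + b := by
        rw [sum_range_succ']
        have : ∑ k ∈ range v, a ^ (k + 1) = a * ∑ i ∈ range v, a ^ i := by
          rw [mul_sum]
          exact sum_congr rfl fun l _ => by ring
        rw [this]
        ring
      rw [e] at hd
      exact hpb ((dvd_add_right (hpa.mul_right _)).1 hd)
  · by_cases hp1 : (p : ℤ) ∣ a - 1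
    · -- `a ≡ 1`
      have hav : ∀ v, (p : ℤ) ∣ a ^ v - 1 := fun v => hp1.trans (sub_one_dvd_pow_sub_one a v)
      have hg : ∀ v : ℕ, (p : ℤ) ∣ (∑ i ∈ range v, a ^ i) - v := by
        intro v
        have e : (∑ i ∈ range v, a ^ i) - (v : ℤ) = ∑ i ∈ range v, (a ^ i - 1) := by
          rw [sum_sub_distrib]
          simp
        rw [e]
        exact dvd_sum fun i _ => hav i
      by_cases hpb : (p : ℤ) ∣ b
      · refine ⟨1, fun v _ hd => ?_⟩
        simp only [Fo, mul_one] at hd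
        have h1 : (p : ℤ) ∣ a ^ v := (dvd_add_left (hpb.mul_right _)).1 hd
        exact hpa (hpz.dvd_of_dvd_pow h1)
      · obtain ⟨c, hc⟩ := h hp1 hpb
        refine ⟨-(b * c), fun v hv hd => ?_⟩
        have h1 : (p : ℤ) ∣ b * ((v : ℤ) - c) := by
          have e : b * ((v : ℤ) - c) = ((Fo a b v).1 * -(b * c) + (Fo a b v).2) +
              (a ^ v - 1) * (b * c) - b * ((∑ i ∈ range v, a ^ i) - v) := by
            simp only [Fo]
            ring
          rw [e]
          exact dvd_sub (dvd_add hd ((hav v).mul_right _)) ((hg v).mul_left b)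
        have h2 := (hpz.dvd_or_dvd h1).resolve_left hpb
        exact hc v hv (Nat.modEq_iff_dvd.2 h2).symm
    · -- `a - 1` is invertible modulo `p`
      by_cases hpb : (p : ℤ) ∣ b
      · refine ⟨1, fun v _ hd => ?_⟩
        simp only [Fo, mul_one] at hd
        have h1 : (p : ℤ) ∣ a ^ v := (dvd_add_left (hpb.mul_right _)).1 hd
        exact hpa (hpz.dvd_of_dvd_pow h1)
      · have hcop : IsCoprime (a - 1) (p : ℤ) := ((Prime.coprime_iff_not_dvd hpz).2 hp1).symm
        obtain ⟨x, y, hxy⟩ := hcop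
        refine ⟨-(x * b), fun v _ hd => ?_⟩
        have h1 := hval v (-(x * b))
        have h2 : (a - 1) * -(x * b) + b = p * (y * b) := by
          have : x * (a - 1) = 1 - y * p := by linarith
          calc (a - 1) * -(x * b) + b = -(x * (a - 1)) * b + b := by ring
            _ = p * (y * b) := by rw [this]; ring
        rw [h2] at h1
        have h3 : (p : ℤ) ∣ b := by
          have e : b = a ^ v * (p * (y * b)) - (a - 1) * ((Fo a b v).1 * -(x * b) + (Fo a b v).2) := by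
            rw [h1]; ring
          rw [e]
          exact dvd_sub ((dvd_mul_right (p : ℤ) _).mul_left _) (hd.mul_left _)
        exact hpb h3

theorem pow_shift' {η : ℝ} (hη : 0 < η) (C : ℕ) (hC : 1 ≤ C) : ∀ᶠ N : ℕ in atTop,
    ((C * N : ℕ) : ℝ) ^ (1 - η) ≤ (N : ℝ) ^ (1 - η / 2) := by
  have h1 : ∀ᶠ N : ℕ in atTop, (C : ℝ) ≤ (N : ℝ) ^ (η / 2) :=
    ((tendsto_rpow_atTop (by positivity)).comp tendsto_natCast_atTop_atTop).eventually_ge_atTop _
  filter_upwards [h1, eventually_ge_atTop 1] with N hN1 hN2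
  have hNr : (1 : ℝ) ≤ N := by exact_mod_cast hN2
  have hCr : (1 : ℝ) ≤ C := by exact_mod_cast hC
  have h2 : (N : ℝ) ^ (1 - η / 2) = (N : ℝ) ^ (1 - η) * (N : ℝ) ^ (η / 2) := by
    rw [← Real.rpow_add (by linarith)]
    congr 1
    ring
  rw [h2]
  push_cast
  rw [Real.mul_rpow (by positivity) (by linarith), mul_comm]
  refine mul_le_mul_of_nonneg_left ?_ (Real.rpow_nonneg (by linarith) _)
  refine le_trans ?_ hN1
  calc (C : ℝ) ^ (1 - η) ≤ C ^ (1 : ℝ) := Real.rpow_le_rpow_of_exponent_le hCr (by linarith)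
    _ = C := Real.rpow_one _

open Classical in
/-- `d` is an `R`-isolated gap of the orbits of `x ↦ a x + b` -/
def OGap (a b : ℤ) (R d : ℕ) : Prop := ∀ η : ℝ, 0 < η → ∃ᶠ N : ℕ in atTop, (N : ℝ) ^ (1 - η) ≤
  (((Icc 1 N).filter (fun p : ℕ => p.Prime ∧ (It a b d p).toNat.Prime ∧
    (∀ j, 0 < j → j < d → ¬ (It a b j p).toNat.Prime) ∧
    (∀ j, d < j → j ≤ d + R → ¬ (It a b j p).toNat.Prime) ∧
    ∀ (q j : ℕ), q.Prime → 0 < j → j ≤ R → It a b j q ≠ p)).card : ℝ)

theorem gap_of_adj {a b : ℤ} (ha : 2 ≤ a) (R s t : ℕ) (hst : s < t)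
    (h : AdjF (Fo a b) R (s + R) (t + R)) : OGap a b R (t - s) := by
  classical
  intro η hη
  set D : ℕ := (a ^ (s + R) + |b| * ∑ i ∈ range (s + R), a ^ i).toNat with hD
  have hDz : (D : ℤ) = a ^ (s + R) + |b| * ∑ i ∈ range (s + R), a ^ i := by
    rw [hD, Int.toNat_of_nonneg]
    have : 0 ≤ ∑ i ∈ range (s + R), a ^ i := sum_nonneg fun i _ => pow_nonneg (by omega) _
    have := mul_nonneg (abs_nonneg b) this
    have : 0 ≤ a ^ (s + R) := pow_nonneg (by omega) _
    omega
  have hD1 : 1 ≤ D := by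
    have h1 : 1 ≤ a ^ (s + R) := one_le_pow₀ (by omega)
    have h2 : 0 ≤ ∑ i ∈ range (s + R), a ^ i := sum_nonneg fun i _ => pow_nonneg (by omega) _
    have := mul_nonneg (abs_nonneg b) h2
    omega
  have hfr := (h (η / 2) (half_pos hη)).and_eventually ((eventually_ge_atTop 1).and (pow_shift' hη D hD1))
  have h2 : ∃ᶠ N : ℕ in atTop, ((D * N : ℕ) : ℝ) ^ (1 - η) ≤
      (((Icc 1 (D * N)).filter (fun p : ℕ => p.Prime ∧ (It a b (t - s) p).toNat.Prime ∧
        (∀ j, 0 < j → j < t - s → ¬ (It a b j p).toNat.Prime) ∧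
        (∀ j, t - s < j → j ≤ t - s + R → ¬ (It a b j p).toNat.Prime) ∧
        ∀ (q j : ℕ), q.Prime → 0 < j → j ≤ R → It a b j q ≠ p)).card : ℝ) := by
    refine hfr.mono ?_
    rintro N ⟨hN1, hN2, hN3⟩
    refine hN3.trans (hN1.trans ?_)
    rw [Nat.cast_le]
    refine Finset.card_le_card_of_injOn (fun n => (It a b (s + R) n).toNat) ?_ ?_
    · intro n hn
      rw [mem_coe, mem_filter, mem_Icc] at hn
      obtain ⟨⟨hn1, hn2⟩, hn3, hn4, hn5⟩ := hn
      have hPr : ∀ j, Pr (Fo a b j) n ↔ (It a b j n).toNat.Prime := fun j => Iff.rfl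
      have hp : (It a b (s + R) n).toNat.Prime := (hPr _).1 hn3
      have hpos : 0 ≤ It a b (s + R) n := by
        by_contra hcon
        rw [Int.toNat_of_nonpos (by omega)] at hp
        exact Nat.not_prime_zero hp
      have hcast : (((It a b (s + R) n).toNat : ℕ) : ℤ) = It a b (s + R) n := Int.toNat_of_nonneg hpos
      rw [mem_coe, mem_filter, mem_Icc]
      refine ⟨⟨hp.one_le, ?_⟩, hp, ?_, ?_, ?_, ?_⟩
      · have h3 : It a b (s + R) n ≤ D * N := by
          rw [hDz]
          unfold It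
          have h4 : 0 ≤ ∑ i ∈ range (s + R), a ^ i := sum_nonneg fun i _ => pow_nonneg (by omega) _
          have h5 : b * ∑ i ∈ range (s + R), a ^ i ≤ |b| * ∑ i ∈ range (s + R), a ^ i :=
            mul_le_mul_of_nonneg_right (le_abs_self b) h4
          have h6 : (|b| * ∑ i ∈ range (s + R), a ^ i) * 1 ≤ (|b| * ∑ i ∈ range (s + R), a ^ i) * N :=
            mul_le_mul_of_nonneg_left (by exact_mod_cast hN2) (mul_nonneg (abs_nonneg b) h4)
          have h7 : a ^ (s + R) * n ≤ a ^ (s + R) * N :=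
            mul_le_mul_of_nonneg_left (by exact_mod_cast hn2) (pow_nonneg (by omega) _)
          rw [add_mul]
          linarith
        have h4 : (((It a b (s + R) n).toNat : ℕ) : ℤ) ≤ ((D * N : ℕ) : ℤ) := by
          rw [hcast]
          push_cast
          exact h3
        exact_mod_cast h4
      · show (It a b (t - s) ((It a b (s + R) n).toNat : ℕ)).toNat.Prime
        rw [hcast, ← It_add]
        have : s + R + (t - s) = t + R := by omega
        rw [this]
        exact (hPr _).1 hn4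
      · intro j hj1 hj2
        show ¬ (It a b j ((It a b (s + R) n).toNat : ℕ)).toNat.Prime
        rw [hcast, ← It_add]
        refine fun hp' => hn5 (s + R + j) (by omega) (by omega) ?_ ?_ ((hPr _).2 hp')
        · rw [min_eq_left (by omega)]
          omega
        · rw [max_eq_right (by omega)]
          omega
      · intro j hj1 hj2
        show ¬ (It a b j ((It a b (s + R) n).toNat : ℕ)).toNat.Prime
        rw [hcast, ← It_add]
        refine fun hp' => hn5 (s + R + j) (by omega) (by omega) ?_ ?_ ((hPr _).2 hp')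
        · rw [min_eq_left (by omega)]
          omega
        · rw [max_eq_right (by omega)]
          omega
      · intro q j hq hj1 hj2 hqj
        have h3 : It a b j q = It a b j (It a b (s + R - j) n) := by
          rw [hqj, hcast, ← It_add]
          congr 1
          omega
        have h4 := It_inj ha b j h3
        refine hn5 (s + R - j) (by omega) (by omega) ?_ ?_ ((hPr _).2 ?_)
        · rw [min_eq_left (by omega)]
          omega
        · rw [max_eq_right (by omega)]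
          omega
        · rw [← h4, Int.toNat_natCast]
          exact hq
    · intro n hn n' hn' hnn
      rw [mem_coe, mem_filter] at hn hn'
      have hp : (It a b (s + R) n).toNat.Prime := hn.2.1
      have hp' : (It a b (s + R) n').toNat.Prime := hn'.2.1
      have hpos : ∀ m : ℕ, (It a b (s + R) m).toNat.Prime → 0 ≤ It a b (s + R) m := by
        intro m hm
        by_contra hcon
        rw [Int.toNat_of_nonpos (by omega)] at hm
        exact Nat.not_prime_zero hm
      have h3 : It a b (s + R) n = It a b (s + R) n' := by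
        have h4 := Int.toNat_of_nonneg (hpos _ hp)
        have h5 := Int.toNat_of_nonneg (hpos _ hp')
        have h6 : (It a b (s + R) n).toNat = (It a b (s + R) n').toNat := hnn
        rw [← h4, ← h5, h6]
      exact_mod_cast It_inj ha b _ h3
  have htend : Tendsto (fun N : ℕ => D * N) atTop atTop :=
    tendsto_atTop_mono (fun N => Nat.le_mul_of_pos_left N hD1) tendsto_id
  exact htend.frequently h2

/-- the two times differ by an `R`-isolated gap -/
def AdjO (a b : ℤ) (R : ℕ) (s t : ℕ) : Prop := AdjF (Fo a b) R (s + R) (t + R)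

theorem adjO_gap {a b : ℤ} (ha : 2 ≤ a) {R s t : ℕ} (hst : s ≠ t) (h : AdjO a b R s t) :
    OGap a b R (max s t - min s t) := by
  rcases lt_or_gt_of_ne hst with h1 | h1
  · rw [max_eq_right h1.le, min_eq_left h1.le]
    exact gap_of_adj ha R s t h1 h
  · rw [max_eq_left h1.le, min_eq_right h1.le]
    exact gap_of_adj ha R t s h1 (adjF_symm _ _ _ _ h)

theorem chain_imp {adj : ℕ → ℕ → Prop} {P : ℕ → ℕ → Prop} (h : ∀ x y, x ≠ y → adj x y → P x y) :
    ∀ l : List ℕ, l.Nodup → l.IsChain adj → l.IsChain P := by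
  intro l
  induction l with
  | nil => intro _ _; exact List.isChain_nil
  | cons x l ih =>
    intro h1 h2
    rw [List.nodup_cons] at h1
    cases l with
    | nil => exact List.isChain_singleton x
    | cons y l =>
      rw [List.isChain_cons_cons] at h2 ⊢
      refine ⟨h x y ?_ h2.1, ih h1.2 h2.2⟩
      rintro rfl
      exact h1.1 List.mem_cons_self

/-- **Finite sets of times.** -/
theorem aff_lists : ∃ C : ℕ, ∀ a b : ℤ, 2 ≤ a → IsCoprime a b → ∀ R : ℕ, ∀ V : Finset ℕ,
    (∀ s ∈ V, ∀ t ∈ V, s < t → R < t - s) →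
    (∀ p : ℕ, p.Prime → p ≤ 4 → (p : ℤ) ∣ a - 1 → ¬ (p : ℤ) ∣ b → ∃ c : ℕ, ∀ v ∈ V, ¬ v ≡ c [MOD p]) →
    ∃ e : Fin 3 → List ℕ, (∀ i, (e i).Nodup) ∧ (∀ i j, i ≠ j → List.Disjoint (e i) (e j)) ∧
      (∀ i, ∀ x ∈ e i, x ∈ V) ∧ (V.filter (fun x => ∀ i, x ∉ e i)).card ≤ C ∧
      ∀ i, (e i).IsChain (fun s t => OGap a b R (max s t - min s t)) := by
  obtain ⟨K, hK, h⟩ := nhF
  refine ⟨(3 + 1) * K * (2 * K), fun a b ha hab R V hV hloc => ?_⟩
  obtain ⟨e, ⟨he1, he2, he3⟩, hc⟩ := path_cover (r := 3) (adj := AdjO a b R)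
    (fun x y hxy => adjF_symm _ _ _ _ hxy) hK (V := V) (by
    intro X hX hXV
    refine h (Fo a b) (Fo_inj ha b) (Fo_ok ha hab) R (fun u => X u + R) ?_ ?_ ?_
    · intro u v huv
      exact hX (by simpa using huv)
    · intro u v huv h'
      have h1 : X u ≤ X v := by simpa using h'
      have := hV _ (hXV u) _ (hXV v) (lt_of_le_of_ne h1 (fun h2 => huv (hX h2)))
      show R < X v + R - (X u + R)
      omega
    · intro p hp hp4
      obtain ⟨r, hr⟩ := Fo_local hab hp (fun w => ∃ v ∈ V, w = v + R) (by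
        intro h1 h2
        obtain ⟨c, hc⟩ := hloc p hp hp4 h1 h2
        refine ⟨c + R, ?_⟩
        rintro w ⟨v, hv, rfl⟩ hw
        exact hc v hv (Nat.ModEq.add_right_cancel' R hw))
      exact ⟨r, fun u => hr _ ⟨X u, hXV u, rfl⟩⟩) id Function.injective_id
  refine ⟨e, fun i => (he1 i).1, he2, he3, hc.le, fun i => ?_⟩
  exact chain_imp (fun x y hxy h' => adjO_gap ha hxy h') _ (he1 i).1 (he1 i).2

/-- **Infinite sets of times.** -/
theorem aff_rays (a b : ℤ) (ha : 2 ≤ a) (hab : IsCoprime a b) (R : ℕ) (V : Set ℕ) (hV : V.Infinite)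
    (hsep : ∀ s ∈ V, ∀ t ∈ V, s < t → R < t - s)
    (hloc : ∀ p : ℕ, p.Prime → p ≤ 4 → (p : ℤ) ∣ a - 1 → ¬ (p : ℤ) ∣ b →
      ∃ c : ℕ, {v ∈ V | v ≡ c [MOD p]}.Finite) :
    ∃ e : Fin 3 → ℕ → ℕ, (∀ i n, e i n ∈ V) ∧ Function.Injective (fun p : Fin 3 × ℕ => e p.1 p.2) ∧
      (V \ Set.range (fun p : Fin 3 × ℕ => e p.1 p.2)).Finite ∧
      ∀ i n, OGap a b R (max (e i n) (e i (n + 1)) - min (e i n) (e i (n + 1))) := by
  classical
  obtain ⟨K, hK, h⟩ := nhF
  set v : ℕ → ℕ := Nat.nth (· ∈ V) with hv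
  have hVinf : (Set.ofPred (· ∈ V)).Infinite := hV
  have hvm : StrictMono v := Nat.nth_strictMono hVinf
  have hvV : ∀ n, v n ∈ V := fun n => Nat.nth_mem_of_infinite hVinf n
  have hvs : ∀ x ∈ V, ∃ n, v n = x := fun x hx => ⟨Nat.count (· ∈ V) x, Nat.nth_count hx⟩
  choose! r hr using hloc
  obtain ⟨n₀, hn₀⟩ : ∃ n₀ : ℕ, ∀ p : ℕ, p.Prime → p ≤ 4 → (p : ℤ) ∣ a - 1 → ¬ (p : ℤ) ∣ b →
      ∀ n, n₀ ≤ n → ¬ v n ≡ r p [MOD p] := by
    have h1 : ∀ᶠ n in atTop, ∀ p ∈ (range 5).filter (fun p => Nat.Prime p ∧ (p : ℤ) ∣ a - 1 ∧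
        ¬ (p : ℤ) ∣ b), ¬ v n ≡ r p [MOD p] := by
      rw [Filter.eventually_all_finset]
      intro p hp
      obtain ⟨h1, h2, h21, h22⟩ := mem_filter.1 hp
      have h3 : (v ⁻¹' {x ∈ V | x ≡ r p [MOD p]}).Finite :=
        (hr p h2 (by have := mem_range.1 h1; omega) h21 h22).preimage hvm.injective.injOn
      have h4 := h3.eventually_cofinite_notMem
      rw [Nat.cofinite_eq_atTop] at h4
      filter_upwards [h4] with n hn hd
      exact hn ⟨hvV n, hd⟩
    obtain ⟨n₀, hn₀⟩ := eventually_atTop.1 h1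
    exact ⟨n₀, fun p hp hp4 h21 h22 n hn => hn₀ n hn p (mem_filter.2 ⟨mem_range.2 (by omega), hp, h21, h22⟩)⟩
  have hNH : NHω (fun i j => AdjO a b R (v i) (v j)) 3 K n₀ := by
    intro X hX hXn
    refine h (Fo a b) (Fo_inj ha b) (Fo_ok ha hab) R (fun u => v (X u) + R) ?_ ?_ ?_
    · intro u w huw
      exact hX (hvm.injective (by simpa using huw))
    · intro u w huw h'
      have h1 : v (X u) ≤ v (X w) := by simpa using h'
      have := hsep _ (hvV _) _ (hvV _) (lt_of_le_of_ne h1 (fun h2 => huw (hX (hvm.injective h2))))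
      show R < v (X w) + R - (v (X u) + R)
      omega
    · intro p hp hp4
      obtain ⟨r', hr'⟩ := Fo_local hab hp (fun w => ∃ n, n₀ ≤ n ∧ w = v n + R) (by
        intro h1 h2
        refine ⟨r p + R, ?_⟩
        rintro w ⟨n, hn, rfl⟩ hw
        exact hn₀ p hp hp4 h1 h2 n hn (Nat.ModEq.add_right_cancel' R hw))
      exact ⟨r', fun u => hr' _ ⟨X u, hXn u, rfl⟩⟩
  obtain ⟨e, he1, he2, he3⟩ := rays (fun i j hij => adjF_symm _ _ _ _ hij) (by norm_num) hNH
  refine ⟨fun i n => v (e i n), fun i n => hvV _, hvm.injective.comp he1, ?_, ?_⟩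
  · refine (he2.image v).subset ?_
    rintro x ⟨hx1, hx2⟩
    obtain ⟨n, rfl⟩ := hvs x hx1
    refine ⟨n, ?_, rfl⟩
    rintro ⟨p, hp⟩
    exact hx2 ⟨p, by simp only at hp ⊢; rw [hp]⟩
  · intro i n
    refine adjO_gap ha ?_ (he3 i n)
    intro h'
    have h2 : ((i, n) : Fin 3 × ℕ) = (i, n + 1) := he1 (hvm.injective h')
    simp at h2

end Pool.Agent.Run7.h166.TS
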