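import Mathlib
import Pool.Agent.Run7.h166.TS.Main
import Pool.Agent.Run7.h166.TS.Aff

/-!
# Three sequences whose windows are exact patterns, for ordered families of linear forms
-/

set_option autoImplicit false

namespace Pool.Agent.Run7.h166.TS

open Filter Finset

open Classical in
/-- between its extreme elements the finite set `F` of indices is exactly the set of the indices of the forms
which are prime, at `N ^ (1 - η)` places up to `N`, for arbitrarily large `N` -/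
def CPF (f : ℕ → ℤ × ℤ) (F : Finset ℕ) : Prop := ∀ η : ℝ, 0 < η → ∃ᶠ N : ℕ in atTop,
  (N : ℝ) ^ (1 - η) ≤ (((Icc 1 N).filter (fun n : ℕ => ∀ y : ℕ, (∃ a ∈ F, a ≤ y) → (∃ b ∈ F, y ≤ b) →
    (Pr (f y) n ↔ y ∈ F))).card : ℝ)

/-- the forms with indices in `V`, apart from finitely many, avoid a class modulo each prime up to `B` -/
def AdmF (f : ℕ → ℤ × ℤ) (V : Set ℕ) (B : ℕ) : Prop :=
  ∀ p : ℕ, p.Prime → p ≤ B → ∃ r : ℤ, {v ∈ V | (p : ℤ) ∣ (f v).1 * r + (f v).2}.Finite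

theorem consec_F : ∃ B : ℕ → ℕ, ∀ f : ℕ → ℤ × ℤ, Function.Injective f →
    (∀ j, 1 ≤ (f j).1 ∧ IsCoprime (f j).1 (f j).2) →
    ∀ V : Set ℕ, V.Infinite → ∀ k₀, 1 ≤ k₀ → AdmF f V (B k₀) →
    (∃ h : Fin 3 → ℕ → ℕ, (∀ i, StrictMono (h i)) ∧ (∀ i n, h i n ∈ V) ∧
      Function.Injective (fun p : Fin 3 × ℕ => h p.1 p.2) ∧
      ∀ k, AdmF f V (B k) → {x ∈ V | ¬ ∃ i N, ∀ F : Finset ℕ, (∀ n ∈ F, N ≤ n) → F.card ≤ k →
        CPF f (insert x (F.image (h i)))}.Finite) ∧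
    ∃ e : Fin 3 → ℕ → ℕ, (∀ i n, e i n ∈ V) ∧ Function.Injective (fun p : Fin 3 × ℕ => e p.1 p.2) ∧
      (V \ Set.range (fun p : Fin 3 × ℕ => e p.1 p.2)).Finite ∧
      ∀ k, AdmF f V (B k) → ∀ᶠ t in atTop, ∀ i, CPF f ((range k).image (fun j => e i (t + j))) := by
  classical
  obtain ⟨B, hB⟩ := mt_of
  refine ⟨B, fun f₀ hf₀ hf₁ V hV k₀ hk₀ hadm₀ => ?_⟩
  set v : ℕ → ℕ := Nat.nth (· ∈ V) with hv
  have hVinf : (Set.ofPred (· ∈ V)).Infinite := hV
  have hvm : StrictMono v := Nat.nth_strictMono hVinf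
  have hvV : ∀ n, v n ∈ V := fun n => Nat.nth_mem_of_infinite hVinf n
  have hvs : ∀ x ∈ V, ∃ n, v n = x := fun x hx => ⟨Nat.count (· ∈ V) x, Nat.nth_count hx⟩
  set f : ℕ → ℤ × ℤ := fun n => f₀ (v n) with hf
  have hc : Conv (fun s => CPF f₀ (s.image v)) := by
    intro s hs a b η hη
    refine (hs η hη).mono fun N hN => hN.trans ?_
    rw [Nat.cast_le]
    refine card_le_card (monotone_filter_right _ ?_)
    intro n _ hn y hy1 hy2
    obtain ⟨a', ha', ha''⟩ := hy1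
    obtain ⟨b', hb', hb''⟩ := hy2
    obtain ⟨a1, ha1, rfl⟩ := mem_image.1 ha'
    obtain ⟨b1, hb1, rfl⟩ := mem_image.1 hb'
    obtain ⟨ha2, ha3, ha4⟩ := mem_filter.1 ha1
    obtain ⟨hb2, hb3, hb4⟩ := mem_filter.1 hb1
    rw [hn y ⟨v a1, mem_image_of_mem _ ha2, ha''⟩ ⟨v b1, mem_image_of_mem _ hb2, hb''⟩]
    constructor
    · intro h
      obtain ⟨c, hc1, rfl⟩ := mem_image.1 h
      have h1 := hvm.le_iff_le.1 ha''
      have h2 := hvm.le_iff_le.1 hb''
      exact mem_image_of_mem _ (mem_filter.2 ⟨hc1, by omega, by omega⟩)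
    · intro h
      exact image_subset_image (filter_subset _ _) h
  have hMT : ∀ k ∈ {k | AdmF f₀ V (B k)}, MT (fun s => CPF f₀ (s.image v)) 3 k := by
    intro k hadm
    refine hB k f ?_ (fun n => (hf₁ _).1) (fun n => (hf₁ _).2) ?_ _
      (fun X _ => ((range (X.sup v + 1)).filter (fun y => ∀ i ∈ X, v i ≠ y)).image f₀) ?_ ?_
    · exact hf₀.comp hvm.injective
    · intro p hp hpB
      obtain ⟨r, hr⟩ := hadm p hp hpB
      refine ⟨r, ?_⟩
      have h1 : (v ⁻¹' {x ∈ V | (p : ℤ) ∣ (f₀ x).1 * r + (f₀ x).2}).Finite := hr.preimage hvm.injective.injOn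
      have h2 := h1.eventually_cofinite_notMem
      rw [Nat.cofinite_eq_atTop] at h2
      filter_upwards [h2] with n hn hd
      exact hn ⟨hvV n, hd⟩
    · intro X m z hz
      obtain ⟨y, hy, rfl⟩ := mem_image.1 hz
      refine ⟨(hf₁ _).1, fun i hi h => ?_⟩
      exact (mem_filter.1 hy).2 i hi (hf₀ h).symm
    · intro X s hs h η hη
      obtain ⟨m, hm1, hm3⟩ := (h.and_eventually (pow_comp hη)).exists
      refine (hm1.and_eventually (eventually_ge_atTop 1)).mono ?_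
      rintro N ⟨⟨Y, hY1, hY2⟩, hN⟩
      refine (hm3 N hN).trans (hY2.trans ?_)
      rw [Nat.cast_le]
      refine card_le_card ?_
      intro n hn
      obtain ⟨h1, h2, h3, h4⟩ := hY1 n hn
      refine mem_filter.2 ⟨mem_Icc.2 ⟨h1, h2⟩, fun y _ hy => ?_⟩
      obtain ⟨b, hb, hyb⟩ := hy
      obtain ⟨i₁, hi₁, rfl⟩ := mem_image.1 hb
      by_cases hyX : ∃ i ∈ X, v i = y
      · obtain ⟨i, hi, rfl⟩ := hyX
        have h7 : Pr (f₀ (v i)) n ↔ i ∈ s := h3 i hi
        rw [h7]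
        constructor
        · exact fun h => mem_image_of_mem _ h
        · intro h
          obtain ⟨i', hi', e⟩ := mem_image.1 h
          rwa [← hvm.injective e]
      · push Not at hyX
        have h5 : f₀ y ∈ ((range (X.sup v + 1)).filter (fun y => ∀ i ∈ X, v i ≠ y)).image f₀ := by
          refine mem_image_of_mem _ (mem_filter.2 ⟨mem_range.2 ?_, hyX⟩)
          have := Finset.le_sup (f := v) (hs hi₁)
          omega
        have h6 := h4 _ h5
        refine ⟨fun h => absurd h h6, fun h => ?_⟩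
        obtain ⟨i', hi', e⟩ := mem_image.1 h
        exact absurd e (hyX i' (hs hi'))
  obtain ⟨⟨h, hh1, hh2, hh3⟩, e, he1, he2, he3⟩ := arrange (by norm_num) hc _ hMT k₀ hadm₀ hk₀
  refine ⟨⟨fun i n => v (h i n), fun i => hvm.comp (hh1 i), fun i n => hvV _,
    hvm.injective.comp hh2, fun k hk => ?_⟩, fun i n => v (e i n), fun i n => hvV _,
    hvm.injective.comp he1, ?_, fun k hk => ?_⟩
  · refine ((hh3 k hk).image v).subset ?_
    rintro x ⟨hx1, hx2⟩
    obtain ⟨n, rfl⟩ := hvs x hx1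
    refine ⟨n, ?_, rfl⟩
    intro i N
    push Not at hx2
    obtain ⟨F, hF1, hF2, hF3⟩ := hx2 i N
    refine ⟨F, hF1, hF2, fun hg => hF3 ?_⟩
    have e1 : insert (v n) (F.image (fun n => v (h i n))) = (insert n (F.image (h i))).image v := by
      rw [image_insert, image_image]
      rfl
    rw [e1]
    exact hg
  · refine (he2.image v).subset ?_
    rintro x ⟨hx1, hx2⟩
    obtain ⟨n, rfl⟩ := hvs x hx1
    refine ⟨n, ?_, rfl⟩
    rintro ⟨p, hp⟩
    exact hx2 ⟨p, by simp only at hp ⊢; rw [hp]⟩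
  · filter_upwards [he3 k hk] with t ht i
    have h1 := ht i
    rw [image_image] at h1
    exact h1

/-- the orbits of affine maps -/
theorem admF_aff {a b : ℤ} (hab : IsCoprime a b) (V : Set ℕ) (B : ℕ)
    (hloc : ∀ p : ℕ, p.Prime → p ≤ B → (p : ℤ) ∣ a - 1 → ¬ (p : ℤ) ∣ b →
      ∃ c : ℕ, {v ∈ V | v ≡ c [MOD p]}.Finite) : AdmF (Fo a b) V B := by
  intro p hp hpB
  by_cases h1 : (p : ℤ) ∣ a - 1 ∧ ¬ (p : ℤ) ∣ b
  · obtain ⟨c, hc⟩ := hloc p hp hpB h1.1 h1.2
    obtain ⟨r, hr⟩ := Fo_local hab hp (fun v => v ∈ V ∧ ¬ v ≡ c [MOD p]) (fun _ _ => ⟨c, fun v hv => hv.2⟩)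
    refine ⟨r, hc.subset ?_⟩
    rintro v ⟨hv1, hv2⟩
    refine ⟨hv1, ?_⟩
    by_contra h2
    exact hr v ⟨hv1, h2⟩ hv2
  · obtain ⟨r, hr⟩ := Fo_local hab hp (fun _ => True) (fun h2 h3 => absurd ⟨h2, h3⟩ h1)
    refine ⟨r, ?_⟩
    have : {v ∈ V | (p : ℤ) ∣ (Fo a b v).1 * r + (Fo a b v).2} = ∅ := by
      ext v
      simp only [Set.mem_ofPred_eq, Set.mem_empty_iff_false, iff_false, not_and]
      exact fun _ => hr v trivial
    rw [this]
    exact Set.finite_empty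

open Classical in
/-- the set `F` of times is the exact set of the times of primes, between its extreme elements, of the orbits of
many primes -/
def Ex (a b : ℤ) (F : Finset ℕ) : Prop := ∀ η : ℝ, 0 < η → ∃ᶠ N : ℕ in atTop, (N : ℝ) ^ (1 - η) ≤
  (((Icc 1 N).filter (fun p : ℕ => ∀ s ∈ F, (∀ x ∈ F, s ≤ x) → ∀ y : ℕ, (∃ z ∈ F, s + y ≤ z) →
    ((It a b y p).toNat.Prime ↔ s + y ∈ F))).card : ℝ)

theorem ex_of {a b : ℤ} (ha : 2 ≤ a) {F : Finset ℕ} (h : CPF (Fo a b) F) : Ex a b F := by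
  classical
  intro η hη
  rcases F.eq_empty_or_nonempty with rfl | hF
  · have h1 : ∀ᶠ N : ℕ in atTop, (N : ℝ) ^ (1 - η) ≤
      (((Icc 1 N).filter (fun p : ℕ => ∀ s ∈ (∅ : Finset ℕ), (∀ x ∈ (∅ : Finset ℕ), s ≤ x) → ∀ y : ℕ,
        (∃ z ∈ (∅ : Finset ℕ), s + y ≤ z) → ((It a b y p).toNat.Prime ↔ s + y ∈ (∅ : Finset ℕ)))).card : ℝ) := by
      filter_upwards [eventually_ge_atTop 1] with N hN
      rw [filter_true_of_mem (fun p _ s hs => absurd hs (notMem_empty s)), Nat.card_Icc, Nat.add_sub_cancel]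
      have hN1 : (1 : ℝ) ≤ N := by exact_mod_cast hN
      calc (N : ℝ) ^ (1 - η) ≤ (N : ℝ) ^ (1 : ℝ) := Real.rpow_le_rpow_of_exponent_le hN1 (by linarith)
        _ = N := Real.rpow_one _
    exact h1.frequently
  set m := F.min' hF with hm
  have hmF : m ∈ F := F.min'_mem hF
  have hmle : ∀ x ∈ F, m ≤ x := fun x hx => F.min'_le x hx
  set D : ℕ := (a ^ m + |b| * ∑ i ∈ range m, a ^ i).toNat with hD
  have hDz : (D : ℤ) = a ^ m + |b| * ∑ i ∈ range m, a ^ i := by
    rw [hD, Int.toNat_of_nonneg]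
    have : 0 ≤ ∑ i ∈ range m, a ^ i := sum_nonneg fun i _ => pow_nonneg (by omega) _
    have := mul_nonneg (abs_nonneg b) this
    have : 0 ≤ a ^ m := pow_nonneg (by omega) _
    omega
  have hD1 : 1 ≤ D := by
    have h1 : 1 ≤ a ^ m := one_le_pow₀ (by omega)
    have h2 : 0 ≤ ∑ i ∈ range m, a ^ i := sum_nonneg fun i _ => pow_nonneg (by omega) _
    have := mul_nonneg (abs_nonneg b) h2
    omega
  have hfr := (h (η / 2) (half_pos hη)).and_eventually ((eventually_ge_atTop 1).and (pow_shift' hη D hD1))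
  have h2 : ∃ᶠ N : ℕ in atTop, ((D * N : ℕ) : ℝ) ^ (1 - η) ≤
      (((Icc 1 (D * N)).filter (fun p : ℕ => ∀ s ∈ F, (∀ x ∈ F, s ≤ x) → ∀ y : ℕ, (∃ z ∈ F, s + y ≤ z) →
        ((It a b y p).toNat.Prime ↔ s + y ∈ F))).card : ℝ) := by
    refine hfr.mono ?_
    rintro N ⟨hN1, hN2, hN3⟩
    refine hN3.trans (hN1.trans ?_)
    rw [Nat.cast_le]
    have hpos : ∀ n : ℕ, (It a b m n).toNat.Prime → 0 ≤ It a b m n := by
      intro n hn
      by_contra hcon
      rw [Int.toNat_of_nonpos (by omega)] at hn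
      exact Nat.not_prime_zero hn
    have hprime : ∀ n ∈ (Icc 1 N).filter (fun n : ℕ => ∀ y : ℕ, (∃ a ∈ F, a ≤ y) → (∃ b ∈ F, y ≤ b) →
        (Pr (Fo a b y) n ↔ y ∈ F)), (It a b m n).toNat.Prime := by
      intro n hn
      exact ((mem_filter.1 hn).2 m ⟨m, hmF, le_rfl⟩ ⟨m, hmF, le_rfl⟩).2 hmF
    refine Finset.card_le_card_of_injOn (fun n => (It a b m n).toNat) ?_ ?_
    · intro n hn
      have hp := hprime n hn
      rw [mem_coe, mem_filter, mem_Icc] at hn
      obtain ⟨⟨hn1, hn2⟩, hn3⟩ := hn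
      have hcast : (((It a b m n).toNat : ℕ) : ℤ) = It a b m n := Int.toNat_of_nonneg (hpos n hp)
      rw [mem_coe, mem_filter, mem_Icc]
      refine ⟨⟨hp.one_le, ?_⟩, ?_⟩
      · have h3 : It a b m n ≤ D * N := by
          rw [hDz]
          unfold It
          have h4 : 0 ≤ ∑ i ∈ range m, a ^ i := sum_nonneg fun i _ => pow_nonneg (by omega) _
          have h5 : b * ∑ i ∈ range m, a ^ i ≤ |b| * ∑ i ∈ range m, a ^ i :=
            mul_le_mul_of_nonneg_right (le_abs_self b) h4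
          have h6 : (|b| * ∑ i ∈ range m, a ^ i) * 1 ≤ (|b| * ∑ i ∈ range m, a ^ i) * N :=
            mul_le_mul_of_nonneg_left (by exact_mod_cast hN2) (mul_nonneg (abs_nonneg b) h4)
          have h7 : a ^ m * n ≤ a ^ m * N :=
            mul_le_mul_of_nonneg_left (by exact_mod_cast hn2) (pow_nonneg (by omega) _)
          rw [add_mul]
          linarith
        have h4 : (((It a b m n).toNat : ℕ) : ℤ) ≤ ((D * N : ℕ) : ℤ) := by
          rw [hcast]
          push_cast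
          exact h3
        exact_mod_cast h4
      · intro s hs hs' y hy
        have hsm : s = m := le_antisymm (hs' m hmF) (hmle s hs)
        rw [hsm] at hy ⊢
        show (It a b y ((It a b m n).toNat : ℕ)).toNat.Prime ↔ _
        rw [hcast, ← It_add]
        exact hn3 (m + y) ⟨m, hmF, by omega⟩ hy
    · intro n hn n' hn' hnn
      have hp := hprime n hn
      have hp' := hprime n' hn'
      have h3 : It a b m n = It a b m n' := by
        have h4 := Int.toNat_of_nonneg (hpos _ hp)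
        have h5 := Int.toNat_of_nonneg (hpos _ hp')
        have h6 : (It a b m n).toNat = (It a b m n').toNat := hnn
        rw [← h4, ← h5, h6]
      exact_mod_cast It_inj ha b _ h3
  have htend : Tendsto (fun N : ℕ => D * N) atTop atTop :=
    tendsto_atTop_mono (fun N => Nat.le_mul_of_pos_left N hD1) tendsto_id
  exact htend.frequently h2

end Pool.Agent.Run7.h166.TS
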