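import Mathlib
import Pool.Agent.Run7.h166.TS.Main

/-!
# Three sequences of integers whose windows are exact patterns of consecutive primes
-/

set_option autoImplicit false

namespace Pool.Agent.Run7.h166.TS

open Filter Finset

open Classical in
/-- the finite set `F` is an exact pattern of consecutive primes at `N ^ (1 - η)` places up to `N`, for
arbitrarily large `N` -/
def CP (F : Finset ℕ) : Prop := ∀ η : ℝ, 0 < η → ∃ᶠ N : ℕ in atTop, (N : ℝ) ^ (1 - η) ≤
  (((Icc 1 N).filter (fun n : ℕ => ∀ y : ℕ, (∃ a ∈ F, a ≤ y) → (∃ b ∈ F, y ≤ b) →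
    ((n + y).Prime ↔ y ∈ F))).card : ℝ)

/-- the members of `V`, apart from finitely many, miss a class modulo each prime up to `B` -/
def AdmV (V : Set ℕ) (B : ℕ) : Prop :=
  ∀ p : ℕ, p.Prime → p ≤ B → ∃ r : ℕ, {v ∈ V | v ≡ r [MOD p]}.Finite

theorem consec : ∃ B : ℕ → ℕ, ∀ V : Set ℕ, V.Infinite → ∀ k₀, 1 ≤ k₀ → AdmV V (B k₀) →
    (∃ h : Fin 3 → ℕ → ℕ, (∀ i, StrictMono (h i)) ∧ (∀ i n, h i n ∈ V) ∧
      Function.Injective (fun p : Fin 3 × ℕ => h p.1 p.2) ∧
      ∀ k, AdmV V (B k) → {x ∈ V | ¬ ∃ i N, ∀ F : Finset ℕ, (∀ n ∈ F, N ≤ n) → F.card ≤ k →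
        CP (insert x (F.image (h i)))}.Finite) ∧
    ∃ e : Fin 3 → ℕ → ℕ, (∀ i n, e i n ∈ V) ∧ Function.Injective (fun p : Fin 3 × ℕ => e p.1 p.2) ∧
      (V \ Set.range (fun p : Fin 3 × ℕ => e p.1 p.2)).Finite ∧
      ∀ k, AdmV V (B k) → ∀ᶠ t in atTop, ∀ i, CP ((range k).image (fun j => e i (t + j))) := by
  classical
  obtain ⟨B, hB⟩ := mt_of
  refine ⟨B, fun V hV k₀ hk₀ hadm₀ => ?_⟩
  set v : ℕ → ℕ := Nat.nth (· ∈ V) with hv
  have hVinf : (Set.ofPred (· ∈ V)).Infinite := hV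
  have hvm : StrictMono v := Nat.nth_strictMono hVinf
  have hvV : ∀ n, v n ∈ V := fun n => Nat.nth_mem_of_infinite hVinf n
  have hvs : ∀ x ∈ V, ∃ n, v n = x := fun x hx => ⟨Nat.count (· ∈ V) x, Nat.nth_count hx⟩
  set f : ℕ → ℤ × ℤ := fun n => ((1 : ℤ), (v n : ℤ)) with hf
  have hPr : ∀ (y n : ℕ), Pr ((1 : ℤ), (y : ℤ)) n ↔ (n + y).Prime := by
    intro y n
    unfold Pr
    have : ((1 : ℤ) * (n : ℤ) + (y : ℤ)).toNat = n + y := by
      rw [one_mul]
      omega
    simp only [this]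
  have hc : Conv (fun s => CP (s.image v)) := by
    intro s hs a b η hη
    refine (hs η hη).mono fun N hN => hN.trans ?_
    rw [Nat.cast_le]
    refine card_le_card (monotone_filter_right _ ?_)
    intro n _ hn y hy1 hy2
    obtain ⟨a', ha', ha''⟩ := hy1
    obtain ⟨b', hb', hb''⟩ := hy2
    obtain ⟨a1, ha1, rfl⟩ := mem_image.1 ha'
    obtain ⟨b1, hb1, rfl⟩ := mem_image.1 hb'
    obtain ⟨ha2, ha3, ha4⟩ := mem_filter.1 ha1
    obtain ⟨hb2, hb3, hb4⟩ := mem_filter.1 hb1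
    rw [hn y ⟨v a1, mem_image_of_mem _ ha2, ha''⟩ ⟨v b1, mem_image_of_mem _ hb2, hb''⟩]
    constructor
    · intro h
      obtain ⟨c, hc1, rfl⟩ := mem_image.1 h
      have h1 := hvm.le_iff_le.1 ha''
      have h2 := hvm.le_iff_le.1 hb''
      exact mem_image_of_mem _ (mem_filter.2 ⟨hc1, by omega, by omega⟩)
    · intro h
      exact image_subset_image (filter_subset _ _) h
  have hMT : ∀ k ∈ {k | AdmV V (B k)}, MT (fun s => CP (s.image v)) 3 k := by
    intro k hadm
    refine hB k f ?_ (fun n => le_rfl) (fun n => isCoprime_one_left) ?_ _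
      (fun X _ => ((range (X.sup v + 1)).filter (fun y => ∀ i ∈ X, v i ≠ y)).image
        (fun y : ℕ => ((1 : ℤ), (y : ℤ)))) ?_ ?_
    · intro a b h
      simp only [hf, Prod.mk.injEq, Nat.cast_inj, true_and] at h
      exact hvm.injective h
    · intro p hp hpB
      obtain ⟨r, hr⟩ := hadm p hp hpB
      refine ⟨-(r : ℤ), ?_⟩
      have h1 : (v ⁻¹' {x ∈ V | x ≡ r [MOD p]}).Finite := hr.preimage hvm.injective.injOn
      have h2 := h1.eventually_cofinite_notMem
      rw [Nat.cofinite_eq_atTop] at h2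
      filter_upwards [h2] with n hn hd
      apply hn
      refine ⟨hvV n, ?_⟩
      have h3 : (p : ℤ) ∣ (v n : ℤ) - r := by
        have : (f n).1 * -(r : ℤ) + (f n).2 = (v n : ℤ) - r := by
          show (1 : ℤ) * -(r : ℤ) + (v n : ℤ) = _
          ring
        rwa [this] at hd
      exact (Nat.modEq_iff_dvd.2 h3).symm
    · intro X m z hz
      obtain ⟨y, hy, rfl⟩ := mem_image.1 hz
      refine ⟨le_rfl, fun i hi h => ?_⟩
      simp only [hf, Prod.mk.injEq, Nat.cast_inj, true_and] at h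
      exact (mem_filter.1 hy).2 i hi h.symm
    · intro X s hs h η hη
      obtain ⟨m, hm1, hm3⟩ := (h.and_eventually (pow_comp hη)).exists
      refine (hm1.and_eventually (eventually_ge_atTop 1)).mono ?_
      rintro N ⟨⟨Y, hY1, hY2⟩, hN⟩
      refine (hm3 N hN).trans (hY2.trans ?_)
      rw [Nat.cast_le]
      refine card_le_card ?_
      intro n hn
      obtain ⟨h1, h2, h3, h4⟩ := hY1 n hn
      refine mem_filter.2 ⟨mem_Icc.2 ⟨h1, h2⟩, fun y _ hy => ?_⟩
      obtain ⟨b, hb, hyb⟩ := hy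
      obtain ⟨i₁, hi₁, rfl⟩ := mem_image.1 hb
      by_cases hyX : ∃ i ∈ X, v i = y
      · obtain ⟨i, hi, rfl⟩ := hyX
        rw [← hPr, h3 i hi]
        constructor
        · exact fun h => mem_image_of_mem _ h
        · intro h
          obtain ⟨i', hi', e⟩ := mem_image.1 h
          rwa [← hvm.injective e]
      · push Not at hyX
        have h5 : ((1 : ℤ), (y : ℤ)) ∈ ((range (X.sup v + 1)).filter (fun y => ∀ i ∈ X, v i ≠ y)).image
            (fun y : ℕ => ((1 : ℤ), (y : ℤ))) := by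
          refine mem_image_of_mem _ (mem_filter.2 ⟨mem_range.2 ?_, hyX⟩)
          have := Finset.le_sup (f := v) (hs hi₁)
          omega
        have h6 := h4 _ h5
        rw [hPr] at h6
        refine ⟨fun h => absurd h h6, fun h => ?_⟩
        obtain ⟨i', hi', e⟩ := mem_image.1 h
        exact absurd e (hyX i' (hs hi'))
  obtain ⟨⟨h, hh1, hh2, hh3⟩, e, he1, he2, he3⟩ := arrange (by norm_num) hc _ hMT k₀ hadm₀ hk₀
  refine ⟨⟨fun i n => v (h i n), fun i => hvm.comp (hh1 i), fun i n => hvV _,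
    hvm.injective.comp hh2, fun k hk => ?_⟩, fun i n => v (e i n), fun i n => hvV _,
    hvm.injective.comp he1, ?_, fun k hk => ?_⟩
  · refine ((hh3 k hk).image v).subset ?_
    rintro x ⟨hx1, hx2⟩
    obtain ⟨n, rfl⟩ := hvs x hx1
    refine ⟨n, ?_, rfl⟩
    intro i N
    push Not at hx2
    obtain ⟨F, hF1, hF2, hF3⟩ := hx2 i N
    refine ⟨F, hF1, hF2, fun hg => hF3 ?_⟩
    have e1 : insert (v n) (F.image (fun n => v (h i n))) = (insert n (F.image (h i))).image v := by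
      rw [image_insert, image_image]
      rfl
    rw [e1]
    exact hg
  · refine (he2.image v).subset ?_
    rintro x ⟨hx1, hx2⟩
    obtain ⟨n, rfl⟩ := hvs x hx1
    refine ⟨n, ?_, rfl⟩
    rintro ⟨p, hp⟩
    exact hx2 ⟨p, by simp only at hp ⊢; rw [hp]⟩
  · filter_upwards [he3 k hk] with t ht i
    have h1 := ht i
    rw [image_image] at h1
    exact h1

end Pool.Agent.Run7.h166.TS
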