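import Mathlib
import Pool.Agent.H362R2.RQ.Fin
import Pool.Agent.H362R2.RQ.Place
import Pool.Agent.Run7.h166.TS.Paths

/-!
# Paths of gaps between consecutive primes inside the record windows
-/

set_option autoImplicit false

namespace Pool.Agent.Run7.h166.TS

open Filter Finset
open Pool.Agent.H378R2 (yy)
open Pool.Agent.H256R2.SC (ff)
open Pool.Agent.H362R2.RQ (stRQ StRQ cmod fib_cmod)

/-- two neighbouring elements of different colours -/
theorem consec_pair {ι β : Type} (W : Finset ι) (y : ι → ℕ) (hy : Function.Injective y) (col : ι → β)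
    (h : ∃ u ∈ W, ∃ v ∈ W, col u ≠ col v) :
    ∃ u ∈ W, ∃ v ∈ W, col u ≠ col v ∧ y u < y v ∧ ∀ w ∈ W, ¬ (y u < y w ∧ y w < y v) := by
  classical
  obtain ⟨u₁, hu₁, v₁, hv₁, huv₁⟩ := h
  obtain ⟨u₀, hu₀, hmin⟩ := Finset.exists_min_image W y ⟨u₁, hu₁⟩
  have hne : (W.filter (fun v => col v ≠ col u₀)).Nonempty := by
    by_contra hcon
    rw [not_nonempty_iff_eq_empty, filter_eq_empty_iff] at hcon
    have h1 := hcon hu₁
    have h2 := hcon hv₁
    push Not at h1 h2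
    exact huv₁ (h1.trans h2.symm)
  obtain ⟨v, hv, hvmin⟩ := Finset.exists_min_image _ y hne
  obtain ⟨hvW, hvu⟩ := mem_filter.1 hv
  have hne2 : (W.filter (fun w => y w < y v)).Nonempty := by
    refine ⟨u₀, mem_filter.2 ⟨hu₀, ?_⟩⟩
    refine lt_of_le_of_ne (hmin v hvW) ?_
    intro h
    exact hvu (by rw [hy h])
  obtain ⟨u, hu, humax⟩ := Finset.exists_max_image _ y hne2
  obtain ⟨huW, huv⟩ := mem_filter.1 hu
  have hu1 : col u = col u₀ := by
    by_contra hcon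
    exact absurd (hvmin u (mem_filter.2 ⟨huW, hcon⟩)) (not_le.2 huv)
  refine ⟨u, huW, v, hvW, by rw [hu1]; exact Ne.symm hvu, huv, ?_⟩
  rintro w hw ⟨hw1, hw2⟩
  exact absurd (humax w (mem_filter.2 ⟨hw, hw2⟩)) (not_le.2 hw1)

open Classical in
/-- the places near `X` at which the shifts `s`, `t` give consecutive primes, in a window of the record length
with at most `K` primes, and which are divisible by all primes up to `z` -/
noncomputable def RecS (K z : ℕ) (c X : ℝ) (s t : ℕ) : Finset ℕ :=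
  (Icc 1 ⌊3 * X⌋₊).filter (fun n : ℕ => X < n ∧ (n + s).Prime ∧ (n + t).Prime ∧
    (∀ m, n + min s t < m → m < n + max s t → ¬ m.Prime) ∧
    ((range (⌊c * ff X⌋₊ + 1)).filter (fun y => (n + y).Prime)).card ≤ K ∧
    ∀ p : ℕ, p.Prime → p ≤ z → p ∣ n)

theorem recS_symm (K z : ℕ) (c X : ℝ) (s t : ℕ) : RecS K z c X s t = RecS K z c X t s := by
  classical
  unfold RecS
  refine filter_congr fun n _ => ?_
  rw [min_comm, max_comm]
  tauto

/-- frequent gaps in record windows -/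
def AdjR (K z : ℕ) (c X : ℝ) (s t : ℕ) : Prop := X ^ (7 / 8 : ℝ) ≤ ((RecS K z c X s t).card : ℝ)

theorem adjR_symm (K z : ℕ) (c X : ℝ) (s t : ℕ) (h : AdjR K z c X s t) : AdjR K z c X t s := by
  unfold AdjR at *
  rwa [recS_symm]

theorem nhR : ∃ r K : ℕ, 1 ≤ r ∧ 1 ≤ K ∧ ∃ c : ℝ, 0 < c ∧ ∀ z : ℕ, ∃ X0 : ℝ, ∀ X : ℝ, X0 ≤ X →
    ∀ V : Finset ℕ, (∀ v ∈ V, v.Prime ∧ yy X < v ∧ (v : ℝ) ≤ c * ff X) →
      NH (AdjR K z c X) V r K := by
  classical
  obtain ⟨η, hη, h⟩ := stRQ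
  obtain ⟨m₀, hm₀⟩ := exists_nat_gt (1 / η)
  set m := m₀ + 2 with hm
  have hηm : 1 < η * m := by
    rw [div_lt_iff₀ hη] at hm₀
    rw [hm]
    push_cast
    nlinarith
  obtain ⟨K, hmK, c, hc, h⟩ := h m (by omega)
  refine ⟨m₀ + 1, K, by omega, by omega, c, hc, fun z => ?_⟩
  obtain ⟨X0, hX0⟩ := h z
  have hgrow : ∀ᶠ X : ℝ in atTop, (((m * K) ^ 2 : ℕ) : ℝ) ≤ X ^ (1 / 40 : ℝ) :=
    (tendsto_rpow_atTop (by norm_num)).eventually_ge_atTop _
  obtain ⟨X1, hX1⟩ := eventually_atTop.1 (hgrow.and (eventually_ge_atTop (1 : ℝ)))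
  refine ⟨max X0 X1, fun X hX V hV Y hYinj hYV => ?_⟩
  have hX0' : X0 ≤ X := (le_max_left _ _).trans hX
  obtain ⟨hg, hX1'⟩ := hX1 X ((le_max_right _ _).trans hX)
  by_contra hcon
  push Not at hcon
  have hmpos : 0 < m := by omega
  set t : Fin K → ℕ := fun j => Y (cmod K m hmpos j, j) with ht
  have htinj : Function.Injective t := by
    intro j j' hj
    have := hYinj hj
    simp only [Prod.mk.injEq] at this
    exact this.2
  set bad : Finset ℕ := (univ : Finset ((Fin m × Fin K) × (Fin m × Fin K))).biUnion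
    (fun uv => if uv.1.1 ≠ uv.2.1 then RecS K z c X (Y uv.1) (Y uv.2) else ∅) with hbad
  have hbadc : (bad.card : ℝ) ≤ X ^ (9 / 10 : ℝ) := by
    have h1 : (bad.card : ℝ) ≤ ∑ uv : (Fin m × Fin K) × (Fin m × Fin K), X ^ (7 / 8 : ℝ) := by
      have h0 : bad.card ≤ ∑ uv : (Fin m × Fin K) × (Fin m × Fin K),
          (if uv.1.1 ≠ uv.2.1 then RecS K z c X (Y uv.1) (Y uv.2) else ∅).card := by
        rw [hbad]
        exact card_biUnion_le
      have h0' : (bad.card : ℝ) ≤ ∑ uv : (Fin m × Fin K) × (Fin m × Fin K),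
          (((if uv.1.1 ≠ uv.2.1 then RecS K z c X (Y uv.1) (Y uv.2) else ∅).card : ℕ) : ℝ) := by
        exact_mod_cast h0
      refine h0'.trans ?_
      refine Finset.sum_le_sum fun uv _ => ?_
      split_ifs with huv
      · have := hcon uv.1 uv.2 huv
        unfold AdjR at this
        push Not at this
        exact this.le
      · rw [card_empty, Nat.cast_zero]
        exact Real.rpow_nonneg (by linarith) _
    refine h1.trans ?_
    rw [sum_const, card_univ, Fintype.card_prod, Fintype.card_prod, Fintype.card_fin, Fintype.card_fin,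
      nsmul_eq_mul]
    have h2 : ((m * K * (m * K) : ℕ) : ℝ) ≤ X ^ (1 / 40 : ℝ) := by
      have : m * K * (m * K) = (m * K) ^ 2 := by ring
      rw [this]
      exact hg
    calc ((m * K * (m * K) : ℕ) : ℝ) * X ^ (7 / 8 : ℝ) ≤ X ^ (1 / 40 : ℝ) * X ^ (7 / 8 : ℝ) :=
          mul_le_mul_of_nonneg_right h2 (Real.rpow_nonneg (by linarith) _)
      _ = X ^ (9 / 10 : ℝ) := by
          rw [← Real.rpow_add (by linarith)]
          norm_num
  obtain ⟨n, hn1, hn2, hn3, ⟨D, hD1, hD2⟩, hn4, hn5⟩ := hX0 X hX0' t htinj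
    (fun j => hV _ (hYV _)) (cmod K m hmpos) (fun d => fib_cmod K m hmpos hmK d) bad hbadc
  have hD3 : 1 < D.card := by
    have : (1 : ℝ) < D.card := lt_of_lt_of_le hηm hD1
    exact_mod_cast this
  obtain ⟨d, hd, d', hd', hdd⟩ := Finset.one_lt_card.1 hD3
  obtain ⟨j, hj1, hj2⟩ := hD2 d hd
  obtain ⟨j', hj1', hj2'⟩ := hD2 d' hd'
  obtain ⟨u, hu, v, hv, huv, hlt, hbet⟩ := consec_pair (univ.filter (fun j => (n + t j).Prime)) t htinj
    (cmod K m hmpos) ⟨j, mem_filter.2 ⟨mem_univ _, hj2⟩, j', mem_filter.2 ⟨mem_univ _, hj2'⟩, by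
      rw [hj1, hj1']; exact hdd⟩
  have huP := (mem_filter.1 hu).2
  have hvP := (mem_filter.1 hv).2
  have hnX : (n : ℝ) ≤ 3 * X := hn2
  apply hn3
  rw [hbad, mem_biUnion]
  refine ⟨((cmod K m hmpos u, u), (cmod K m hmpos v, v)), mem_univ _, ?_⟩
  rw [if_pos (by exact huv)]
  unfold RecS
  rw [mem_filter, mem_Icc]
  have hn0 : 1 ≤ n := by
    have : (0 : ℝ) < n := by linarith
    exact_mod_cast this
  have hfl : ∀ s : ℕ, s ≤ ⌊c * ff X⌋₊ → 1 ≤ s → (s : ℝ) ≤ c * ff X := by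
    intro s hs hs1
    exact (Nat.le_floor_iff' (by omega)).1 hs
  refine ⟨⟨hn0, Nat.le_floor hnX⟩, hn1, huP, hvP, ?_, ?_, hn5⟩
  · show ∀ q, n + min (t u) (t v) < q → q < n + max (t u) (t v) → ¬ q.Prime
    rw [min_eq_left hlt.le, max_eq_right hlt.le]
    intro q hq1 hq2 hqp
    obtain ⟨s, rfl⟩ : ∃ s, q = n + s := ⟨q - n, by omega⟩
    have hs : (s : ℝ) ≤ c * ff X := by
      have h1 : (s : ℝ) ≤ t v := by
        have : s ≤ t v := by omega
        exact_mod_cast this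
      exact h1.trans (hV _ (hYV _)).2.2
    obtain ⟨w, rfl⟩ := hn4 s hs hqp
    exact hbet w (mem_filter.2 ⟨mem_univ _, hqp⟩) ⟨by omega, by omega⟩
  · refine le_trans (card_le_card (t := univ.image t) ?_) (card_image_le.trans (by simp))
    intro s hs
    obtain ⟨hs1, hs2⟩ := mem_filter.1 hs
    rw [mem_range] at hs1
    have hs3 : (s : ℝ) ≤ c * ff X := by
      rcases Nat.eq_zero_or_pos s with h0 | h0
      · rw [h0, Nat.cast_zero]
        have h1 := (hV _ (hYV (cmod K m hmpos u, u))).2.2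
        exact (Nat.cast_nonneg _).trans h1
      · exact hfl s (by omega) h0
    obtain ⟨w, rfl⟩ := hn4 s hs3 hs2
    exact mem_image_of_mem _ (mem_univ _)

theorem record_paths : ∃ r K C : ℕ, ∃ c : ℝ, 0 < c ∧ ∀ z : ℕ, ∃ X0 : ℝ, ∀ X : ℝ, X0 ≤ X →
    ∀ V : Finset ℕ, (∀ v ∈ V, v.Prime ∧ yy X < v ∧ (v : ℝ) ≤ c * ff X) →
      ∃ e : Fin r → List ℕ, Paths (AdjR K z c X) V e ∧ (V.filter (fun x => ∀ i, x ∉ e i)).card ≤ C := by
  obtain ⟨r, K, hr, hK, c, hc, h⟩ := nhR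
  refine ⟨r, K, (r + 1) * K * (2 * K), c, hc, fun z => ?_⟩
  obtain ⟨X0, hX0⟩ := h z
  refine ⟨X0, fun X hX V hV => ?_⟩
  obtain ⟨e, he, hcard⟩ := path_cover (adjR_symm K z c X) hK (hX0 X hX V hV) id Function.injective_id
  exact ⟨e, he, hcard.le⟩

end Pool.Agent.Run7.h166.TS
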