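import Mathlib
import Pool.Agent.Run7.h166.TS.Rec
import Pool.Agent.Run7.h166.TS.Lists

/-!
# Lists with windows of `k` primes inside the record windows
-/

set_option autoImplicit false

namespace Pool.Agent.Run7.h166.TS

open Filter Finset
open Pool.Agent.H378R2 (yy)
open Pool.Agent.H256R2.SC (ff)
open Pool.Agent.H362R2.RQ (stRQ StRQ cmod fib_cmod)

open Classical in
/-- the places near `X`, divisible by all primes up to `z`, at which all shifts in `s` give primes, in a
window of the record length with at most `K` primes -/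
noncomputable def RecW (K z : ℕ) (c X : ℝ) (s : Finset ℕ) : Finset ℕ :=
  (Icc 1 ⌊3 * X⌋₊).filter (fun n : ℕ => X < n ∧ (∀ h ∈ s, (n + h).Prime) ∧
    ((range (⌊c * ff X⌋₊ + 1)).filter (fun y => (n + y).Prime)).card ≤ K ∧
    ∀ p : ℕ, p.Prime → p ≤ z → p ∣ n)

/-- many such places -/
def RGood (K z : ℕ) (c X : ℝ) (s : Finset ℕ) : Prop := X ^ (7 / 8 : ℝ) ≤ ((RecW K z c X s).card : ℝ)

theorem rgood_anti {K z : ℕ} {c X : ℝ} : ∀ s t : Finset ℕ, s ⊆ t → RGood K z c X t → RGood K z c X s := by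
  classical
  intro s t hst h
  unfold RGood at *
  refine h.trans ?_
  rw [Nat.cast_le]
  refine card_le_card (monotone_filter_right _ ?_)
  intro n _ hn
  exact ⟨hn.1, fun f hf => hn.2.1 f (hst hf), hn.2.2⟩

theorem rgood_mono {K K' z : ℕ} {c c' X : ℝ} (hK : K ≤ K') (hc : c' ≤ c) (hX : 0 ≤ ff X) {s : Finset ℕ}
    (h : RGood K z c X s) : RGood K' z c' X s := by
  classical
  unfold RGood at *
  refine h.trans ?_
  rw [Nat.cast_le]
  refine card_le_card (monotone_filter_right _ ?_)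
  intro n _ hn
  refine ⟨hn.1, hn.2.1, le_trans (card_le_card ?_) (hn.2.2.1.trans hK), hn.2.2.2⟩
  refine filter_subset_filter _ (range_subset_range.2 ?_)
  have : ⌊c' * ff X⌋₊ ≤ ⌊c * ff X⌋₊ := Nat.floor_le_floor (mul_le_mul_of_nonneg_right hc hX)
  omega

/-- **The coloured theorem inside the record windows, with many places.** -/
theorem mtR : ∃ η : ℝ, 0 < η ∧ ∀ m : ℕ, 1 ≤ m → ∃ K : ℕ, 1 ≤ K ∧ ∃ c : ℝ, 0 < c ∧ ∀ z : ℕ, ∃ X0 : ℝ,
    ∀ X : ℝ, X0 ≤ X → ∀ Y : Fin m × Fin K → ℕ, Function.Injective Y →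
      (∀ u, (Y u).Prime ∧ yy X < Y u ∧ (Y u : ℝ) ≤ c * ff X) →
      ∃ s : Finset ℕ, RGood K z c X s ∧ s ⊆ univ.image Y ∧ ∃ B : Finset (Fin m), η * m ≤ B.card ∧
        ∀ b ∈ B, ∃ i, Y (b, i) ∈ s := by
  classical
  obtain ⟨η, hη, h⟩ := stRQ
  refine ⟨η, hη, fun m hm => ?_⟩
  obtain ⟨K, hmK, c, hc, h⟩ := h m hm
  refine ⟨K, by omega, c, hc, fun z => ?_⟩
  obtain ⟨X0, hX0⟩ := h z
  have hgrow : ∀ᶠ X : ℝ in atTop, ((2 ^ K : ℕ) : ℝ) ≤ X ^ (1 / 40 : ℝ) :=
    (tendsto_rpow_atTop (by norm_num)).eventually_ge_atTop _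
  obtain ⟨X1, hX1⟩ := eventually_atTop.1 (hgrow.and (eventually_ge_atTop (1 : ℝ)))
  refine ⟨max X0 X1, fun X hX Y hYinj hV => ?_⟩
  have hX0' : X0 ≤ X := (le_max_left _ _).trans hX
  obtain ⟨hg, hX1'⟩ := hX1 X ((le_max_right _ _).trans hX)
  by_contra hcon
  push Not at hcon
  have hmpos : 0 < m := by omega
  set t : Fin K → ℕ := fun j => Y (cmod K m hmpos j, j) with ht
  have htinj : Function.Injective t := by
    intro j j' hj
    have := hYinj hj
    simp only [Prod.mk.injEq] at this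
    exact this.2
  set bad : Finset ℕ := (univ : Finset (Finset (Fin K))).biUnion
    (fun W => if RGood K z c X (W.image t) then ∅ else RecW K z c X (W.image t)) with hbad
  have hbadc : (bad.card : ℝ) ≤ X ^ (9 / 10 : ℝ) := by
    have h1 : (bad.card : ℝ) ≤ ∑ W : Finset (Fin K), X ^ (7 / 8 : ℝ) := by
      have h0 : bad.card ≤ ∑ W : Finset (Fin K),
          (if RGood K z c X (W.image t) then ∅ else RecW K z c X (W.image t)).card := by
        rw [hbad]
        exact card_biUnion_le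
      have h0' : (bad.card : ℝ) ≤ ∑ W : Finset (Fin K),
          (((if RGood K z c X (W.image t) then ∅ else RecW K z c X (W.image t)).card : ℕ) : ℝ) := by
        exact_mod_cast h0
      refine h0'.trans ?_
      refine Finset.sum_le_sum fun W _ => ?_
      split_ifs with hW
      · rw [card_empty, Nat.cast_zero]
        exact Real.rpow_nonneg (by linarith) _
      · unfold RGood at hW
        push Not at hW
        exact hW.le
    refine h1.trans ?_
    rw [sum_const, card_univ, Fintype.card_finset, Fintype.card_fin, nsmul_eq_mul]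
    calc ((2 ^ K : ℕ) : ℝ) * X ^ (7 / 8 : ℝ) ≤ X ^ (1 / 40 : ℝ) * X ^ (7 / 8 : ℝ) :=
          mul_le_mul_of_nonneg_right hg (Real.rpow_nonneg (by linarith) _)
      _ = X ^ (9 / 10 : ℝ) := by
          rw [← Real.rpow_add (by linarith)]
          norm_num
  obtain ⟨n, hn1, hn2, hn3, ⟨D, hD1, hD2⟩, hn4, hn5⟩ := hX0 X hX0' t htinj
    (fun j => hV _) (cmod K m hmpos) (fun d => fib_cmod K m hmpos hmK d) bad hbadc
  set W : Finset (Fin K) := univ.filter (fun j => (n + t j).Prime) with hW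
  have hnX : (n : ℝ) ≤ 3 * X := hn2
  have hmem : n ∈ RecW K z c X (W.image t) := by
    unfold RecW
    rw [mem_filter, mem_Icc]
    have hn0 : 1 ≤ n := by
      have : (0 : ℝ) < n := by linarith
      exact_mod_cast this
    refine ⟨⟨hn0, Nat.le_floor hnX⟩, hn1, ?_, ?_, hn5⟩
    · intro h hh
      obtain ⟨j, hj, rfl⟩ := mem_image.1 hh
      exact (mem_filter.1 hj).2
    · refine le_trans (card_le_card (t := univ.image t) ?_) (card_image_le.trans (by simp))
      intro s hs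
      obtain ⟨hs1, hs2⟩ := mem_filter.1 hs
      rw [mem_range] at hs1
      have hK0 : 0 < K := by omega
      have hs3 : (s : ℝ) ≤ c * ff X := by
        rcases Nat.eq_zero_or_pos s with h0 | h0
        · rw [h0, Nat.cast_zero]
          have h1 := (hV (⟨0, hmpos⟩, ⟨0, hK0⟩)).2.2
          exact (Nat.cast_nonneg _).trans h1
        · exact (Nat.le_floor_iff' (by omega)).1 (by omega)
      obtain ⟨w, rfl⟩ := hn4 s hs3 hs2
      exact mem_image_of_mem _ (mem_univ _)
  have hgood : RGood K z c X (W.image t) := by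
    by_contra hng
    apply hn3
    rw [hbad, mem_biUnion]
    refine ⟨W, mem_univ _, ?_⟩
    rw [if_neg hng]
    exact hmem
  obtain ⟨b, hb, hb2⟩ := hcon _ hgood (by
    intro x hx
    obtain ⟨j, -, rfl⟩ := mem_image.1 hx
    exact mem_image_of_mem _ (mem_univ _)) D hD1
  obtain ⟨j, hj1, hj2⟩ := hD2 b hb
  apply hb2 j
  refine mem_image.2 ⟨j, mem_filter.2 ⟨mem_univ _, hj2⟩, ?_⟩
  rw [ht]
  simp only
  rw [hj1]

/-- **Paths and lists in record windows.** -/
theorem record_lists : ∃ r : ℕ,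
    (∃ K C : ℕ, ∃ c : ℝ, 0 < c ∧ ∀ z : ℕ, ∃ X0 : ℝ, ∀ X : ℝ, X0 ≤ X →
      ∀ V : Finset ℕ, (∀ v ∈ V, v.Prime ∧ yy X < v ∧ (v : ℝ) ≤ c * ff X) →
        ∃ e : Fin r → List ℕ, Paths (AdjR K z c X) V e ∧
          (V.filter (fun x => ∀ i, x ∉ e i)).card ≤ C) ∧
    ∀ k : ℕ, ∃ K C : ℕ, ∃ c : ℝ, 0 < c ∧ ∀ z : ℕ, ∃ X0 : ℝ, ∀ X : ℝ, X0 ≤ X →
      ∀ V : Finset ℕ, (∀ v ∈ V, v.Prime ∧ yy X < v ∧ (v : ℝ) ≤ c * ff X) →
        ∃ e : Fin r → List ℕ, (∀ i, (e i).Nodup) ∧ (∀ i j, i ≠ j → List.Disjoint (e i) (e j)) ∧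
          (∀ i, ∀ x ∈ e i, x ∈ V) ∧ (V.filter (fun x => ∀ i, x ∉ e i)).card ≤ C ∧
          ∀ i, ∀ w : List ℕ, w <:+: e i → w ≠ [] → w.length ≤ k → RGood K z c X w.toFinset := by
  classical
  obtain ⟨η, hη, hU⟩ := mtR
  obtain ⟨r₁, K₁, C₁, c₁, hc₁, h₁⟩ := record_paths
  -- the number of lists
  obtain ⟨r₀, hr₀⟩ := exists_nat_gt (1 / η)
  rw [div_lt_iff₀ hη] at hr₀
  set r := max r₁ r₀ with hr
  have hr1 : (r₀ : ℝ) ≤ r := by exact_mod_cast le_max_right _ _
  have hηr : 1 < η * ((r : ℝ) + 1) := by nlinarith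
  refine ⟨r, ?_, ?_⟩
  · refine ⟨K₁, C₁, c₁, hc₁, fun z => ?_⟩
    obtain ⟨X0, hX0⟩ := h₁ z
    refine ⟨X0, fun X hX V hV => ?_⟩
    obtain ⟨e, ⟨he1, he2, he3⟩, he4⟩ := hX0 X hX V hV
    -- more lists, the new ones empty
    refine ⟨fun i => if h : (i : ℕ) < r₁ then e ⟨i, h⟩ else [], ⟨?_, ?_, ?_⟩, ?_⟩
    · intro i
      dsimp only
      split_ifs with h
      · exact he1 _
      · exact ⟨List.nodup_nil, List.isChain_nil⟩
    · intro i j hij
      dsimp only
      split_ifs with h h'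
      · exact he2 _ _ (fun hh => hij (Fin.ext (by simpa using hh)))
      · simp
      · simp
      · simp
    · intro i x hx
      dsimp only at hx
      split_ifs at hx with h
      · exact he3 _ x hx
      · simp at hx
    · refine le_trans (card_le_card ?_) he4
      intro x hx
      obtain ⟨hx1, hx2⟩ := mem_filter.1 hx
      refine mem_filter.2 ⟨hx1, fun i hi => hx2 ⟨i, lt_of_lt_of_le i.2 (le_max_left _ _)⟩ ?_⟩
      dsimp only
      rw [dif_pos i.2]
      exact hi
  · intro k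
    set k' := k + 1 with hk'
    obtain ⟨S, hS⟩ := exists_nat_gt ((r * k' : ℝ) / (η * ((r : ℝ) + 1) - 1))
    have hpos : 0 < η * ((r : ℝ) + 1) - 1 := by linarith
    rw [div_lt_iff₀ hpos] at hS
    have hS1 : 1 ≤ S := by
      by_contra hcon
      have : S = 0 := by omega
      rw [this, Nat.cast_zero, zero_mul] at hS
      have h2 : (0 : ℝ) ≤ r * k' := by positivity
      linarith
    obtain ⟨K₂, hK₂, c₂, hc₂, h₂⟩ := hU ((r + 1) * S) (Nat.mul_pos (Nat.succ_pos _) hS1)
    set M : ℕ := 2 * (k' + S * K₂) with hM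
    obtain ⟨m₃, hm₃⟩ := exists_nat_gt ((M : ℝ) / η)
    rw [div_lt_iff₀ hη] at hm₃
    have hm₃1 : 1 ≤ m₃ := by
      by_contra hcon
      have : m₃ = 0 := by omega
      rw [this, Nat.cast_zero, zero_mul] at hm₃
      have h2 : (0 : ℝ) ≤ M := Nat.cast_nonneg _
      linarith
    obtain ⟨K₃, hK₃, c₃, hc₃, h₃⟩ := hU m₃ hm₃1
    set c := min c₂ c₃ with hc
    have hcpos : 0 < c := lt_min hc₂ hc₃
    refine ⟨max K₂ K₃, m₃ * K₃, c, hcpos, fun z => ?_⟩
    obtain ⟨X2, hX2⟩ := h₂ z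
    obtain ⟨X3, hX3⟩ := h₃ z
    refine ⟨max X2 X3, fun X hX V hV => ?_⟩
    have hX2' := (le_max_left X2 X3).trans hX
    have hX3' := (le_max_right X2 X3).trans hX
    have hff : ∀ v ∈ V, 0 ≤ ff X := by
      intro v hv
      by_contra hcon
      push Not at hcon
      have h1 := (hV v hv).2.2
      have h2 : c * ff X < 0 := mul_neg_of_pos_of_neg hcpos hcon
      have h3 : (0 : ℝ) ≤ v := Nat.cast_nonneg _
      linarith
    set good : Finset ℕ → Prop := RGood (max K₂ K₃) z c X with hgood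
    have hMT : FMT good V r k' S K₂ := by
      intro Y hY hYV
      set e : Fin ((r + 1) * S) ≃ Fin (r + 1) × Fin S := finProdFinEquiv.symm with he
      have hv : ∀ u, (Y u).Prime ∧ yy X < Y u ∧ (Y u : ℝ) ≤ c₂ * ff X := by
        intro u
        obtain ⟨h1, h2, h3⟩ := hV _ (hYV u)
        exact ⟨h1, h2, h3.trans (mul_le_mul_of_nonneg_right (min_le_left _ _) (hff _ (hYV u)))⟩
      obtain ⟨s, hs, hsub, B, hB, hBs⟩ := hX2 X hX2' (fun u => Y ((e u.1).1, (e u.1).2, u.2)) (by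
        rintro ⟨g, i⟩ ⟨g', i'⟩ h
        have h1 := hY h
        simp only [Prod.mk.injEq] at h1
        have h2 : g = g' := e.injective (Prod.ext h1.1 h1.2.1)
        rw [h2, h1.2.2]) (fun u => hv _)
      have hXff : 0 ≤ ff X := by
        have u₀ : Fin (r + 1) × Fin S × Fin K₂ := (⟨0, Nat.succ_pos _⟩, ⟨0, hS1⟩, ⟨0, hK₂⟩)
        exact hff _ (hYV u₀)
      refine ⟨s, rgood_mono (le_max_left _ _) (min_le_left _ _) hXff hs, B.image e, ?_, ?_⟩
      · rw [card_image_of_injective _ e.injective]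
        have h1 : ((S + r * k' : ℕ) : ℝ) < B.card := by
          refine lt_of_lt_of_le ?_ hB
          push_cast
          nlinarith
        exact_mod_cast h1
      · intro b hb
        obtain ⟨g, hg, rfl⟩ := mem_image.1 hb
        obtain ⟨i, hi⟩ := hBs g hg
        exact ⟨i, hi⟩
    have hCl : FCl good V (m₃ * K₃ + 1) M := by
      intro Z hZV hZ
      obtain ⟨Z', hZ', hZ'c⟩ := exists_subset_card_eq (le_trans (Nat.le_succ _) hZ)
      set ψ : Fin m₃ × Fin K₃ ≃ Z' :=
        (finProdFinEquiv.trans (Z'.equivFinOfCardEq hZ'c).symm) with hψ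
      have hψV : ∀ u, (ψ u : ℕ) ∈ V := fun u => hZV (hZ' (ψ u).2)
      obtain ⟨s, hs, hsub, B, hB, hBs⟩ := hX3 X hX3' (fun u => (ψ u : ℕ))
        (fun u u' h => ψ.injective (Subtype.ext h)) (fun u => by
          obtain ⟨h1, h2, h3⟩ := hV _ (hψV u)
          exact ⟨h1, h2, h3.trans (mul_le_mul_of_nonneg_right (min_le_right _ _) (hff _ (hψV u)))⟩)
      have hXff : 0 ≤ ff X := hff _ (hψV (⟨0, hm₃1⟩, ⟨0, hK₃⟩))
      haveI : Nonempty (Fin K₃) := ⟨⟨0, hK₃⟩⟩
      choose! i hi using hBs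
      have hcard : M ≤ s.card := by
        have h1 : B.card ≤ s.card := by
          refine Finset.card_le_card_of_injOn (fun b => (ψ (b, i b) : ℕ)) (fun b hb => hi b hb) ?_
          intro b _ b' _ hbb
          have := ψ.injective (Subtype.ext hbb)
          simp only [Prod.mk.injEq] at this
          exact this.1
        have h2 : (M : ℝ) ≤ B.card := by
          refine le_trans ?_ hB
          linarith
        have h3 : M ≤ B.card := by exact_mod_cast h2
        omega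
      obtain ⟨P, hP, hPc⟩ := exists_subset_card_eq hcard
      refine ⟨P, ?_, hPc, rgood_anti _ _ hP (rgood_mono (le_max_right _ _) (min_le_right _ _) hXff hs)⟩
      intro x hx
      obtain ⟨u, -, rfl⟩ := mem_image.1 (hsub (hP hx))
      exact hZ' (ψ u).2
    by_cases hVc : m₃ * K₃ < V.card
    · have h0 : good ∅ := by
        obtain ⟨Q, -, -, hQ⟩ := hCl V (Subset.refl _) hVc
        exact rgood_anti _ _ (empty_subset _) hQ
      obtain ⟨e, h1, h2, h3, h4, h5⟩ := finite_arrange rgood_anti h0 (k := k') (by omega) hMT hCl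
      refine ⟨e, h1, h2, h3, ?_, fun i w hw _ hwk => h5 i w hw (by omega)⟩
      have h6 := Nat.lt_succ_iff.1 h4
      convert h6
    · refine ⟨fun _ => [], fun _ => List.nodup_nil, fun i j _ x hx => by simp at hx,
        fun i x hx => by simp at hx, ?_, ?_⟩
      · exact (card_le_card (filter_subset _ _)).trans (by omega)
      · intro i w hw hw0
        exact absurd (List.infix_nil.1 hw) hw0

end Pool.Agent.Run7.h166.TS
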